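import Mathlib
import Pool.Agent.Helper10.UC.Defs

/-! Meromorphic maps between complex manifolds. -/

set_option autoImplicit false
set_option linter.unusedSectionVars false
open Set Topology
open scoped Manifold ContDiff LinearAlgebra.Projectivization

namespace Pool.Agent.Y189.UD

/-- `A` is a closed analytic subset of the complex manifold `X`: near every point of `X`, the set
`A` is the common zero set of finitely many holomorphic functions. -/
def IsAnalyticSet {E H X : Type*} [NormedAddCommGroup E] [NormedSpace ℂ E] [TopologicalSpace H]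
    [TopologicalSpace X] [ChartedSpace H X] (I : ModelWithCorners ℂ E H) (A : Set X) : Prop :=
  ∀ x : X, ∃ U : Set X, IsOpen U ∧ x ∈ U ∧ ∃ (m : ℕ) (f : X → (Fin m → ℂ)),
    MDifferentiableOn I 𝓘(ℂ, Fin m → ℂ) f U ∧ A ∩ U = {y | y ∈ U ∧ f y = 0}

/-- `Γ ⊆ X × Y` is (the graph of) a meromorphic map from the complex manifold `X` to the complex
manifold `Y`: an irreducible closed analytic subset of `X × Y` whose projection to `X` is proper,
and biholomorphic over the complement of a nowhere dense analytic subset `A` of `X` (so over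
`X ∖ A` it is the graph of a holomorphic map `h`). -/
structure IsMeromorphicMap (V W : Type*) [NormedAddCommGroup V] [NormedSpace ℂ V]
    [NormedAddCommGroup W] [NormedSpace ℂ W] {X Y : Type*} [TopologicalSpace X] [ChartedSpace V X]
    [TopologicalSpace Y] [ChartedSpace W Y] (Γ : Set (X × Y)) : Prop where
  analytic : IsAnalyticSet (𝓘(ℂ, V).prod 𝓘(ℂ, W)) Γ
  irreducible : ∀ Γ₁ Γ₂ : Set (X × Y), IsAnalyticSet (𝓘(ℂ, V).prod 𝓘(ℂ, W)) Γ₁ →
    IsAnalyticSet (𝓘(ℂ, V).prod 𝓘(ℂ, W)) Γ₂ → Γ = Γ₁ ∪ Γ₂ → Γ = Γ₁ ∨ Γ = Γ₂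
  proper : ∀ K : Set X, IsCompact K → IsCompact {p | p ∈ Γ ∧ p.1 ∈ K}
  generic : ∃ A : Set X, IsAnalyticSet 𝓘(ℂ, V) A ∧ interior A = ∅ ∧ ∃ h : X → Y,
    MDifferentiableOn 𝓘(ℂ, V) 𝓘(ℂ, W) h Aᶜ ∧ ∀ x ∉ A, ∀ y, (x, y) ∈ Γ ↔ y = h x

/-- The complex manifolds `X` and `Y` are bimeromorphic: there is a set `Γ ⊆ X × Y` such that `Γ`
is a meromorphic map from `X` to `Y` and its inverse is a meromorphic map from `Y` to `X`. -/
def Bimeromorphic (V W : Type*) [NormedAddCommGroup V] [NormedSpace ℂ V]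
    [NormedAddCommGroup W] [NormedSpace ℂ W] (X Y : Type*) [TopologicalSpace X] [ChartedSpace V X]
    [TopologicalSpace Y] [ChartedSpace W Y] : Prop :=
  ∃ Γ : Set (X × Y), IsMeromorphicMap V W Γ ∧ IsMeromorphicMap W V (Prod.swap ⁻¹' Γ)

/-- The map `p` from the complex manifold `E` to the subset `M` of a projective space is
holomorphic: locally it is given by holomorphic homogeneous coordinates without common zeros. -/
def IsHolomorphicInto (V : Type*) [NormedAddCommGroup V] [NormedSpace ℂ V] {E : Type*}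
    [TopologicalSpace E] [ChartedSpace V E] {ι : Type} [Fintype ι]
    {M : Set (Pool.Agent.Helper10.UC.PP ι)} (p : E → M) : Prop :=
  ∀ e₀ : E, ∃ U : Set E, IsOpen U ∧ e₀ ∈ U ∧ ∃ v : E → (ι → ℂ),
    MDifferentiableOn 𝓘(ℂ, V) 𝓘(ℂ, ι → ℂ) v U ∧ ∀ e ∈ U, ∃ h : v e ≠ 0,
      (p e : Pool.Agent.Helper10.UC.PP ι) = Projectivization.mk ℂ (v e) h

end Pool.Agent.Y189.UD
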