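import Mathlib
import Pool.Agent.Helper417.Mer.HartogsExt
import Pool.Agent.Helper417.Mer.ThinCompl

/-! Riemann's extension theorem in several variables. -/

set_option autoImplicit false
set_option linter.unusedSectionVars false
open Set Metric Filter Topology

namespace Pool.Agent.Y189.UD

/-- one variable: bounded holomorphic functions extend over a set of isolated points -/
theorem disc_ext {D Z : Set ℂ} (hD : IsOpen D) (hDZ : IsOpen (D \ Z)) {φ : ℂ → ℂ}
    (hφ : DifferentiableOn ℂ φ (D \ Z)) (hiso : ∀ t ∈ D, ∀ᶠ s in 𝓝[≠] t, s ∉ Z)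
    (hb : ∀ t ∈ D, ∃ M : ℝ, ∀ᶠ s in 𝓝[≠] t, ‖φ s‖ ≤ M) :
    ∃ ψ : ℂ → ℂ, DifferentiableOn ℂ ψ D ∧ ∀ t ∈ D \ Z, ψ t = φ t := by
  classical
  refine ⟨fun t => if t ∈ Z then limUnder (𝓝[≠] t) φ else φ t, ?_, ?_⟩
  · intro t ht
    apply DifferentiableAt.differentiableWithinAt
    by_cases htZ : t ∈ Z
    · obtain ⟨M, hM⟩ := hb t ht
      have hD' : ∀ᶠ s in 𝓝[≠] t, s ∈ D := nhdsWithin_le_nhds (hD.mem_nhds ht)
      have hall := ((hiso t ht).and hD').and hM
      rw [eventually_nhdsWithin_iff] at hall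
      set S : Set ℂ := {s | s ∈ ({t}ᶜ : Set ℂ) → (s ∉ Z ∧ s ∈ D) ∧ ‖φ s‖ ≤ M} with hS
      have hSn : S ∈ 𝓝 t := hall
      have h1 : DifferentiableOn ℂ φ (S \ {t}) := by
        intro s hs
        have h2 := hs.1 hs.2
        exact (hφ s ⟨h2.1.2, h2.1.1⟩).differentiableAt (hDZ.mem_nhds ⟨h2.1.2, h2.1.1⟩)
          |>.differentiableWithinAt
      have h3 : BddAbove (norm ∘ φ '' (S \ {t})) := by
        refine ⟨M, ?_⟩
        rintro _ ⟨s, hs, rfl⟩
        exact (hs.1 hs.2).2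
      have h4 := Complex.differentiableOn_update_limUnder_of_bddAbove hSn h1 h3
      have h5 := h4.differentiableAt hSn
      refine h5.congr_of_eventuallyEq ?_
      filter_upwards [hSn] with s hs
      by_cases hst : s = t
      · subst hst
        simp [htZ]
      · have := (hs hst).1.1
        simp [this, Function.update_of_ne hst]
    · have h1 : DifferentiableAt ℂ φ t :=
        (hφ t ⟨ht, htZ⟩).differentiableAt (hDZ.mem_nhds ⟨ht, htZ⟩)
      refine h1.congr_of_eventuallyEq ?_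
      filter_upwards [hDZ.mem_nhds ⟨ht, htZ⟩] with s hs
      simp [hs.2]
  · intro t ht
    simp [ht.2]

variable {V : Type} [NormedAddCommGroup V] [NormedSpace ℂ V]

/-- `A` is thin in `W`: locally it is contained in the zero set of a holomorphic function which does
not vanish identically near the point. -/
def ThinIn (W A : Set V) : Prop :=
  ∀ x ∈ W, ∃ U : Set V, IsOpen U ∧ x ∈ U ∧ ∃ g : V → ℂ, DifferentiableOn ℂ g U ∧
    (∀ y ∈ A ∩ U, g y = 0) ∧ ¬ (∀ᶠ y in 𝓝 x, g y = 0)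

theorem ThinIn.mono {W W' A : Set V} (h : ThinIn W A) (hs : W' ⊆ W) : ThinIn W' A :=
  fun x hx => h x (hs hx)

theorem ThinIn.dense {W A : Set V} (h : ThinIn W A) {x : V} (hx : x ∈ W) (hW : IsOpen W) :
    x ∈ closure (W \ A) := by
  obtain ⟨U, hU, hxU, g, hg, hgA, hgne⟩ := h x hx
  rw [_root_.mem_closure_iff]
  intro O hO hxO
  by_contra hcon
  apply hgne
  filter_upwards [(hO.inter (hU.inter hW)).mem_nhds ⟨hxO, hxU, hx⟩] with y hy
  by_contra hy0
  exact hcon ⟨y, hy.1, hy.2.2, fun hyA => hy0 (hgA y ⟨hyA, hy.2.1⟩)⟩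

variable [FiniteDimensional ℂ V]

theorem ret_local {W A : Set V} (hW : IsOpen W) (hA : ThinIn W A) (hcl : IsOpen (W \ A))
    {f : V → ℂ} (hf : DifferentiableOn ℂ f (W \ A))
    (hb : ∀ x ∈ W, ∃ U ∈ 𝓝 x, ∃ M : ℝ, ∀ y ∈ U ∩ (W \ A), ‖f y‖ ≤ M) {x : V} (hx : x ∈ W) :
    ∃ r > 0, ball x r ⊆ W ∧ ∃ G : V → ℂ, DifferentiableOn ℂ G (ball x r) ∧
      ∀ z ∈ ball x r \ A, G z = f z := by
  obtain ⟨U, hU, hxU, g, hg, hgA, hgne⟩ := hA x hx
  obtain ⟨R, hR, hRsub⟩ := Metric.mem_nhds_iff.1 ((hU.inter hW).mem_nhds ⟨hxU, hx⟩)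
  have hgB : DifferentiableOn ℂ g (ball x R) := hg.mono fun y hy => (hRsub hy).1
  -- a direction in which `g` does not vanish identically
  obtain ⟨v, hv⟩ : ∃ v : V, x + v ∈ ball x R ∧ g (x + v) ≠ 0 := by
    by_contra hcon
    push Not at hcon
    apply hgne
    filter_upwards [ball_mem_nhds x hR] with y hy
    have := hcon (y - x) (by simpa using hy)
    simpa using this
  -- lines in direction `v`
  have hline : ∀ z : V, IsOpen {t : ℂ | z + t • v ∈ ball x R} ∧
      IsPreconnected {t : ℂ | z + t • v ∈ ball x R} ∧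
      AnalyticOnNhd ℂ (fun t : ℂ => g (z + t • v)) {t : ℂ | z + t • v ∈ ball x R} := by
    intro z
    obtain ⟨h1, h2, h3⟩ := Pool.Agent.Helper417.Mer.ThinAux.line_facts x R z (z + v) hgB
    simp only [add_sub_cancel_left] at h1 h2 h3
    exact ⟨h1, h2, h3.analyticOnNhd h1⟩
  -- isolated zeros at `x`
  obtain ⟨ho, hpc, han⟩ := hline x
  have h0 : (0 : ℂ) ∈ {t : ℂ | x + t • v ∈ ball x R} := by simp [hR]
  have h1m : (1 : ℂ) ∈ {t : ℂ | x + t • v ∈ ball x R} := by simpa using hv.1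
  have hne0 : ∀ᶠ t in 𝓝[≠] (0 : ℂ), g (x + t • v) ≠ 0 := by
    rcases (han 0 h0).eventually_eq_zero_or_eventually_ne_zero with h | h
    · exact absurd (by simpa using han.eqOn_zero_of_preconnected_of_eventuallyEq_zero hpc h0 h h1m)
        hv.2
    · exact h
  rw [eventually_nhdsWithin_iff] at hne0
  obtain ⟨ε0, hε0, hball⟩ := Metric.eventually_nhds_iff_ball.1 (hne0.and (ho.mem_nhds h0))
  obtain ⟨ε, hε, hεε⟩ : ∃ ε > 0, ε < ε0 := ⟨ε0 / 2, by positivity, by linarith⟩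
  -- `ball 0 ε0` is mapped into the ball and `g ≠ 0` on the circle of radius `ε`
  have hcirc : ∀ t ∈ sphere (0 : ℂ) ε, g (x + t • v) ≠ 0 ∧ x + t • v ∈ ball x R := by
    intro t ht
    have htn : ‖t‖ = ε := by simpa using ht
    have h2 := hball t (by rw [mem_ball_zero_iff, htn]; exact hεε)
    refine ⟨h2.1 ?_, h2.2⟩
    rintro rfl
    simp at htn
    linarith
  -- uniformity
  have hgc : ContinuousOn g (ball x R) := hgB.continuousOn
  have hopen1 : IsOpen {y | y ∈ ball x R ∧ g y ≠ 0} :=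
    hgc.isOpen_inter_preimage isOpen_ball isOpen_ne
  have htube : ∃ δ > 0, ∀ z ∈ ball x δ, (∀ t ∈ sphere (0 : ℂ) ε, z + t • v ∈ ball x R ∧
      g (z + t • v) ≠ 0) ∧ ∀ t ∈ closedBall (0 : ℂ) ε, z + t • v ∈ ball x R := by
    have hcont : Continuous fun p : V × ℂ => p.1 + p.2 • v := by fun_prop
    obtain ⟨u1, w1, hu1, hw1, hxu1, hsw1, huw1⟩ := generalized_tube_lemma
      (isCompact_singleton (x := x)) (isCompact_sphere (0 : ℂ) ε)
      (hopen1.preimage hcont) (by
        rintro ⟨a, t⟩ ⟨ha, ht⟩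
        obtain rfl : a = x := ha
        exact ⟨(hcirc t ht).2, (hcirc t ht).1⟩)
    obtain ⟨u2, w2, hu2, hw2, hxu2, hsw2, huw2⟩ := generalized_tube_lemma
      (isCompact_singleton (x := x)) (isCompact_closedBall (0 : ℂ) ε)
      ((isOpen_ball (x := x) (ε := R)).preimage hcont) (by
        rintro ⟨a, t⟩ ⟨ha, ht⟩
        obtain rfl : a = x := ha
        have ht' : ‖t‖ ≤ ε := mem_closedBall_zero_iff.1 ht
        refine (hball t ?_).2
        rw [mem_ball_zero_iff]
        linarith)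
    obtain ⟨δ, hδ, hδs⟩ := Metric.mem_nhds_iff.1 ((hu1.inter hu2).mem_nhds
      ⟨hxu1 rfl, hxu2 rfl⟩)
    refine ⟨δ, hδ, fun z hz => ⟨fun t ht => huw1 (mk_mem_prod (hδs hz).1 (hsw1 ht)),
      fun t ht => huw2 (mk_mem_prod (hδs hz).2 (hsw2 ht))⟩⟩
  obtain ⟨δ, hδ, htube⟩ := htube
  -- the extension
  set Ω : Set (V × ℂ) := {p | p.1 + p.2 • v ∈ W \ A ∧ p.2 ≠ 0} with hΩ
  have hΩo : IsOpen Ω := by
    have hcont : Continuous fun p : V × ℂ => p.1 + p.2 • v := by fun_prop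
    exact (hcl.preimage hcont).inter (isOpen_ne.preimage continuous_snd)
  have hF : DifferentiableOn ℂ (fun p : V × ℂ => p.2⁻¹ * f (p.1 + p.2 • v)) Ω := by
    rintro p hp
    apply DifferentiableAt.differentiableWithinAt
    have h1 : DifferentiableAt ℂ f (p.1 + p.2 • v) :=
      (hf _ hp.1).differentiableAt (hcl.mem_nhds hp.1)
    have h2 : DifferentiableAt ℂ (fun p : V × ℂ => p.1 + p.2 • v) p := by fun_prop
    have h3 : DifferentiableAt ℂ (fun p : V × ℂ => f (p.1 + p.2 • v)) p :=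
      DifferentiableAt.comp p h1 h2
    have h4 : DifferentiableAt ℂ (fun p : V × ℂ => p.2) p := differentiableAt_snd
    exact (h4.fun_inv hp.2).mul h3
  have hcircA : ∀ z ∈ ball x δ, ∀ t ∈ sphere (0 : ℂ) ε, z + t • v ∈ W \ A := by
    intro z hz t ht
    have := (htube z hz).1 t ht
    exact ⟨(hRsub this.1).2, fun hA' => this.2 (hgA _ ⟨hA', (hRsub this.1).1⟩)⟩
  have hG := Pool.Agent.Helper417.Mer.Hartogs673.param_circle hΩo hF (r := ε) isOpen_ball
    (U := ball x δ) (by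
      intro z hz t ht
      rw [abs_of_pos hε] at ht
      refine ⟨hcircA z hz t ht, ?_⟩
      rintro rfl
      simp at ht
      linarith)
  refine ⟨min δ R, lt_min hδ hR, fun y hy => (hRsub (ball_subset_ball (min_le_right _ _) hy)).2,
    fun z => (2 * Real.pi * Complex.I : ℂ)⁻¹ * ∮ t in C(0, ε), t⁻¹ * f (z + t • v), ?_, ?_⟩
  · exact (hG.const_mul _).mono (ball_subset_ball (min_le_left _ _))
  · rintro z ⟨hz, hzA⟩
    have hzδ : z ∈ ball x δ := ball_subset_ball (min_le_left _ _) hz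
    have hzR : z ∈ ball x R := ball_subset_ball (min_le_right _ _) hz
    obtain ⟨ho', hpc', han'⟩ := hline z
    set D : Set ℂ := {t : ℂ | z + t • v ∈ ball x R} with hD
    set Z : Set ℂ := {t : ℂ | z + t • v ∈ A} with hZ
    have hcontz : Continuous fun t : ℂ => z + t • v := by fun_prop
    have hDW : ∀ t ∈ D, z + t • v ∈ W := fun t ht => (hRsub ht).2
    have hDZ : IsOpen (D \ Z) := by
      have : D \ Z = D ∩ (fun t : ℂ => z + t • v) ⁻¹' (W \ A) := by
        ext t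
        constructor
        · rintro ⟨h1, h2⟩
          exact ⟨h1, hDW t h1, h2⟩
        · rintro ⟨h1, h2⟩
          exact ⟨h1, h2.2⟩
      rw [this]
      exact ho'.inter (hcl.preimage hcontz)
    have hsph : ((ε : ℝ) : ℂ) ∈ sphere (0 : ℂ) ε := by
      simp [abs_of_pos hε]
    have hsphD : ((ε : ℝ) : ℂ) ∈ D := ((htube z hzδ).1 _ hsph).1
    have hsphg := ((htube z hzδ).1 _ hsph).2
    have hiso : ∀ t ∈ D, ∀ᶠ s in 𝓝[≠] t, s ∉ Z := by
      intro t ht
      rcases (han' t ht).eventually_eq_zero_or_eventually_ne_zero with h | h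
      · exact absurd (han'.eqOn_zero_of_preconnected_of_eventuallyEq_zero hpc' ht h hsphD) hsphg
      · have hD' : ∀ᶠ s in 𝓝[≠] t, s ∈ D := nhdsWithin_le_nhds (ho'.mem_nhds ht)
        filter_upwards [h, hD'] with s hs hsD hsZ
        exact hs (hgA _ ⟨hsZ, (hRsub hsD).1⟩)
    have hφd : DifferentiableOn ℂ (fun t : ℂ => f (z + t • v)) (D \ Z) := by
      intro t ht
      apply DifferentiableAt.differentiableWithinAt
      have h1 : DifferentiableAt ℂ f (z + t • v) :=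
        (hf _ ⟨hDW t ht.1, ht.2⟩).differentiableAt (hcl.mem_nhds ⟨hDW t ht.1, ht.2⟩)
      exact DifferentiableAt.comp t h1 (by fun_prop)
    have hbd : ∀ t ∈ D, ∃ M : ℝ, ∀ᶠ s in 𝓝[≠] t, ‖f (z + s • v)‖ ≤ M := by
      intro t ht
      obtain ⟨O, hO, M, hM⟩ := hb _ (hDW t ht)
      refine ⟨M, ?_⟩
      have hO' : ∀ᶠ s in 𝓝[≠] t, z + s • v ∈ O := nhdsWithin_le_nhds (hcontz.tendsto t hO)
      have hD' : ∀ᶠ s in 𝓝[≠] t, s ∈ D := nhdsWithin_le_nhds (ho'.mem_nhds ht)
      filter_upwards [hiso t ht, hO', hD'] with s hs hsO hsD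
      exact hM _ ⟨hsO, hDW s hsD, hs⟩
    obtain ⟨ψ, hψ, hψe⟩ := disc_ext ho' hDZ hφd hiso hbd
    have h0D : (0 : ℂ) ∈ D := by simpa [hD] using hzR
    have h0Z : (0 : ℂ) ∉ Z := by simpa [hZ] using hzA
    have hψ0 : ψ 0 = f z := by
      rw [hψe 0 ⟨h0D, h0Z⟩]
      simp
    have hcb : closedBall (0 : ℂ) ε ⊆ D := fun t ht => (htube z hzδ).2 t ht
    have hcauchy := (hψ.mono hcb).circleIntegral_sub_inv_smul (c := 0) (R := ε) (w := 0)
      (mem_ball_self hε)
    have hcongr : (∮ t in C(0, ε), t⁻¹ * f (z + t • v)) = ∮ t in C(0, ε), (t - 0)⁻¹ • ψ t := by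
      refine circleIntegral.integral_congr hε.le ?_
      intro t ht
      have h1 := (htube z hzδ).1 t ht
      have h2 := hcircA z hzδ t ht
      have h3 := hψe t ⟨h1.1, h2.2⟩
      beta_reduce
      rw [h3, sub_zero, smul_eq_mul]
    beta_reduce
    rw [hcongr, hcauchy, hψ0, smul_eq_mul, ← mul_assoc, inv_mul_cancel₀, one_mul]
    exact Complex.two_pi_I_ne_zero

/-- Riemann's extension theorem. -/
theorem riemann_ext {W A : Set V} (hW : IsOpen W) (hA : ThinIn W A) (hcl : IsOpen (W \ A))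
    {f : V → ℂ} (hf : DifferentiableOn ℂ f (W \ A))
    (hb : ∀ x ∈ W, ∃ U ∈ 𝓝 x, ∃ M : ℝ, ∀ y ∈ U ∩ (W \ A), ‖f y‖ ≤ M) :
    ∃ G : V → ℂ, DifferentiableOn ℂ G W ∧ ∀ z ∈ W \ A, G z = f z := by
  classical
  choose! r hr hrW G hG hGf using fun x (hx : x ∈ W) => ret_local hW hA hcl hf hb hx
  have key : ∀ x ∈ W, ∀ y ∈ W, y ∈ ball x (r x) → G x y = G y y := by
    intro x hx y hy hyx
    have hm : y ∈ closure ((ball x (r x) ∩ ball y (r y)) \ A) := by
      have hA' : ThinIn (ball x (r x) ∩ ball y (r y)) A :=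
        hA.mono fun z hz => hrW x hx hz.1
      exact hA'.dense ⟨hyx, mem_ball_self (hr y hy)⟩ (isOpen_ball.inter isOpen_ball)
    have hc1 : ContinuousAt (fun z => G x z - G y z) y :=
      ((hG x hx).continuousOn.continuousAt (isOpen_ball.mem_nhds hyx)).sub
        ((hG y hy).continuousOn.continuousAt (ball_mem_nhds y (hr y hy)))
    have h0 : G x y - G y y ∈ closure ({0} : Set ℂ) := by
      refine hc1.continuousWithinAt.mem_closure hm ?_
      rintro z ⟨⟨h1, h2⟩, h3⟩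
      simp only [mem_singleton_iff]
      rw [hGf x hx z ⟨h1, h3⟩, hGf y hy z ⟨h2, h3⟩, sub_self]
    rw [closure_singleton, mem_singleton_iff] at h0
    exact sub_eq_zero.1 h0
  refine ⟨fun y => G y y, ?_, ?_⟩
  · intro x hx
    apply DifferentiableAt.differentiableWithinAt
    have h1 : DifferentiableAt ℂ (G x) x := (hG x hx).differentiableAt (ball_mem_nhds x (hr x hx))
    refine h1.congr_of_eventuallyEq ?_
    filter_upwards [ball_mem_nhds x (hr x hx)] with y hy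
    exact (key x hx y (hrW x hx hy) hy).symm
  · intro z hz
    exact hGf z hz.1 z ⟨mem_ball_self (hr z hz.1), hz.2⟩

end Pool.Agent.Y189.UD
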