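import Mathlib
import Pool.Agent.Y189.UD.Ret

/-! Thin subsets of complex manifolds. -/

set_option autoImplicit false
set_option linter.unusedSectionVars false
open Set Metric Filter Topology
open scoped Manifold ContDiff

namespace Pool.Agent.Y189.UD

section charts

variable {V W : Type} [NormedAddCommGroup V] [NormedSpace ℂ V]
  [NormedAddCommGroup W] [NormedSpace ℂ W]
  {X Y : Type*} [TopologicalSpace X] [ChartedSpace V X] [IsManifold 𝓘(ℂ, V) 1 X]
  [TopologicalSpace Y] [ChartedSpace W Y] [IsManifold 𝓘(ℂ, W) 1 Y]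

/-- holomorphy in charts -/
theorem mdiff_chart_iff {f : X → Y} {x₀ x : X} {y₀ : Y} (hx : x ∈ (chartAt V x₀).source)
    (hy : f x ∈ (chartAt W y₀).source) :
    MDifferentiableAt 𝓘(ℂ, V) 𝓘(ℂ, W) f x ↔ ContinuousAt f x ∧
      DifferentiableAt ℂ (fun v => chartAt W y₀ (f ((chartAt V x₀).symm v))) (chartAt V x₀ x) := by
  rw [mdifferentiableAt_iff_of_mem_source hx hy]
  simp only [modelWithCornersSelf_coe, range_id, differentiableWithinAt_univ]
  rfl

theorem mdiff_fun_chart_iff {F : Type} [NormedAddCommGroup F] [NormedSpace ℂ F] {f : X → F}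
    {x₀ x : X} (hx : x ∈ (chartAt V x₀).source) :
    MDifferentiableAt 𝓘(ℂ, V) 𝓘(ℂ, F) f x ↔ ContinuousAt f x ∧
      DifferentiableAt ℂ (fun v => f ((chartAt V x₀).symm v)) (chartAt V x₀ x) := by
  have := mdiff_chart_iff (V := V) (W := F) (f := f) (x₀ := x₀) (x := x) (y₀ := f x) hx
    (by simp)
  exact this

theorem diff_fun_chart {F : Type} [NormedAddCommGroup F] [NormedSpace ℂ F] {f : X → F}
    {x₀ : X} {v : V} (hv : v ∈ (chartAt V x₀).target)
    (hf : MDifferentiableAt 𝓘(ℂ, V) 𝓘(ℂ, F) f ((chartAt V x₀).symm v)) :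
    DifferentiableAt ℂ (fun v => f ((chartAt V x₀).symm v)) v := by
  have := ((mdiff_fun_chart_iff ((chartAt V x₀).map_target hv)).1 hf).2
  rwa [(chartAt V x₀).right_inv hv] at this

theorem diff_chart {f : X → Y} {x₀ : X} {y₀ : Y} {v : V} (hv : v ∈ (chartAt V x₀).target)
    (hy : f ((chartAt V x₀).symm v) ∈ (chartAt W y₀).source)
    (hf : MDifferentiableAt 𝓘(ℂ, V) 𝓘(ℂ, W) f ((chartAt V x₀).symm v)) :
    DifferentiableAt ℂ (fun v => chartAt W y₀ (f ((chartAt V x₀).symm v))) v := by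
  have := ((mdiff_chart_iff ((chartAt V x₀).map_target hv) hy).1 hf).2
  rwa [(chartAt V x₀).right_inv hv] at this

end charts

section thin

variable {V : Type} [NormedAddCommGroup V] [NormedSpace ℂ V]
  {X : Type*} [TopologicalSpace X] [ChartedSpace V X]

/-- thin subsets of a complex manifold -/
def Thin (V : Type) [NormedAddCommGroup V] [NormedSpace ℂ V] {X : Type*} [TopologicalSpace X]
    [ChartedSpace V X] (A : Set X) : Prop :=
  IsClosed A ∧ ∀ x : X, ∃ U : Set X, IsOpen U ∧ x ∈ U ∧ ∃ g : X → ℂ,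
    MDifferentiableOn 𝓘(ℂ, V) 𝓘(ℂ, ℂ) g U ∧ (∀ y ∈ A ∩ U, g y = 0) ∧ ¬ (∀ᶠ y in 𝓝 x, g y = 0)

theorem Thin.dense {A : Set X} (hA : Thin V A) : Dense Aᶜ := by
  intro x
  obtain ⟨U, hU, hxU, g, hg, hgA, hgne⟩ := hA.2 x
  rw [_root_.mem_closure_iff]
  intro O hO hxO
  by_contra hcon
  apply hgne
  filter_upwards [(hO.inter hU).mem_nhds ⟨hxO, hxU⟩] with y hy
  by_contra hy0
  exact hcon ⟨y, hy.1, fun hyA => hy0 (hgA y ⟨hyA, hy.2⟩)⟩

variable [IsManifold 𝓘(ℂ, V) 1 X]

theorem Thin.chart {A : Set X} (hA : Thin V A) (x₀ : X) :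
    ThinIn (chartAt V x₀).target ((chartAt V x₀).symm ⁻¹' A) := by
  intro v hv
  obtain ⟨U, hU, hxU, g, hg, hgA, hgne⟩ := hA.2 ((chartAt V x₀).symm v)
  refine ⟨(chartAt V x₀).target ∩ (chartAt V x₀).symm ⁻¹' U,
    (chartAt V x₀).isOpen_inter_preimage_symm hU, ⟨hv, hxU⟩,
    fun w => g ((chartAt V x₀).symm w), ?_, ?_, ?_⟩
  · intro w hw
    apply DifferentiableAt.differentiableWithinAt
    exact diff_fun_chart hw.1 ((hg _ hw.2).mdifferentiableAt (hU.mem_nhds hw.2))
  · rintro w ⟨h1, h2, h3⟩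
    exact hgA _ ⟨h1, h3⟩
  · intro h
    apply hgne
    have h1 : (chartAt V x₀).symm v ∈ (chartAt V x₀).source := (chartAt V x₀).map_target hv
    have h2 : ContinuousAt (chartAt V x₀) ((chartAt V x₀).symm v) :=
      (chartAt V x₀).continuousAt h1
    have h3 : Tendsto (chartAt V x₀) (𝓝 ((chartAt V x₀).symm v)) (𝓝 v) := by
      have := h2.tendsto
      rwa [(chartAt V x₀).right_inv hv] at this
    filter_upwards [h3.eventually h, (chartAt V x₀).open_source.mem_nhds h1] with y hy hy2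
    rwa [(chartAt V x₀).left_inv hy2] at hy

theorem Thin.chart_open {A : Set X} (hA : Thin V A) (x₀ : X) {W : Set V} (hW : IsOpen W)
    (hWt : W ⊆ (chartAt V x₀).target) : IsOpen (W \ (chartAt V x₀).symm ⁻¹' A) := by
  have h1 : W \ (chartAt V x₀).symm ⁻¹' A =
      W ∩ ((chartAt V x₀).target ∩ (chartAt V x₀).symm ⁻¹' Aᶜ) := by
    ext v
    constructor
    · rintro ⟨h1, h2⟩
      exact ⟨h1, hWt h1, h2⟩
    · rintro ⟨h1, h2, h3⟩
      exact ⟨h1, h3⟩
  rw [h1]
  exact hW.inter ((chartAt V x₀).isOpen_inter_preimage_symm hA.1.isOpen_compl)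

variable [FiniteDimensional ℂ V]

/-- small neighbourhoods minus a thin set are connected -/
theorem Thin.exists_conn {A : Set X} (hA : Thin V A) {x : X} {O : Set X} (hO : O ∈ 𝓝 x) :
    ∃ O' ⊆ O, IsOpen O' ∧ x ∈ O' ∧ IsConnected (O' \ A) := by
  set φ := chartAt V x with hφ
  have hx : x ∈ φ.source := mem_chart_source V x
  have h1 : φ.target ∩ φ.symm ⁻¹' (interior O) ∈ 𝓝 (φ x) := by
    refine (φ.isOpen_inter_preimage_symm isOpen_interior).mem_nhds ⟨φ.map_source hx, ?_⟩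
    show φ.symm (φ x) ∈ interior O
    rw [φ.left_inv hx]
    exact mem_interior_iff_mem_nhds.2 hO
  obtain ⟨r, hr, hrs⟩ := Metric.mem_nhds_iff.1 h1
  have hbt : ball (φ x) r ⊆ φ.target := fun v hv => (hrs hv).1
  obtain ⟨hc, -⟩ := Pool.Agent.Helper417.Mer.isConnected_diff_thin (W := ball (φ x) r)
    (A := φ.symm ⁻¹' A) isOpen_ball
    ⟨⟨φ x, mem_ball_self hr⟩, by
      let _ : NormedSpace ℝ V := NormedSpace.restrictScalars ℝ ℂ V
      exact (convex_ball (φ x) r).isPreconnected⟩ ((hA.chart x).mono hbt)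
    (hA.chart_open x isOpen_ball hbt)
  have himg : φ.symm '' (ball (φ x) r \ φ.symm ⁻¹' A) = φ.symm '' (ball (φ x) r) \ A := by
    ext y
    constructor
    · rintro ⟨v, ⟨hv1, hv2⟩, rfl⟩
      exact ⟨⟨v, hv1, rfl⟩, hv2⟩
    · rintro ⟨⟨v, hv, rfl⟩, hy⟩
      exact ⟨v, ⟨hv, hy⟩, rfl⟩
  refine ⟨φ.symm '' ball (φ x) r, ?_, ?_, ⟨φ x, mem_ball_self hr, φ.left_inv hx⟩, ?_⟩
  · rintro _ ⟨v, hv, rfl⟩
    exact interior_subset (hrs hv).2
  · exact φ.isOpen_image_symm_of_subset_target isOpen_ball hbt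
  · rw [← himg]
    exact hc.image _ (φ.continuousOn_symm.mono (sdiff_subset.trans hbt))

/-- bounded holomorphic functions off a thin set have limits -/
theorem Thin.tendsto_of_bdd {A : Set X} (hA : Thin V A) {f : X → ℂ}
    (hf : MDifferentiableOn 𝓘(ℂ, V) 𝓘(ℂ, ℂ) f Aᶜ)
    {x : X} {O : Set X} (hO : O ∈ 𝓝 x) {M : ℝ} (hM : ∀ y ∈ O \ A, ‖f y‖ ≤ M) :
    ∃ c : ℂ, Tendsto f (𝓝[Aᶜ] x) (𝓝 c) := by
  set φ := chartAt V x with hφ
  have hx : x ∈ φ.source := mem_chart_source V x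
  have h1 : φ.target ∩ φ.symm ⁻¹' (interior O) ∈ 𝓝 (φ x) := by
    refine (φ.isOpen_inter_preimage_symm isOpen_interior).mem_nhds ⟨φ.map_source hx, ?_⟩
    show φ.symm (φ x) ∈ interior O
    rw [φ.left_inv hx]
    exact mem_interior_iff_mem_nhds.2 hO
  obtain ⟨r, hr, hrs⟩ := Metric.mem_nhds_iff.1 h1
  have hbt : ball (φ x) r ⊆ φ.target := fun v hv => (hrs hv).1
  obtain ⟨G, hG, hGf⟩ := riemann_ext (W := ball (φ x) r) (A := φ.symm ⁻¹' A) isOpen_ball
    ((hA.chart x).mono hbt) (hA.chart_open x isOpen_ball hbt) (f := fun v => f (φ.symm v))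
    (by
      intro v hv
      apply DifferentiableAt.differentiableWithinAt
      have hvA : φ.symm v ∈ Aᶜ := hv.2
      exact diff_fun_chart (hbt hv.1)
        ((hf _ hvA).mdifferentiableAt (hA.1.isOpen_compl.mem_nhds hvA)))
    (by
      intro v hv
      refine ⟨ball (φ x) r, isOpen_ball.mem_nhds hv, M, ?_⟩
      rintro w ⟨hw1, hw2, hw3⟩
      exact hM _ ⟨interior_subset (hrs hw1).2, hw3⟩)
  refine ⟨G (φ x), ?_⟩
  have h2 : ContinuousAt G (φ x) := (hG.continuousOn).continuousAt (ball_mem_nhds _ hr)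
  have h3 : Tendsto (fun y => G (φ y)) (𝓝 x) (𝓝 (G (φ x))) :=
    h2.tendsto.comp (φ.continuousAt hx).tendsto
  refine (h3.mono_left nhdsWithin_le_nhds).congr' ?_
  have h4a : ∀ᶠ y in 𝓝 x, φ y ∈ ball (φ x) r :=
    (φ.continuousAt hx).preimage_mem_nhds (ball_mem_nhds _ hr)
  have h4b : ∀ᶠ y in 𝓝 x, y ∈ φ.source := φ.open_source.mem_nhds hx
  have h4 : ∀ᶠ y in 𝓝[Aᶜ] x, φ y ∈ ball (φ x) r ∧ y ∈ φ.source :=
    nhdsWithin_le_nhds (h4a.and h4b)
  filter_upwards [h4, self_mem_nhdsWithin] with y hy hyA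
  have h5 : φ y ∈ ball (φ x) r \ φ.symm ⁻¹' A := by
    refine ⟨hy.1, ?_⟩
    show φ.symm (φ y) ∉ A
    rw [φ.left_inv hy.2]
    exact hyA
  rw [hGf _ h5, φ.left_inv hy.2]

variable {W : Type} [NormedAddCommGroup W] [NormedSpace ℂ W] [FiniteDimensional ℂ W]
  {Y : Type*} [TopologicalSpace Y] [ChartedSpace W Y] [IsManifold 𝓘(ℂ, W) 1 Y]

/-- a continuous map which is holomorphic off a thin set is holomorphic -/
theorem Thin.mdiff {A : Set X} (hA : Thin V A) {g : X → Y} (hgc : Continuous g)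
    (hg : MDifferentiableOn 𝓘(ℂ, V) 𝓘(ℂ, W) g Aᶜ) : MDifferentiable 𝓘(ℂ, V) 𝓘(ℂ, W) g := by
  intro x
  set φ := chartAt V x with hφ
  set ψ := chartAt W (g x) with hψ
  have hx : x ∈ φ.source := mem_chart_source V x
  have hy : g x ∈ ψ.source := mem_chart_source W (g x)
  rw [mdiff_chart_iff hx hy]
  refine ⟨hgc.continuousAt, ?_⟩
  have h1 : φ.target ∩ φ.symm ⁻¹' (g ⁻¹' ψ.source) ∈ 𝓝 (φ x) := by
    refine (φ.isOpen_inter_preimage_symm (ψ.open_source.preimage hgc)).mem_nhds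
      ⟨φ.map_source hx, ?_⟩
    show g (φ.symm (φ x)) ∈ ψ.source
    rw [φ.left_inv hx]
    exact hy
  obtain ⟨r, hr, hrs⟩ := Metric.mem_nhds_iff.1 h1
  have hbt : ball (φ x) r ⊆ φ.target := fun v hv => (hrs hv).1
  set F : V → W := fun v => ψ (g (φ.symm v)) with hF
  have hFc : ContinuousOn F (ball (φ x) r) := by
    intro v hv
    apply ContinuousAt.continuousWithinAt
    exact ContinuousAt.comp (f := fun v => g (φ.symm v)) (ψ.continuousAt (hrs hv).2)
      (hgc.continuousAt.comp (φ.symm.continuousAt (hbt hv)))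
  have hFd : DifferentiableOn ℂ F (ball (φ x) r \ φ.symm ⁻¹' A) := by
    intro v hv
    apply DifferentiableAt.differentiableWithinAt
    have hvA : φ.symm v ∈ Aᶜ := hv.2
    exact diff_chart (hbt hv.1) (hrs hv.1).2
      ((hg _ hvA).mdifferentiableAt (hA.1.isOpen_compl.mem_nhds hvA))
  have hthin := (hA.chart x).mono hbt
  have hopen := hA.chart_open x isOpen_ball hbt
  -- coordinates
  let m := Module.finrank ℂ W
  let L : W ≃L[ℂ] (Fin m → ℂ) := ContinuousLinearEquiv.ofFinrankEq (by simp [m])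
  have hcoord : ∀ i : Fin m, DifferentiableAt ℂ (fun v => L (F v) i) (φ x) := by
    intro i
    have hci : ContinuousOn (fun v => L (F v) i) (ball (φ x) r) := by
      have h2 : Continuous fun w : W => L w i := (continuous_apply i).comp L.continuous
      exact h2.comp_continuousOn hFc
    have hdi : DifferentiableOn ℂ (fun v => L (F v) i) (ball (φ x) r \ φ.symm ⁻¹' A) := by
      intro v hv
      have h3 : DifferentiableWithinAt ℂ (fun v => L (F v)) (ball (φ x) r \ φ.symm ⁻¹' A) v :=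
        L.differentiableAt.comp_differentiableWithinAt v (hFd v hv)
      exact (differentiableWithinAt_pi.1 h3) i
    obtain ⟨G, hG, hGf⟩ := riemann_ext isOpen_ball hthin hopen hdi (by
      intro v hv
      have h4 : ContinuousAt (fun v => L (F v) i) v := hci.continuousAt (isOpen_ball.mem_nhds hv)
      have h5 : ∀ᶠ w in 𝓝 v, ‖L (F w) i‖ < ‖L (F v) i‖ + 1 :=
        h4.norm.eventually_lt continuousAt_const (lt_add_one _)
      exact ⟨_, h5, ‖L (F v) i‖ + 1, fun w hw => hw.1.le⟩)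
    have heq : ∀ v ∈ ball (φ x) r, G v = L (F v) i := by
      intro v hv
      have hm := hthin.dense hv isOpen_ball
      have h6 : ContinuousAt (fun v => G v - L (F v) i) v :=
        (hG.continuousOn.continuousAt (isOpen_ball.mem_nhds hv)).sub
          (hci.continuousAt (isOpen_ball.mem_nhds hv))
      have h7 : G v - L (F v) i ∈ closure ({0} : Set ℂ) := by
        refine h6.continuousWithinAt.mem_closure hm ?_
        intro w hw
        simp only [mem_singleton_iff]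
        rw [hGf w hw, sub_self]
      rw [closure_singleton, mem_singleton_iff] at h7
      exact sub_eq_zero.1 h7
    have h8 : DifferentiableAt ℂ G (φ x) := hG.differentiableAt (ball_mem_nhds _ hr)
    refine h8.congr_of_eventuallyEq ?_
    filter_upwards [ball_mem_nhds (φ x) hr] with v hv
    exact (heq v hv).symm
  have h9 : DifferentiableAt ℂ (fun v => L (F v)) (φ x) := differentiableAt_pi.2 hcoord
  have h10 : F = fun v => L.symm (L (F v)) := by
    funext v
    simp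
  show DifferentiableAt ℂ F (φ x)
  rw [h10]
  exact L.symm.differentiableAt.comp _ h9

end thin

end Pool.Agent.Y189.UD
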