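import Mathlib
import Pool.Agent.Y189.UD.Mfd

/-! Extension of maps over thin sets. -/

set_option autoImplicit false
set_option linter.unusedSectionVars false
open Set Metric Filter Topology
open scoped Manifold ContDiff

namespace Pool.Agent.Y189.UD

variable {V W : Type} [NormedAddCommGroup V] [NormedSpace ℂ V] [FiniteDimensional ℂ V]
  [NormedAddCommGroup W] [NormedSpace ℂ W] [FiniteDimensional ℂ W]
  {Y E : Type*} [TopologicalSpace Y] [ChartedSpace W Y] [IsManifold 𝓘(ℂ, W) 1 Y]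
  [TopologicalSpace E] [ChartedSpace V E] [IsManifold 𝓘(ℂ, V) 1 E] [T2Space E]
  [LocallyCompactSpace E]

/-- a holomorphic map off a thin set, with relatively compact image near each point, extends
continuously if the target has a pair of holomorphic functions without common nontrivial germs of
fibres -/
theorem extend_limit {B : Set Y} (hB : Thin W B) {k : Y → E}
    (hk : MDifferentiableOn 𝓘(ℂ, W) 𝓘(ℂ, V) k Bᶜ) {F₁ F₂ : E → ℂ}
    (hF₁ : MDifferentiable 𝓘(ℂ, V) 𝓘(ℂ, ℂ) F₁) (hF₂ : MDifferentiable 𝓘(ℂ, V) 𝓘(ℂ, ℂ) F₂)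
    (hF : ∀ e, ∀ᶠ e' in 𝓝 e, F₁ e' = F₁ e → F₂ e' = F₂ e → e' = e)
    {y : Y} {O : Set Y} (hO : O ∈ 𝓝 y) {K : Set E} (hK : IsCompact K) (hOK : ∀ z ∈ O \ B, k z ∈ K) :
    ∃ e, Tendsto k (𝓝[Bᶜ] y) (𝓝 e) := by
  classical
  have hne : NeBot (𝓝[Bᶜ] y) := mem_closure_iff_nhdsWithin_neBot.1 (hB.dense y)
  have hkc : ContinuousOn k Bᶜ := hk.continuousOn
  have hmem : ∀ᶠ z in 𝓝[Bᶜ] y, z ∈ O \ B := by
    filter_upwards [nhdsWithin_le_nhds hO, self_mem_nhdsWithin] with z h1 h2 using ⟨h1, h2⟩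
  -- limits of the two functions
  have hlim : ∀ F : E → ℂ, MDifferentiable 𝓘(ℂ, V) 𝓘(ℂ, ℂ) F →
      ∃ c : ℂ, Tendsto (fun z => F (k z)) (𝓝[Bᶜ] y) (𝓝 c) := by
    intro F hFd
    obtain ⟨M, hM⟩ := hK.exists_bound_of_continuousOn hFd.continuous.continuousOn
    refine hB.tendsto_of_bdd (f := fun z => F (k z)) ?_ hO (M := M) (fun z hz => hM _ (hOK z hz))
    intro z hz
    exact (hFd (k z)).comp_mdifferentiableWithinAt z (hk z hz)
  obtain ⟨c₁, hc₁⟩ := hlim F₁ hF₁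
  obtain ⟨c₂, hc₂⟩ := hlim F₂ hF₂
  -- a cluster point
  obtain ⟨e, heK, hcl⟩ := hK (f := map k (𝓝[Bᶜ] y)) (by
    rw [le_principal_iff]
    exact hmem.mono fun z hz => hOK z hz)
  have hFe : ∀ (F : E → ℂ) (c : ℂ), Continuous F → Tendsto (fun z => F (k z)) (𝓝[Bᶜ] y) (𝓝 c) →
      F e = c := by
    intro F c hFc hc
    apply eq_of_nhds_neBot
    have h0 : NeBot (𝓝 e ⊓ map k (𝓝[Bᶜ] y)) := hcl
    have h1 : NeBot (map F (𝓝 e ⊓ map k (𝓝[Bᶜ] y))) := h0.map F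
    refine h1.mono (le_inf ?_ ?_)
    · exact (map_mono inf_le_left).trans hFc.continuousAt
    · refine (map_mono inf_le_right).trans ?_
      rw [map_map]
      exact hc
  have hF₁e := hFe F₁ c₁ hF₁.continuous hc₁
  have hF₂e := hFe F₂ c₂ hF₂.continuous hc₂
  refine ⟨e, ?_⟩
  intro O₀ hO₀
  obtain ⟨K₁, hK₁e, hK₁s, hK₁c⟩ := local_compact_nhds (inter_mem hO₀ (hF e))
  -- the boundary
  have hTc : IsCompact (K₁ \ interior K₁) := hK₁c.diff isOpen_interior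
  have hpos : ∀ e' ∈ K₁ \ interior K₁, 0 < ‖F₁ e' - c₁‖ + ‖F₂ e' - c₂‖ := by
    intro e' he'
    by_contra hcon
    have h1 : ‖F₁ e' - c₁‖ = 0 := by
      linarith [norm_nonneg (F₁ e' - c₁), norm_nonneg (F₂ e' - c₂)]
    have h2 : ‖F₂ e' - c₂‖ = 0 := by
      linarith [norm_nonneg (F₁ e' - c₁), norm_nonneg (F₂ e' - c₂)]
    rw [norm_eq_zero, sub_eq_zero] at h1 h2
    have h3 := (hK₁s he'.1).2 (h1.trans hF₁e.symm) (h2.trans hF₂e.symm)
    rw [h3] at he'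
    exact he'.2 (mem_interior_iff_mem_nhds.2 hK₁e)
  obtain ⟨δ, hδ, hδm⟩ : ∃ δ > 0, ∀ e' ∈ K₁ \ interior K₁, δ ≤ ‖F₁ e' - c₁‖ + ‖F₂ e' - c₂‖ := by
    rcases (K₁ \ interior K₁).eq_empty_or_nonempty with h | h
    · exact ⟨1, one_pos, by rw [h]; simp⟩
    · obtain ⟨e', he', hmin⟩ := hTc.exists_isMinOn h (f := fun e' => ‖F₁ e' - c₁‖ + ‖F₂ e' - c₂‖)
        (by
          have := hF₁.continuous
          have := hF₂.continuous
          fun_prop)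
      exact ⟨_, hpos e' he', fun e'' he'' => hmin he''⟩
  have hsmall : ∀ᶠ z in 𝓝[Bᶜ] y, ‖F₁ (k z) - c₁‖ + ‖F₂ (k z) - c₂‖ < δ := by
    have h1 : Tendsto (fun z => ‖F₁ (k z) - c₁‖ + ‖F₂ (k z) - c₂‖) (𝓝[Bᶜ] y) (𝓝 0) := by
      have h2 := ((hc₁.sub_const c₁).norm).add ((hc₂.sub_const c₂).norm)
      simpa using h2
    exact h1.eventually_lt_const hδ
  rw [eventually_nhdsWithin_iff] at hsmall
  obtain ⟨O', hO's, hO'o, hyO', hconn⟩ := hB.exists_conn hsmall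
  have himg : IsPreconnected (k '' (O' \ B)) :=
    hconn.isPreconnected.image k (hkc.mono fun z hz => hz.2)
  have hsub : k '' (O' \ B) ⊆ interior K₁ ∪ K₁ᶜ := by
    rintro _ ⟨z, hz, rfl⟩
    by_cases h1 : k z ∈ K₁
    · left
      by_contra h2
      have h3 := hδm _ ⟨h1, h2⟩
      have h4 := hO's hz.1 hz.2
      linarith
    · right
      exact h1
  have hmeet : (k '' (O' \ B) ∩ interior K₁).Nonempty := by
    have h1 : (𝓝 e ⊓ map k (𝓝[Bᶜ] y)).NeBot := hcl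
    have h2 : interior K₁ ∈ 𝓝 e := interior_mem_nhds.2 hK₁e
    have h3 : k '' (O' \ B) ∈ map k (𝓝[Bᶜ] y) := by
      rw [mem_map]
      filter_upwards [nhdsWithin_le_nhds (hO'o.mem_nhds hyO'), self_mem_nhdsWithin] with z h4 h5
      exact ⟨z, ⟨h4, h5⟩, rfl⟩
    have h4 := h1.nonempty_of_mem (inter_mem_inf h2 h3)
    rwa [inter_comm] at h4
  have hK₁closed : IsClosed K₁ := hK₁c.isClosed
  have hfin : k '' (O' \ B) ⊆ interior K₁ := by
    refine himg.subset_left_of_subset_union isOpen_interior hK₁closed.isOpen_compl ?_ hsub hmeet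
    exact disjoint_compl_right.mono_left interior_subset
  rw [mem_map]
  filter_upwards [nhdsWithin_le_nhds (hO'o.mem_nhds hyO'), self_mem_nhdsWithin] with z h4 h5
  exact (hK₁s (interior_subset (hfin ⟨z, ⟨h4, h5⟩, rfl⟩))).1

theorem extend_map {B : Set Y} (hB : Thin W B) {k : Y → E}
    (hk : MDifferentiableOn 𝓘(ℂ, W) 𝓘(ℂ, V) k Bᶜ) {F₁ F₂ : E → ℂ}
    (hF₁ : MDifferentiable 𝓘(ℂ, V) 𝓘(ℂ, ℂ) F₁) (hF₂ : MDifferentiable 𝓘(ℂ, V) 𝓘(ℂ, ℂ) F₂)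
    (hF : ∀ e, ∀ᶠ e' in 𝓝 e, F₁ e' = F₁ e → F₂ e' = F₂ e → e' = e)
    (hK : ∀ y : Y, ∃ O ∈ 𝓝 y, ∃ K : Set E, IsCompact K ∧ ∀ z ∈ O \ B, k z ∈ K) :
    ∃ g : Y → E, MDifferentiable 𝓘(ℂ, W) 𝓘(ℂ, V) g ∧ ∀ z ∉ B, g z = k z := by
  have hlim : ∀ y, ∃ e, Tendsto k (𝓝[Bᶜ] y) (𝓝 e) := by
    intro y
    obtain ⟨O, hO, K, hK, hOK⟩ := hK y
    exact extend_limit hB hk hF₁ hF₂ hF hO hK hOK
  have hc : Continuous (extendFrom Bᶜ k) := continuous_extendFrom hB.dense hlim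
  have he : ∀ z ∉ B, extendFrom Bᶜ k z = k z := by
    intro z hz
    exact extendFrom_extends hk.continuousOn z hz
  refine ⟨extendFrom Bᶜ k, ?_, he⟩
  refine hB.mdiff hc ?_
  intro z hz
  have h1 : MDifferentiableAt 𝓘(ℂ, W) 𝓘(ℂ, V) k z :=
    (hk z hz).mdifferentiableAt (hB.1.isOpen_compl.mem_nhds hz)
  refine (h1.congr_of_eventuallyEq ?_).mdifferentiableWithinAt
  filter_upwards [hB.1.isOpen_compl.mem_nhds hz] with w hw
  exact he w hw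

end Pool.Agent.Y189.UD
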