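import Mathlib
import Pool.Agent.Y189.UD.Defs
import Pool.Agent.Y189.UD.Ext

/-! Analytic sets, and graphs. -/

set_option autoImplicit false
set_option linter.unusedSectionVars false
open Set Metric Filter Topology
open scoped Manifold ContDiff

namespace Pool.Agent.Y189.UD

section gen

variable {E H X : Type*} [NormedAddCommGroup E] [NormedSpace ℂ E] [TopologicalSpace H]
    [TopologicalSpace X] [ChartedSpace H X] {I : ModelWithCorners ℂ E H}

theorem IsAnalyticSet.isClosed {A : Set X} (hA : IsAnalyticSet I A) : IsClosed A := by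
  rw [← isOpen_compl_iff, isOpen_iff_mem_nhds]
  intro x hx
  obtain ⟨U, hU, hxU, m, f, hf, hfA⟩ := hA x
  have h1 : f x ≠ 0 := by
    intro h
    have : x ∈ A ∩ U := by
      rw [hfA]
      exact ⟨hxU, h⟩
    exact hx this.1
  have h2 : ContinuousAt f x := ((hf x hxU).mdifferentiableAt (hU.mem_nhds hxU)).continuousAt
  have h3 : ∀ᶠ y in 𝓝 x, f y ≠ 0 := h2.eventually_ne h1
  filter_upwards [h3, hU.mem_nhds hxU] with y hy hyU hyA
  have : y ∈ A ∩ U := ⟨hyA, hyU⟩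
  rw [hfA] at this
  exact hy this.2

theorem IsAnalyticSet.inter {A B : Set X} (hA : IsAnalyticSet I A) (hB : IsAnalyticSet I B) :
    IsAnalyticSet I (A ∩ B) := by
  intro x
  obtain ⟨U, hU, hxU, m, f, hf, hfA⟩ := hA x
  obtain ⟨U', hU', hxU', m', f', hf', hfA'⟩ := hB x
  let L : ((Fin m → ℂ) × (Fin m' → ℂ)) ≃L[ℂ] (Fin (m + m') → ℂ) :=
    ContinuousLinearEquiv.ofFinrankEq (by simp)
  refine ⟨U ∩ U', hU.inter hU', ⟨hxU, hxU'⟩, m + m', fun y => L (f y, f' y), ?_, ?_⟩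
  · intro y hy
    have h1 : MDifferentiableWithinAt I 𝓘(ℂ, (Fin m → ℂ) × (Fin m' → ℂ)) (fun y => (f y, f' y))
        (U ∩ U') y :=
      ((hf y hy.1).mono inter_subset_left).prodMk_space ((hf' y hy.2).mono inter_subset_right)
    have h2 : MDifferentiableAt 𝓘(ℂ, (Fin m → ℂ) × (Fin m' → ℂ)) 𝓘(ℂ, Fin (m + m') → ℂ)
        (fun v => L v) (f y, f' y) := L.differentiableAt.mdifferentiableAt
    exact h2.comp_mdifferentiableWithinAt y h1
  · ext y
    constructor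
    · rintro ⟨⟨h1, h2⟩, h3, h4⟩
      refine ⟨⟨h3, h4⟩, ?_⟩
      have e1 : y ∈ A ∩ U := ⟨h1, h3⟩
      have e2 : y ∈ B ∩ U' := ⟨h2, h4⟩
      rw [hfA] at e1
      rw [hfA'] at e2
      have e3 : f y = 0 := e1.2
      have e4 : f' y = 0 := e2.2
      show L (f y, f' y) = 0
      rw [e3, e4]
      exact L.map_zero
    · rintro ⟨⟨h3, h4⟩, h5⟩
      have h6 : (f y, f' y) = 0 := L.injective (by rw [L.map_zero]; exact h5)
      have e3 : f y = 0 := congrArg Prod.fst h6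
      have e4 : f' y = 0 := congrArg Prod.snd h6
      have e1 : y ∈ A ∩ U := by rw [hfA]; exact ⟨h3, e3⟩
      have e2 : y ∈ B ∩ U' := by rw [hfA']; exact ⟨h4, e4⟩
      exact ⟨⟨e1.1, e2.1⟩, h3, h4⟩

end gen

variable {V W : Type} [NormedAddCommGroup V] [NormedSpace ℂ V]
  [NormedAddCommGroup W] [NormedSpace ℂ W]
  {X Y : Type*} [TopologicalSpace X] [ChartedSpace V X] [TopologicalSpace Y] [ChartedSpace W Y]

theorem IsAnalyticSet.thin {A : Set X} (hA : IsAnalyticSet 𝓘(ℂ, V) A) (hi : interior A = ∅) :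
    Thin V A := by
  refine ⟨hA.isClosed, fun x => ?_⟩
  obtain ⟨U, hU, hxU, m, f, hf, hfA⟩ := hA x
  by_contra hcon
  push Not at hcon
  have h1 : ∀ i : Fin m, ∀ᶠ y in 𝓝 x, f y i = 0 := by
    intro i
    refine hcon U hU hxU (fun y => f y i) ?_ ?_
    · intro y hy
      have h2 : MDifferentiableAt 𝓘(ℂ, Fin m → ℂ) 𝓘(ℂ, ℂ)
          (fun v => (ContinuousLinearMap.proj (R := ℂ) (φ := fun _ : Fin m => ℂ) i) v) (f y) :=
        (ContinuousLinearMap.differentiableAt _).mdifferentiableAt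
      exact h2.comp_mdifferentiableWithinAt y (hf y hy)
    · rintro y ⟨hyA, hyU⟩
      have : y ∈ A ∩ U := ⟨hyA, hyU⟩
      rw [hfA] at this
      rw [this.2]
      rfl
  have h2 : ∀ᶠ y in 𝓝 x, ∀ i, f y i = 0 := Filter.eventually_all.2 h1
  have h3 : A ∈ 𝓝 x := by
    filter_upwards [h2, hU.mem_nhds hxU] with y hy hyU
    have : y ∈ A ∩ U := by
      rw [hfA]
      exact ⟨hyU, funext hy⟩
    exact this.1
  have h4 : x ∈ interior A := mem_interior_iff_mem_nhds.2 h3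
  rw [hi] at h4
  exact h4

theorem IsAnalyticSet.preimage_fst {B : Set X} (hB : IsAnalyticSet 𝓘(ℂ, V) B) :
    IsAnalyticSet (𝓘(ℂ, V).prod 𝓘(ℂ, W)) {p : X × Y | p.1 ∈ B} := by
  rintro ⟨x, y⟩
  obtain ⟨U, hU, hxU, m, f, hf, hfA⟩ := hB x
  refine ⟨{p | p.1 ∈ U}, hU.preimage continuous_fst, hxU, m, fun p => f p.1, ?_, ?_⟩
  · intro p hp
    have h1 : MDifferentiableAt 𝓘(ℂ, V) 𝓘(ℂ, Fin m → ℂ) f p.1 :=
      (hf p.1 hp).mdifferentiableAt (hU.mem_nhds hp)
    exact (h1.comp p mdifferentiableAt_fst).mdifferentiableWithinAt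
  · ext p
    constructor
    · rintro ⟨h1, h2⟩
      have : p.1 ∈ B ∩ U := ⟨h1, h2⟩
      rw [hfA] at this
      exact ⟨h2, this.2⟩
    · rintro ⟨h1, h2⟩
      have : p.1 ∈ B ∩ U := by
        rw [hfA]
        exact ⟨h1, h2⟩
      exact ⟨this.1, h1⟩

variable [IsManifold 𝓘(ℂ, V) 1 X] [IsManifold 𝓘(ℂ, W) 1 Y] [T2Space Y] [FiniteDimensional ℂ W]

/-- the graph of a holomorphic map is analytic -/
theorem graph_analytic {g : X → Y} (hg : MDifferentiable 𝓘(ℂ, V) 𝓘(ℂ, W) g) :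
    IsAnalyticSet (𝓘(ℂ, V).prod 𝓘(ℂ, W)) {p : X × Y | p.2 = g p.1} := by
  rintro ⟨x₀, y₀⟩
  have hgc : Continuous g := hg.continuous
  by_cases hx : y₀ = g x₀
  · set e := chartAt W y₀ with he
    set U : Set (X × Y) := {p | g p.1 ∈ e.source ∧ p.2 ∈ e.source} with hU
    have hUo : IsOpen U :=
      (e.open_source.preimage (hgc.comp continuous_fst)).inter
        (e.open_source.preimage continuous_snd)
    have hys : y₀ ∈ e.source := mem_chart_source W y₀
    let m := Module.finrank ℂ W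
    let L : W ≃L[ℂ] (Fin m → ℂ) := ContinuousLinearEquiv.ofFinrankEq (by simp [m])
    refine ⟨U, hUo, ⟨by show g x₀ ∈ e.source; rw [← hx]; exact hys, hys⟩, m,
      fun p => L (e p.2 - e (g p.1)), ?_, ?_⟩
    · intro p hp
      apply MDifferentiableAt.mdifferentiableWithinAt
      have a1 : MDifferentiableAt (𝓘(ℂ, V).prod 𝓘(ℂ, W)) 𝓘(ℂ, W)
          (fun p : X × Y => extChartAt 𝓘(ℂ, W) y₀ p.2) p := by
        have b1 : MDifferentiableAt 𝓘(ℂ, W) 𝓘(ℂ, W) (extChartAt 𝓘(ℂ, W) y₀) p.2 :=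
          mdifferentiableAt_extChartAt hp.2
        exact b1.comp p mdifferentiableAt_snd
      have a2 : MDifferentiableAt (𝓘(ℂ, V).prod 𝓘(ℂ, W)) 𝓘(ℂ, W)
          (fun p : X × Y => extChartAt 𝓘(ℂ, W) y₀ (g p.1)) p := by
        have b1 : MDifferentiableAt 𝓘(ℂ, W) 𝓘(ℂ, W) (extChartAt 𝓘(ℂ, W) y₀) (g p.1) :=
          mdifferentiableAt_extChartAt hp.1
        have b2 : MDifferentiableAt 𝓘(ℂ, V) 𝓘(ℂ, W)
            (fun z => extChartAt 𝓘(ℂ, W) y₀ (g z)) p.1 := b1.comp p.1 (hg p.1)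
        exact b2.comp p mdifferentiableAt_fst
      have a3 := a1.sub a2
      have a4 : MDifferentiableAt 𝓘(ℂ, W) 𝓘(ℂ, Fin m → ℂ) (fun v => L v)
          (extChartAt 𝓘(ℂ, W) y₀ p.2 - extChartAt 𝓘(ℂ, W) y₀ (g p.1)) :=
        (L.differentiableAt).mdifferentiableAt
      exact a4.comp p a3
    · ext ⟨z, x⟩
      constructor
      · rintro ⟨h1, h3⟩
        have h1' : x = g z := h1
        refine ⟨h3, ?_⟩
        show L (e x - e (g z)) = 0
        rw [← h1', sub_self]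
        exact L.map_zero
      · rintro ⟨h1, h2⟩
        have h3 : e x - e (g z) = 0 := L.injective (by rw [L.map_zero]; exact h2)
        have h4 : x = g z := e.injOn h1.2 h1.1 (sub_eq_zero.1 h3)
        exact ⟨h4, h1⟩
  · have hcl : IsClosed {p : X × Y | p.2 = g p.1} :=
      isClosed_eq continuous_snd (hgc.comp continuous_fst)
    refine ⟨{p : X × Y | p.2 = g p.1}ᶜ, hcl.isOpen_compl, hx, 1, fun _ _ => 1, ?_, ?_⟩
    · exact mdifferentiableOn_const
    · ext p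
      constructor
      · rintro ⟨h1, h2⟩
        exact absurd h1 h2
      · rintro ⟨h1, h2⟩
        exfalso
        have := congrFun h2 0
        simp at this

/-- if the map off the thin set of a meromorphic map extends holomorphically then the meromorphic
map is the graph of the extension -/
theorem graph_of_ext [Nonempty X] {Γ : Set (X × Y)}
    (hΓ : IsAnalyticSet (𝓘(ℂ, V).prod 𝓘(ℂ, W)) Γ)
    (hirr : ∀ Γ₁ Γ₂ : Set (X × Y), IsAnalyticSet (𝓘(ℂ, V).prod 𝓘(ℂ, W)) Γ₁ →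
    IsAnalyticSet (𝓘(ℂ, V).prod 𝓘(ℂ, W)) Γ₂ → Γ = Γ₁ ∪ Γ₂ → Γ = Γ₁ ∨ Γ = Γ₂)
    {B : Set X} (hB : IsAnalyticSet 𝓘(ℂ, V) B) (hBi : interior B = ∅) {h : X → Y}
    (hh : ∀ x ∉ B, ∀ y, (x, y) ∈ Γ ↔ y = h x) {g : X → Y}
    (hg : MDifferentiable 𝓘(ℂ, V) 𝓘(ℂ, W) g) (hgh : ∀ x ∉ B, g x = h x) :
    Γ = {p : X × Y | p.2 = g p.1} := by
  have hBt : Thin V B := hB.thin hBi
  have hgc : Continuous g := hg.continuous
  have hsub : {p : X × Y | p.2 = g p.1} ⊆ Γ := by
    rintro ⟨x, y⟩ hxy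
    have hxy' : y = g x := hxy
    subst hxy'
    have h1 : x ∈ closure Bᶜ := hBt.dense x
    have h2 : ContinuousAt (fun x => (x, g x)) x := by fun_prop
    have h3 := h2.continuousWithinAt.mem_closure h1 (t := Γ) (by
      intro z hz
      exact (hh z hz _).2 (hgh z hz))
    rwa [hΓ.isClosed.closure_eq] at h3
  have hun : Γ = {p : X × Y | p.2 = g p.1} ∪ (Γ ∩ {p : X × Y | p.1 ∈ B}) := by
    ext ⟨x, y⟩
    constructor
    · intro hxy
      by_cases hx : x ∈ B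
      · exact Or.inr ⟨hxy, hx⟩
      · left
        show y = g x
        rw [hgh x hx]
        exact (hh x hx y).1 hxy
    · rintro (hxy | hxy)
      · exact hsub hxy
      · exact hxy.1
  rcases hirr _ _ (graph_analytic hg) (hΓ.inter hB.preimage_fst) hun with h1 | h1
  · exact h1
  · exfalso
    obtain ⟨x⟩ := ‹Nonempty X›
    obtain ⟨z, hz⟩ := (hBt.dense).nonempty_iff.2 ⟨x⟩
    have h2 : (z, h z) ∈ Γ := (hh z hz _).2 rfl
    rw [h1] at h2
    exact hz h2.2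

end Pool.Agent.Y189.UD
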