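import Mathlib
import Pool.Agent.Y189.UD.Ret

/-! A holomorphic map takes countably many values on an analytic curve consisting of non-isolated
points of its fibres. -/

set_option autoImplicit false
set_option linter.unusedSectionVars false
open Set Metric Filter Topology

namespace Pool.Agent.Y189.UD

theorem countable_of_isolated {X : Type*} [TopologicalSpace X] [SecondCountableTopology X]
    {s : Set X} (h : ∀ x ∈ s, ∀ᶠ y in 𝓝[≠] x, y ∉ s) : s.Countable := by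
  have hd : DiscreteTopology s := by
    rw [discreteTopology_subtype_iff]
    intro x hx
    rw [inf_principal_eq_bot]
    exact h x hx
  exact TopologicalSpace.separableSpace_iff_countable.1 inferInstance

theorem zeros_countable {f : ℂ → ℂ} {r : ℝ} (hf : DifferentiableOn ℂ f (ball 0 r)) {y₁ : ℂ}
    (hy₁ : y₁ ∈ ball (0 : ℂ) r) (h1 : f y₁ ≠ 0) : {y | y ∈ ball (0 : ℂ) r ∧ f y = 0}.Countable := by
  have han := hf.analyticOnNhd isOpen_ball
  apply countable_of_isolated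
  rintro y ⟨hy, -⟩
  rcases (han y hy).eventually_eq_zero_or_eventually_ne_zero with h | h
  · exact absurd (han.eqOn_zero_of_preconnected_of_eventuallyEq_zero
      (convex_ball (0 : ℂ) r).isPreconnected hy h hy₁) h1
  · exact h.mono fun z hz hz2 => hz hz2.2

/-- iterated derivatives in the second variable -/
noncomputable def dK (J : ℂ × ℂ → ℂ) : ℕ → ℂ × ℂ → ℂ
  | 0 => J
  | n + 1 => fun z => fderiv ℂ (dK J n) z (0, 1)

theorem dK_diff {J : ℂ × ℂ → ℂ} {O : Set (ℂ × ℂ)} (hO : IsOpen O) (hJ : DifferentiableOn ℂ J O)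
    (n : ℕ) : DifferentiableOn ℂ (dK J n) O := by
  induction n with
  | zero => exact hJ
  | succ n ih =>
    exact Pool.Agent.Helper417.Mer.Hartogs673.differentiableOn_fderiv_apply hO ih (0, 1)

theorem dK_deriv {J : ℂ × ℂ → ℂ} {O : Set (ℂ × ℂ)} (hO : IsOpen O) (hJ : DifferentiableOn ℂ J O)
    (n : ℕ) {x y : ℂ} (h : (x, y) ∈ O) : HasDerivAt (fun y => dK J n (x, y)) (dK J (n + 1) (x, y)) y := by
  have h1 : HasFDerivAt (dK J n) (fderiv ℂ (dK J n) (x, y)) (x, y) :=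
    ((dK_diff hO hJ n).differentiableAt (hO.mem_nhds h)).hasFDerivAt
  have h2 : HasDerivAt (fun y : ℂ => (x, y)) ((0 : ℂ), (1 : ℂ)) y :=
    (hasDerivAt_const y x).prodMk (hasDerivAt_id y)
  exact h1.comp_hasDerivAt y h2

theorem dK_iter {J : ℂ × ℂ → ℂ} {O : Set (ℂ × ℂ)} (hO : IsOpen O) (hJ : DifferentiableOn ℂ J O)
    (n : ℕ) {x y : ℂ} (h : (x, y) ∈ O) : iteratedDeriv n (fun y => J (x, y)) y = dK J n (x, y) := by
  induction n generalizing y with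
  | zero => simp [dK]
  | succ n ih =>
    rw [iteratedDeriv_succ]
    have h1 : iteratedDeriv n (fun y => J (x, y)) =ᶠ[𝓝 y] fun y => dK J n (x, y) := by
      have h2 : {y' : ℂ | (x, y') ∈ O} ∈ 𝓝 y :=
        (hO.preimage (by fun_prop : Continuous fun y' : ℂ => (x, y'))).mem_nhds h
      filter_upwards [h2] with y' hy'
      exact ih hy'
    rw [h1.deriv_eq]
    exact (dK_deriv hO hJ n h).deriv

variable {V : Type} [NormedAddCommGroup V] [NormedSpace ℂ V] [FiniteDimensional ℂ V]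

/-- the local statement in coordinates -/
theorem local_countable_aux {G : ℂ × ℂ → V} {J : ℂ × ℂ → ℂ} {O C : Set (ℂ × ℂ)} (hO : IsOpen O)
    (h0 : ((0 : ℂ), (0 : ℂ)) ∈ O) (hG : DifferentiableOn ℂ G O) (hJ : DifferentiableOn ℂ J O)
    (hJ0 : ¬ ∀ᶠ y in 𝓝 (0 : ℂ), J (0, y) = 0) (hC : ∀ z ∈ C ∩ O, J z = 0)
    (hC1 : ∀ z ∈ C ∩ O, ∀ z' ∈ O, G z' = G z → z' ∈ C)
    (hC2 : ∀ z ∈ C ∩ O, ∃ᶠ z' in 𝓝[≠] z, G z' = G z) :
    ∃ O₁ ∈ 𝓝 ((0 : ℂ), (0 : ℂ)), (G '' (C ∩ O₁)).Countable := by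
  classical
  obtain ⟨r, hr, hrO⟩ := Metric.mem_nhds_iff.1 (hO.mem_nhds h0)
  have hmemO : ∀ x y : ℂ, x ∈ ball (0 : ℂ) r → y ∈ ball (0 : ℂ) r → (x, y) ∈ O := by
    intro x y hx hy
    apply hrO
    rw [← ball_prod_same]
    exact ⟨hx, hy⟩
  obtain ⟨y₁, hy₁, hJy₁⟩ : ∃ y₁ ∈ ball (0 : ℂ) r, J (0, y₁) ≠ 0 := by
    by_contra hcon
    push Not at hcon
    apply hJ0
    filter_upwards [ball_mem_nhds (0 : ℂ) hr] with y hy using hcon y hy
  have hJc : ContinuousAt (fun x : ℂ => J (x, y₁)) 0 := by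
    have h1 : ContinuousAt J (0, y₁) :=
      (hJ.differentiableAt (hO.mem_nhds (hmemO 0 y₁ (mem_ball_self hr) hy₁))).continuousAt
    exact ContinuousAt.comp (f := fun x : ℂ => (x, y₁)) h1 (by fun_prop)
  obtain ⟨ρ, hρ, hρJ⟩ : ∃ ρ > 0, ∀ x ∈ ball (0 : ℂ) ρ, J (x, y₁) ≠ 0 ∧ x ∈ ball (0 : ℂ) r := by
    have h1 : ∀ᶠ x in 𝓝 (0 : ℂ), J (x, y₁) ≠ 0 := hJc.eventually_ne hJy₁
    exact Metric.eventually_nhds_iff_ball.1 (h1.and (ball_mem_nhds (0 : ℂ) hr))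
  obtain ⟨Q, hQc, hQd⟩ := TopologicalSpace.exists_countable_dense ℂ
  set Δ : Set (ℂ × ℂ) := ball (0 : ℂ) ρ ×ˢ ball (0 : ℂ) r with hΔ
  have hΔo : IsOpen Δ := isOpen_ball.prod isOpen_ball
  have hΔO : Δ ⊆ O := fun z hz => hmemO z.1 z.2 (hρJ z.1 hz.1).2 hz.2
  -- slices
  have hslice : ∀ x ∈ ball (0 : ℂ) ρ, DifferentiableOn ℂ (fun y => J (x, y)) (ball 0 r) := by
    intro x hx y hy
    have := (dK_deriv hO hJ 0 (hmemO x y (hρJ x hx).2 hy)).differentiableAt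
    exact this.differentiableWithinAt
  set S : Set V := ⋃ q ∈ Q ∩ ball (0 : ℂ) ρ,
    (fun y => G (q, y)) '' {y | y ∈ ball (0 : ℂ) r ∧ J (q, y) = 0} with hS
  have hSc : S.Countable := by
    refine (hQc.mono inter_subset_left).biUnion fun q hq => ?_
    exact (zeros_countable (hslice q hq.2) hy₁ (hρJ q hq.2).1).image _
  refine ⟨Δ, hΔo.mem_nhds ⟨mem_ball_self hρ, mem_ball_self hr⟩, hSc.mono ?_⟩
  rintro _ ⟨z, ⟨hzC, hzΔ⟩, rfl⟩
  set e := G z with he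
  -- the fibre
  have hZC : ∀ z' ∈ Δ, G z' = e → z' ∈ C := fun z' hz' h => hC1 z ⟨hzC, hΔO hzΔ⟩ z' (hΔO hz') h
  have hZJ : ∀ z' ∈ Δ, G z' = e → J z' = 0 := fun z' hz' h => hC z' ⟨hZC z' hz' h, hΔO hz'⟩
  have hex : ∃ n : ℕ, ∃ z' ∈ Δ, G z' = e ∧ dK J n z' ≠ 0 := by
    by_contra hcon
    push Not at hcon
    have h1 : ∀ n, dK J n z = 0 := fun n => hcon n z hzΔ he.symm
    have h2 := hslice z.1 hzΔ.1
    obtain ⟨r', hr', hr's⟩ := Metric.mem_nhds_iff.1 (isOpen_ball.mem_nhds hzΔ.2)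
    have h3 : ∀ y ∈ ball z.2 r', J (z.1, y) = 0 := by
      intro y hy
      have h4 := Complex.hasSum_taylorSeries_on_ball (h2.mono hr's) hy
      have h5 : ∀ n : ℕ, (n.factorial : ℂ)⁻¹ • (y - z.2) ^ n •
          iteratedDeriv n (fun y => J (z.1, y)) z.2 = 0 := by
        intro n
        rw [dK_iter hO hJ n (hΔO hzΔ), h1 n]
        simp
      simp only [h5] at h4
      exact h4.unique hasSum_zero
    have h4 : (fun y => J (z.1, y)) =ᶠ[𝓝 z.2] 0 := by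
      filter_upwards [ball_mem_nhds z.2 hr'] with y hy using h3 y hy
    exact (hρJ z.1 hzΔ.1).1 ((h2.analyticOnNhd isOpen_ball).eqOn_zero_of_preconnected_of_eventuallyEq_zero
      (convex_ball (0 : ℂ) r).isPreconnected hzΔ.2 h4 hy₁)
  obtain ⟨z', hz'Δ, hz'e, hz'n⟩ := Nat.find_spec hex
  have hn0 : Nat.find hex ≠ 0 := by
    intro h
    rw [h] at hz'n
    exact hz'n (hZJ z' hz'Δ hz'e)
  obtain ⟨m, hm⟩ := Nat.exists_eq_succ_of_ne_zero hn0
  rw [hm] at hz'n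
  have hKm : ∀ w ∈ Δ, G w = e → dK J m w = 0 := by
    intro w hw hwe
    by_contra hne
    exact Nat.find_min hex (by omega) ⟨w, hw, hwe, hne⟩
  -- implicit function theorem
  set Φ : ℂ × ℂ → ℂ × ℂ := fun w => (w.1, dK J m w) with hΦ
  have hz'O : z' ∈ O := hΔO hz'Δ
  have hKd := dK_diff hO hJ m
  have hΦd : DifferentiableOn ℂ Φ O := differentiableOn_fst.prodMk hKd
  have hΦc : ContDiffAt ℂ 1 Φ z' := by
    have := Pool.Agent.Helper417.Mer.Hartogs673.contDiffOn_of_differentiableOn hO hΦd 1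
    exact (this.contDiffAt (hO.mem_nhds hz'O))
  set K' := fderiv ℂ (dK J m) z' with hK'
  set L : (ℂ × ℂ) →L[ℂ] (ℂ × ℂ) := (ContinuousLinearMap.fst ℂ ℂ ℂ).prod K' with hL
  have hΦ' : HasFDerivAt Φ L z' :=
    hasFDerivAt_fst.prodMk (hKd.differentiableAt (hO.mem_nhds hz'O)).hasFDerivAt
  have hLinj : Function.Injective L := by
    rw [injective_iff_map_eq_zero]
    rintro ⟨a, b⟩ hab
    have h1 : a = 0 := congrArg Prod.fst hab
    have h2 : K' (a, b) = 0 := congrArg Prod.snd hab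
    rw [h1] at h2
    have h3 : ((0 : ℂ), b) = b • ((0 : ℂ), (1 : ℂ)) := by simp
    rw [h3, map_smul, smul_eq_mul] at h2
    have h4 : K' (0, 1) ≠ 0 := hz'n
    have h5 : b = 0 := (mul_eq_zero.1 h2).resolve_right h4
    rw [h1, h5]
    rfl
  let Le : (ℂ × ℂ) ≃L[ℂ] (ℂ × ℂ) :=
    (LinearEquiv.ofInjectiveEndo (L : (ℂ × ℂ) →ₗ[ℂ] (ℂ × ℂ)) hLinj).toContinuousLinearEquiv
  have hLe : (Le : (ℂ × ℂ) →L[ℂ] (ℂ × ℂ)) = L := by
    ext <;> rfl
  have hΦs : HasStrictFDerivAt Φ (Le : (ℂ × ℂ) →L[ℂ] (ℂ × ℂ)) z' := by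
    rw [hLe]
    exact hΦc.hasStrictFDerivAt' hΦ' (by norm_num)
  set ε := hΦs.toOpenPartialHomeomorph Φ with hε
  have hεc : (ε : ℂ × ℂ → ℂ × ℂ) = Φ := rfl
  have hz's : z' ∈ ε.source := hΦs.mem_toOpenPartialHomeomorph_source
  have hinv : ContDiffAt ℂ 1 ε.symm (Φ z') := by
    have hΦ'' : HasFDerivAt Φ (Le : (ℂ × ℂ) →L[ℂ] (ℂ × ℂ)) z' := by
      rw [hLe]
      exact hΦ'
    exact hΦc.to_localInverse hΦ'' (by norm_num)
  have hΦz' : Φ z' = (z'.1, 0) := by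
    simp only [hΦ, hKm z' hz'Δ hz'e]
  -- the analytic function along the graph
  set ζ : ℂ → V := fun x => G (ε.symm (x, 0)) - e with hζ
  have hεz' : ε.symm (z'.1, 0) = z' := by
    rw [← hΦz', ← hεc]
    exact ε.left_inv hz's
  have hpair : ContinuousAt (fun x : ℂ => (x, (0 : ℂ))) z'.1 := by fun_prop
  have hpairt : Tendsto (fun x : ℂ => (x, (0 : ℂ))) (𝓝 z'.1) (𝓝 (Φ z')) := by
    have := hpair.tendsto
    rwa [← hΦz'] at this
  have hsymt : Tendsto (fun x : ℂ => ε.symm (x, 0)) (𝓝 z'.1) (𝓝 z') := by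
    have h1 : Tendsto ε.symm (𝓝 (Φ z')) (𝓝 z') := by
      have := hinv.continuousAt.tendsto
      rwa [hΦz', hεz', ← hΦz'] at this
    exact h1.comp hpairt
  have hζan : AnalyticAt ℂ ζ z'.1 := by
    rw [Complex.analyticAt_iff_eventually_differentiableAt]
    have h1 : ∀ᶠ w in 𝓝 (Φ z'), DifferentiableAt ℂ ε.symm w :=
      (hinv.eventually (by norm_num)).mono fun w hw => hw.differentiableAt (by norm_num)
    have h2 := hpairt.eventually h1
    have h3 := hsymt.eventually (hO.mem_nhds hz'O)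
    filter_upwards [h2, h3] with x hx1 hx2
    have h4 : DifferentiableAt ℂ (fun x : ℂ => ε.symm (x, 0)) x :=
      DifferentiableAt.comp (f := fun x : ℂ => (x, (0 : ℂ))) x hx1 (by fun_prop)
    have h5 : DifferentiableAt ℂ G (ε.symm (x, 0)) := hG.differentiableAt (hO.mem_nhds hx2)
    exact (DifferentiableAt.comp (f := fun x : ℂ => ε.symm (x, 0)) x h5 h4).sub_const _
  have hfreq : ∃ᶠ x in 𝓝[≠] z'.1, ζ x = 0 := by
    by_contra hcon
    rw [not_frequently, eventually_nhdsWithin_iff] at hcon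
    have h1 : ∀ᶠ w in 𝓝 z', w.1 ∈ ({z'.1}ᶜ : Set ℂ) → ¬ ζ w.1 = 0 :=
      (continuousAt_fst.tendsto).eventually hcon
    have h2 := hC2 z' ⟨hZC z' hz'Δ hz'e, hz'O⟩
    apply h2
    rw [eventually_nhdsWithin_iff]
    filter_upwards [h1, hΔo.mem_nhds hz'Δ, ε.open_source.mem_nhds hz's] with w hw1 hw2 hw3 hwne hwG
    have hwe : G w = e := hwG.trans hz'e
    have h3 : Φ w = (w.1, 0) := by
      simp only [hΦ, hKm w hw2 hwe]
    have h4 : ε.symm (w.1, 0) = w := by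
      rw [← h3, ← hεc]
      exact ε.left_inv hw3
    refine hw1 ?_ ?_
    · intro h5
      apply hwne
      have h6 : Φ w = Φ z' := by
        rw [h3, hΦz', mem_singleton_iff.1 h5]
      exact ε.injOn hw3 hz's h6
    · simp only [hζ, h4, hwe, sub_self]
  have hev : ∀ᶠ x in 𝓝 z'.1, ζ x = 0 := hζan.frequently_zero_iff_eventually_zero.1 hfreq
  -- choose a rational point
  have hev2 : ∀ᶠ x in 𝓝 z'.1, ζ x = 0 ∧ ε.symm (x, 0) ∈ Δ ∧ ((x, (0 : ℂ)) ∈ ε.target) := by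
    refine hev.and ((hsymt.eventually (hΔo.mem_nhds hz'Δ)).and ?_)
    refine hpairt.eventually (ε.open_target.mem_nhds ?_)
    exact ε.map_source hz's
  obtain ⟨q, hqQ, hq⟩ := hQd.inter_nhds_nonempty hev2
  obtain ⟨hq1, hq2, hq3⟩ := hq
  have h1 : Φ (ε.symm (q, 0)) = (q, 0) := ε.right_inv hq3
  have h2 : (ε.symm (q, 0)).1 = q := congrArg Prod.fst h1
  have h3 : G (ε.symm (q, 0)) = e := sub_eq_zero.1 hq1
  have h4 := hZJ _ hq2 h3
  have h5 : (q, (ε.symm (q, 0)).2) = ε.symm (q, 0) := Prod.ext h2.symm rfl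
  rw [hS]
  refine mem_biUnion (x := q) ⟨hqQ, ?_⟩ ⟨(ε.symm (q, 0)).2, ⟨hq2.2, ?_⟩, ?_⟩
  · rw [← h2]
    exact hq2.1
  · show J (q, (ε.symm (q, 0)).2) = 0
    rw [h5]
    exact h4
  · show G (q, (ε.symm (q, 0)).2) = e
    rw [h5]
    exact h3

end Pool.Agent.Y189.UD
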