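import Mathlib
import Pool.Agent.Helper417.Mer.Gen
import Pool.Agent.Y189.UD.Ana
import Pool.Agent.Y189.UD.Count

/-! Proper modifications of surfaces: local statements. -/

set_option autoImplicit false
set_option linter.unusedSectionVars false
open Set Metric Filter Topology
open scoped Manifold ContDiff

namespace Pool.Agent.Y189.UD

section vec

variable {V F : Type} [NormedAddCommGroup V] [NormedSpace ℂ V] [FiniteDimensional ℂ V]
  [NormedAddCommGroup F] [NormedSpace ℂ F] [FiniteDimensional ℂ F]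

/-- Riemann's extension theorem for vector valued maps. -/
theorem riemann_ext_vec {W A : Set V} (hW : IsOpen W) (hA : ThinIn W A) (hcl : IsOpen (W \ A))
    {f : V → F} (hf : DifferentiableOn ℂ f (W \ A))
    {M : ℝ} (hb : ∀ y ∈ W \ A, ‖f y‖ ≤ M) :
    ∃ G : V → F, DifferentiableOn ℂ G W ∧ ∀ z ∈ W \ A, G z = f z := by
  let m := Module.finrank ℂ F
  let L : F ≃L[ℂ] (Fin m → ℂ) := ContinuousLinearEquiv.ofFinrankEq (by simp [m])
  have hi : ∀ i : Fin m, ∃ G : V → ℂ, DifferentiableOn ℂ G W ∧ ∀ z ∈ W \ A, G z = L (f z) i := by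
    intro i
    refine riemann_ext hW hA hcl ?_ ?_
    · intro v hv
      have h3 : DifferentiableWithinAt ℂ (fun v => L (f v)) (W \ A) v :=
        L.differentiableAt.comp_differentiableWithinAt v (hf v hv)
      exact (differentiableWithinAt_pi.1 h3) i
    · intro x hx
      refine ⟨univ, univ_mem, ‖(L : F →L[ℂ] (Fin m → ℂ))‖ * M, fun y hy => ?_⟩
      have h1 : ‖L (f y) i‖ ≤ ‖L (f y)‖ := norm_le_pi_norm _ i
      have h2 : ‖L (f y)‖ ≤ ‖(L : F →L[ℂ] (Fin m → ℂ))‖ * ‖f y‖ :=
        (L : F →L[ℂ] (Fin m → ℂ)).le_opNorm _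
      have h3 := hb y hy.2
      have h4 := norm_nonneg (L : F →L[ℂ] (Fin m → ℂ))
      calc _ ≤ _ := h1
        _ ≤ _ := h2
        _ ≤ _ := mul_le_mul_of_nonneg_left h3 h4
  choose G hG hGf using hi
  refine ⟨fun z => L.symm (fun i => G i z), ?_, ?_⟩
  · intro z hz
    have h1 : DifferentiableWithinAt ℂ (fun z => fun i => G i z) W z :=
      differentiableWithinAt_pi.2 fun i => hG i z hz
    exact L.symm.differentiableAt.comp_differentiableWithinAt z h1
  · intro z hz
    have h1 : (fun i => G i z) = L (f z) := funext fun i => hGf i z hz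
    beta_reduce
    rw [h1, L.symm_apply_apply]

end vec

section two

variable {W V : Type} [NormedAddCommGroup W] [NormedSpace ℂ W] [FiniteDimensional ℂ W]
  [NormedAddCommGroup V] [NormedSpace ℂ V] [FiniteDimensional ℂ V]

/-- The local countability statement. -/
theorem local_countable (hW : Module.finrank ℂ W = 2) {G : W → V} {J : W → ℂ} {O C : Set W}
    (hO : IsOpen O) {z₀ : W} (h0 : z₀ ∈ O) (hG : DifferentiableOn ℂ G O)
    (hJ : DifferentiableOn ℂ J O)
    (hJ0 : ¬ ∀ᶠ z in 𝓝 z₀, J z = 0) (hC : ∀ z ∈ C ∩ O, J z = 0)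
    (hC1 : ∀ z ∈ C ∩ O, ∀ z' ∈ O, G z' = G z → z' ∈ C)
    (hC2 : ∀ z ∈ C ∩ O, ∃ᶠ z' in 𝓝[≠] z, G z' = G z) :
    ∃ O₁ ∈ 𝓝 z₀, (G '' (C ∩ O₁)).Countable := by
  -- a nonzero direction in which `J` does not vanish identically
  obtain ⟨v, hv0, hv⟩ : ∃ v : W, v ≠ 0 ∧ ¬ ∀ᶠ t in 𝓝 (0 : ℂ), J (z₀ + t • v) = 0 := by
    by_cases hz : J z₀ = 0
    · obtain ⟨R, hR, hRO⟩ := Metric.mem_nhds_iff.1 (hO.mem_nhds h0)
      obtain ⟨v, hv⟩ : ∃ v : W, z₀ + v ∈ ball z₀ R ∧ J (z₀ + v) ≠ 0 := by
        by_contra hcon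
        push Not at hcon
        apply hJ0
        filter_upwards [ball_mem_nhds z₀ hR] with y hy
        have := hcon (y - z₀) (by simpa using hy)
        simpa using this
      refine ⟨v, ?_, ?_⟩
      · rintro rfl
        simp [hz] at hv
      · intro h
        obtain ⟨h1, h2, h3⟩ := Pool.Agent.Helper417.Mer.ThinAux.line_facts z₀ R z₀ (z₀ + v)
          (hJ.mono hRO)
        simp only [add_sub_cancel_left] at h1 h2 h3
        have h4 := h3.analyticOnNhd h1
        have m0 : (0 : ℂ) ∈ {t : ℂ | z₀ + t • v ∈ ball z₀ R} := by simp [hR]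
        have m1 : (1 : ℂ) ∈ {t : ℂ | z₀ + t • v ∈ ball z₀ R} := by simpa using hv.1
        have h5 := h4.eqOn_zero_of_preconnected_of_eventuallyEq_zero h2 m0 h m1
        simp only [one_smul, Pi.zero_apply] at h5
        exact hv.2 h5
    · have hnt : Nontrivial W := by
        apply Module.nontrivial_of_finrank_pos (R := ℂ)
        omega
      obtain ⟨v, hv⟩ := exists_ne (0 : W)
      refine ⟨v, hv, fun h => ?_⟩
      have := h.self_of_nhds
      simp at this
      exact hz this
  obtain ⟨u, hu⟩ := exists_linearIndependent_pair_of_one_lt_finrank (R := ℂ) (M := W)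
    (by omega) hv0
  rw [LinearIndependent.pair_iff] at hu
  let P0 : (ℂ × ℂ) →ₗ[ℂ] W :=
    (LinearMap.toSpanSingleton ℂ W u).coprod (LinearMap.toSpanSingleton ℂ W v)
  have hP0 : ∀ p : ℂ × ℂ, P0 p = p.1 • u + p.2 • v := fun p => rfl
  have hinj : Function.Injective P0 := by
    rw [injective_iff_map_eq_zero]
    rintro ⟨a, b⟩ hab
    rw [hP0, add_comm] at hab
    obtain ⟨h1, h2⟩ := hu b a hab
    rw [h1, h2]
    rfl
  let P1 : (ℂ × ℂ) ≃ₗ[ℂ] W := LinearEquiv.ofInjectiveOfFinrankEq P0 hinj (by simp [hW])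
  let P : (ℂ × ℂ) ≃L[ℂ] W := P1.toContinuousLinearEquiv
  have hP : ∀ p : ℂ × ℂ, P p = p.1 • u + p.2 • v := fun p => rfl
  set T : ℂ × ℂ → W := fun p => z₀ + P p with hT
  have hTc : Continuous T := by
    have := P.continuous
    fun_prop
  have hTd : Differentiable ℂ T := by
    intro p
    exact (differentiableAt_const z₀).add P.differentiableAt
  have hT0 : T (0, 0) = z₀ := by
    simp only [hT, hP]
    simp
  have hTinj : Function.Injective T := fun p q h => P.injective (add_left_cancel h)
  have hTs : ∀ z, T (P.symm (z - z₀)) = z := by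
    intro z
    simp [hT]
  obtain ⟨O₁, hO₁, hc⟩ := local_countable_aux (G := fun p => G (T p)) (J := fun p => J (T p))
    (O := T ⁻¹' O) (C := T ⁻¹' C) (hO.preimage hTc) (by show T (0, 0) ∈ O; rw [hT0]; exact h0)
    (by
      intro p hp
      exact ((hG.differentiableAt (hO.mem_nhds hp)).comp p (hTd p)).differentiableWithinAt)
    (by
      intro p hp
      exact ((hJ.differentiableAt (hO.mem_nhds hp)).comp p (hTd p)).differentiableWithinAt)
    (by
      intro h
      apply hv
      filter_upwards [h] with t ht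
      have : T (0, t) = z₀ + t • v := by
        simp only [hT, hP]
        simp
      rwa [this] at ht)
    (fun p hp => hC _ hp)
    (fun p hp p' hp' h => hC1 _ hp _ hp' h)
    (by
      intro p hp
      have h1 := hC2 _ hp
      intro hcon
      apply h1
      rw [eventually_nhdsWithin_iff] at hcon ⊢
      have h2 : Tendsto (fun z => P.symm (z - z₀)) (𝓝 (T p)) (𝓝 p) := by
        have h3 : ContinuousAt (fun z => P.symm (z - z₀)) (T p) := by
          have := P.symm.continuous
          fun_prop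
        have h4 : P.symm (T p - z₀) = p := by simp [hT]
        have := h3.tendsto
        rwa [h4] at this
      filter_upwards [h2.eventually hcon] with z hz hne hGz
      refine hz ?_ ?_
      · intro h5
        apply hne
        have h6 : P.symm (z - z₀) = p := h5
        show z = T p
        rw [← h6, hTs]
      · rw [hTs]
        exact hGz)
  refine ⟨(fun z => P.symm (z - z₀)) ⁻¹' O₁, ?_, ?_⟩
  · have h3 : ContinuousAt (fun z => P.symm (z - z₀)) z₀ := by
      have := P.symm.continuous
      fun_prop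
    apply h3.preimage_mem_nhds
    have h4 : P.symm (z₀ - z₀) = ((0 : ℂ), (0 : ℂ)) := by
      rw [sub_self, map_zero]
      rfl
    rw [h4]
    exact hO₁
  · refine hc.mono ?_
    rintro _ ⟨z, ⟨hz1, hz2⟩, rfl⟩
    refine ⟨P.symm (z - z₀), ⟨?_, hz2⟩, ?_⟩
    · show T (P.symm (z - z₀)) ∈ C
      rw [hTs]
      exact hz1
    · show G (T (P.symm (z - z₀))) = G z
      rw [hTs]

/-- the Jacobian determinant -/
theorem exists_jac (hW : Module.finrank ℂ W = 2) (hV : Module.finrank ℂ V = 2) {G : W → V}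
    {O : Set W} (hO : IsOpen O) (hG : DifferentiableOn ℂ G O) :
    ∃ J : W → ℂ, DifferentiableOn ℂ J O ∧
      ∀ z ∈ O, (J z ≠ 0 ↔ Function.Injective (fderiv ℂ G z)) := by
  let P : (ℂ × ℂ) ≃L[ℂ] W := ContinuousLinearEquiv.ofFinrankEq (by simp [hW])
  let Q : V ≃L[ℂ] (ℂ × ℂ) := ContinuousLinearEquiv.ofFinrankEq (by simp [hV])
  have hd : ∀ w : W, DifferentiableOn ℂ (fun z => Q (fderiv ℂ G z w)) O := by
    intro w z hz
    have h1 := Pool.Agent.Helper417.Mer.Hartogs673.differentiableOn_fderiv_apply hO hG w z hz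
    exact Q.differentiableAt.comp_differentiableWithinAt z h1
  refine ⟨fun z => (Q (fderiv ℂ G z (P (1, 0)))).1 * (Q (fderiv ℂ G z (P (0, 1)))).2 -
    (Q (fderiv ℂ G z (P (1, 0)))).2 * (Q (fderiv ℂ G z (P (0, 1)))).1, ?_, ?_⟩
  · have h1 := hd (P (1, 0))
    have h2 := hd (P (0, 1))
    exact (h1.fst.mul h2.snd).sub (h1.snd.mul h2.fst)
  · intro z hz
    set a := (Q (fderiv ℂ G z (P (1, 0)))).1 with ha
    set b := (Q (fderiv ℂ G z (P (0, 1)))).1 with hb
    set c := (Q (fderiv ℂ G z (P (1, 0)))).2 with hc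
    set d := (Q (fderiv ℂ G z (P (0, 1)))).2 with hd'
    have hform : ∀ x y : ℂ, Q (fderiv ℂ G z (P (x, y))) = (x * a + y * b, x * c + y * d) := by
      intro x y
      have h1 : ((x, y) : ℂ × ℂ) = x • ((1 : ℂ), (0 : ℂ)) + y • ((0 : ℂ), (1 : ℂ)) := by
        simp
      rw [h1]
      simp only [map_add, map_smul]
      rfl
    constructor
    · intro hJ
      have h1 : Function.Injective (fun p : ℂ × ℂ => Q (fderiv ℂ G z (P p))) := by
        have h2 : Function.Injective ((Q : V →L[ℂ] (ℂ × ℂ)).comp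
            ((fderiv ℂ G z).comp (P : (ℂ × ℂ) →L[ℂ] W))) := by
          rw [injective_iff_map_eq_zero]
          rintro ⟨x, y⟩ hxy
          have h3 : Q (fderiv ℂ G z (P (x, y))) = 0 := hxy
          rw [hform] at h3
          have h4 : x * a + y * b = 0 := congrArg Prod.fst h3
          have h5 : x * c + y * d = 0 := congrArg Prod.snd h3
          have h6 : x * (a * d - c * b) = 0 := by linear_combination d * h4 - b * h5
          have h7 : y * (a * d - c * b) = 0 := by linear_combination a * h5 - c * h4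
          have h8 : x = 0 := (mul_eq_zero.1 h6).resolve_right hJ
          have h9 : y = 0 := (mul_eq_zero.1 h7).resolve_right hJ
          rw [h8, h9]
          rfl
        exact h2
      intro w w' hww
      have h2 : (fun p : ℂ × ℂ => Q (fderiv ℂ G z (P p))) (P.symm w) =
          (fun p : ℂ × ℂ => Q (fderiv ℂ G z (P p))) (P.symm w') := by
        simp [hww]
      exact P.symm.injective (h1 h2)
    · intro hinj hJ
      have h1 : ∀ x y : ℂ, x * a + y * b = 0 → x * c + y * d = 0 → x = 0 ∧ y = 0 := by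
        intro x y h2 h3
        have h4 : Q (fderiv ℂ G z (P (x, y))) = 0 := by
          rw [hform, h2, h3]
          rfl
        have h5 : fderiv ℂ G z (P (x, y)) = 0 := by
          have := Q.injective (h4.trans Q.map_zero.symm)
          exact this
        have h6 : P (x, y) = 0 := hinj (by rw [h5, map_zero])
        have h7 : ((x, y) : ℂ × ℂ) = 0 := P.injective (by rw [h6, map_zero])
        exact ⟨congrArg Prod.fst h7, congrArg Prod.snd h7⟩
      have h2 := h1 b (-a) (by ring) (by linear_combination -hJ)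
      have h3 := h1 d (-c) (by linear_combination hJ) (by ring)
      have h4 := h1 1 0 (by rw [neg_eq_zero.1 h2.2]; ring) (by rw [neg_eq_zero.1 h3.2]; ring)
      exact one_ne_zero h4.1

end two

end Pool.Agent.Y189.UD
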