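import Mathlib
import Pool.Agent.Y189.UD.Mod1

/-! Proper modifications of surfaces. -/

set_option autoImplicit false
set_option linter.unusedSectionVars false
open Set Metric Filter Topology
open scoped Manifold ContDiff

namespace Pool.Agent.Y189.UD

variable {V W : Type} [NormedAddCommGroup V] [NormedSpace ℂ V] [FiniteDimensional ℂ V]
  [NormedAddCommGroup W] [NormedSpace ℂ W] [FiniteDimensional ℂ W]
  {Y E : Type*} [TopologicalSpace Y] [ChartedSpace W Y] [IsManifold 𝓘(ℂ, W) 1 Y]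
  [TopologicalSpace E] [ChartedSpace V E] [IsManifold 𝓘(ℂ, V) 1 E]

/-- there is a local continuous section of `g` through `y` -/
def Reg (g : Y → E) (y : Y) : Prop :=
  ∃ U : Set E, IsOpen U ∧ g y ∈ U ∧ ∃ t : E → Y, ContinuousOn t U ∧ (∀ e ∈ U, g (t e) = e) ∧
    t (g y) = y

theorem Reg.unique [T2Space Y] {g : Y → E} (hg : Continuous g) {A : Set E}
    (hd : Dense (g ⁻¹' A)ᶜ) {s : E → Y} (hs : ∀ e ∉ A, ∀ y, g y = e → y = s e) {y y' : Y}
    (hy : Reg g y) (h : g y' = g y) : y' = y := by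
  by_contra hne
  obtain ⟨U, hU, hyU, t, htc, ht, hty⟩ := hy
  obtain ⟨u, v, hu, hv, hyu, hyv, huv⟩ := t2_separation hne
  have h1 : ∀ᶠ e in 𝓝 (g y), t e ∈ v ∧ e ∈ U := by
    have h2 : ContinuousAt t (g y) := htc.continuousAt (hU.mem_nhds hyU)
    have h3 : v ∈ 𝓝 (t (g y)) := by
      rw [hty]
      exact hv.mem_nhds hyv
    have h4 : ∀ᶠ e in 𝓝 (g y), t e ∈ v := h2 h3
    exact h4.and (hU.mem_nhds hyU)
  have h2 : ∀ᶠ z in 𝓝 y', (t (g z) ∈ v ∧ g z ∈ U) ∧ z ∈ u := by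
    have h3 : Tendsto g (𝓝 y') (𝓝 (g y)) := by
      rw [← h]
      exact hg.continuousAt
    exact (h3.eventually h1).and (hu.mem_nhds hyu)
  obtain ⟨z, hz, ⟨hz1, hz2⟩, hz3⟩ := hd.inter_nhds_nonempty h2
  have h4 : t (g z) = s (g z) := hs _ hz _ (ht _ hz2)
  have h5 : z = s (g z) := hs _ hz _ rfl
  rw [h4, ← h5] at hz1
  exact Set.disjoint_left.1 huv hz3 hz1

/-- the preimage of a nowhere dense analytic set is nowhere dense -/
theorem dense_preimage [PreconnectedSpace Y] {g : Y → E} (hg : MDifferentiable 𝓘(ℂ, W) 𝓘(ℂ, V) g)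
    {A : Set E} (hA : IsAnalyticSet 𝓘(ℂ, V) A) {y₀ : Y} (hy₀ : g y₀ ∉ A) :
    Dense (g ⁻¹' A)ᶜ := by
  have hgc : Continuous g := hg.continuous
  rw [← interior_eq_empty_iff_dense_compl]
  set T := interior (g ⁻¹' A) with hT
  have hTo : IsOpen T := isOpen_interior
  have hTc : IsClosed T := by
    rw [← closure_subset_iff_isClosed]
    intro y hy
    obtain ⟨U, hU, hyU, m, f, hf, hfA⟩ := hA (g y)
    set φ := chartAt W y with hφ
    have hyφ : y ∈ φ.source := mem_chart_source W y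
    have h1 : φ.target ∩ φ.symm ⁻¹' (g ⁻¹' U) ∈ 𝓝 (φ y) := by
      refine (φ.isOpen_inter_preimage_symm (hU.preimage hgc)).mem_nhds ⟨φ.map_source hyφ, ?_⟩
      show g (φ.symm (φ y)) ∈ U
      rw [φ.left_inv hyφ]
      exact hyU
    obtain ⟨r, hr, hrs⟩ := Metric.mem_nhds_iff.1 h1
    have hbt : ball (φ y) r ⊆ φ.target := fun v hv => (hrs hv).1
    have hopen : IsOpen (φ.symm '' ball (φ y) r) :=
      φ.isOpen_image_symm_of_subset_target isOpen_ball hbt
    have hmem : y ∈ φ.symm '' ball (φ y) r := ⟨φ y, mem_ball_self hr, φ.left_inv hyφ⟩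
    obtain ⟨y', hy'b, hy'T⟩ := mem_closure_iff_nhds.1 hy _ (hopen.mem_nhds hmem)
    obtain ⟨v, hv, rfl⟩ := hy'b
    have hdiff : DifferentiableOn ℂ (fun v => f (g (φ.symm v))) (ball (φ y) r) := by
      intro w hw
      apply DifferentiableAt.differentiableWithinAt
      have h2 : MDifferentiableAt 𝓘(ℂ, V) 𝓘(ℂ, Fin m → ℂ) f (g (φ.symm w)) :=
        (hf _ (hrs hw).2).mdifferentiableAt (hU.mem_nhds (hrs hw).2)
      have h3 : MDifferentiableAt 𝓘(ℂ, W) 𝓘(ℂ, Fin m → ℂ) (fun y => f (g y)) (φ.symm w) :=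
        h2.comp _ (hg _)
      exact diff_fun_chart (hbt hw) h3
    have hev : ∀ᶠ w in 𝓝 v, f (g (φ.symm w)) = 0 := by
      have h2 : ∀ᶠ w in 𝓝 v, φ.symm w ∈ T :=
        (φ.symm.continuousAt (hbt hv)).preimage_mem_nhds (hTo.mem_nhds hy'T)
      filter_upwards [h2, isOpen_ball.mem_nhds hv] with w hw hwb
      have hw' : φ.symm w ∈ g ⁻¹' A := interior_subset hw
      have h3 : g (φ.symm w) ∈ A ∩ U := ⟨hw', (hrs hwb).2⟩
      rw [hfA] at h3
      exact h3.2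
    have hall := Pool.Agent.Helper417.Mer.eqOn_zero_of_convex isOpen_ball (convex_ball (φ y) r)
      hdiff hv hev
    rw [hT, mem_interior_iff_mem_nhds]
    filter_upwards [hopen.mem_nhds hmem] with z hz
    obtain ⟨w, hw, rfl⟩ := hz
    have h3 : g (φ.symm w) ∈ A ∩ U := by
      rw [hfA]
      exact ⟨(hrs hw).2, hall w hw⟩
    exact h3.1
  rcases isClopen_iff.1 ⟨hTc, hTo⟩ with h | h
  · exact h
  · exfalso
    have : y₀ ∈ T := by
      rw [h]
      trivial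
    have h2 : y₀ ∈ g ⁻¹' A := interior_subset this
    exact hy₀ h2

/-- isolated points of fibres are regular -/
theorem isolated_reg [T2Space Y] [T2Space E] {g : Y → E}
    (hg : MDifferentiable 𝓘(ℂ, W) 𝓘(ℂ, V) g) {A : Set E} (hA : Thin V A) (hd : Dense (g ⁻¹' A)ᶜ)
    {s : E → Y} (hsd : MDifferentiableOn 𝓘(ℂ, V) 𝓘(ℂ, W) s Aᶜ)
    (hs : ∀ e ∉ A, ∀ y, g y = e ↔ y = s e) {y₀ : Y}
    (hy₀ : ¬ ∃ᶠ y in 𝓝[≠] y₀, g y = g y₀) : Reg g y₀ := by
  have hgc : Continuous g := hg.continuous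
  have hgs : ∀ e ∉ A, g (s e) = e := fun e he => (hs e he _).2 rfl
  rw [not_frequently, eventually_nhdsWithin_iff] at hy₀
  set φ := chartAt W y₀ with hφ
  have hyφ : y₀ ∈ φ.source := mem_chart_source W y₀
  have h1 : φ.target ∩ φ.symm ⁻¹' {y | y ∈ ({y₀}ᶜ : Set Y) → ¬ g y = g y₀} ∈ 𝓝 (φ y₀) := by
    refine inter_mem (φ.open_target.mem_nhds (φ.map_source hyφ)) ?_
    apply (φ.symm.continuousAt (φ.map_source hyφ)).preimage_mem_nhds
    rw [φ.left_inv hyφ]
    exact hy₀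
  have : ProperSpace W := FiniteDimensional.proper ℂ W
  obtain ⟨r, hr, hrs⟩ := Metric.nhds_basis_closedBall.mem_iff.1 h1
  have hbt : closedBall (φ y₀) r ⊆ φ.target := fun v hv => (hrs hv).1
  have hbt' : ball (φ y₀) r ⊆ φ.target := ball_subset_closedBall.trans hbt
  have hiso : ∀ v ∈ closedBall (φ y₀) r, g (φ.symm v) = g y₀ → v = φ y₀ := by
    intro v hv h
    by_contra hne
    refine (hrs hv).2 ?_ h
    intro h2
    apply hne
    have h3 : φ.symm v = y₀ := h2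
    rw [← h3, φ.right_inv (hbt hv)]
  set Kb : Set Y := φ.symm '' closedBall (φ y₀) r with hKb
  have hKbc : IsCompact Kb := (isCompact_closedBall _ _).image_of_continuousOn
    (φ.continuousOn_symm.mono hbt)
  set Wb : Set Y := φ.symm '' ball (φ y₀) r with hWb
  have hWbo : IsOpen Wb := φ.isOpen_image_symm_of_subset_target isOpen_ball hbt'
  have hy₀Wb : y₀ ∈ Wb := ⟨φ y₀, mem_ball_self hr, φ.left_inv hyφ⟩
  set T : Set Y := φ.symm '' sphere (φ y₀) r with hT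
  have hTc : IsCompact T := (isCompact_sphere _ _).image_of_continuousOn
    (φ.continuousOn_symm.mono (sphere_subset_closedBall.trans hbt))
  have hKT : ∀ y ∈ Kb, y ∉ T → y ∈ Wb := by
    rintro _ ⟨v, hv, rfl⟩ h
    refine ⟨v, ?_, rfl⟩
    rw [mem_ball]
    rw [mem_closedBall] at hv
    refine lt_of_le_of_ne hv fun h2 => h ⟨v, h2, rfl⟩
  have hgT : IsCompact (g '' T) := hTc.image hgc
  have he₀ : g y₀ ∉ g '' T := by
    rintro ⟨_, ⟨v, hv, rfl⟩, h⟩
    have h2 := hiso v (sphere_subset_closedBall hv) h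
    rw [h2, mem_sphere, dist_self] at hv
    exact hr.ne hv
  -- a good ball around `g y₀`
  set ψ := chartAt V (g y₀) with hψ
  have heψ : g y₀ ∈ ψ.source := mem_chart_source V (g y₀)
  have h2 : ψ.target ∩ ψ.symm ⁻¹' (g '' T)ᶜ ∈ 𝓝 (ψ (g y₀)) := by
    refine (ψ.isOpen_inter_preimage_symm hgT.isClosed.isOpen_compl).mem_nhds
      ⟨ψ.map_source heψ, ?_⟩
    show ψ.symm (ψ (g y₀)) ∈ (g '' T)ᶜ
    rw [ψ.left_inv heψ]
    exact he₀
  obtain ⟨ρ, hρ, hρs⟩ := Metric.mem_nhds_iff.1 h2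
  have hbs : ball (ψ (g y₀)) ρ ⊆ ψ.target := fun v hv => (hρs hv).1
  have hthin := (hA.chart (g y₀)).mono hbs
  have hopen := hA.chart_open (g y₀) isOpen_ball hbs
  obtain ⟨hconn, hdense⟩ := Pool.Agent.Helper417.Mer.isConnected_diff_thin
    (W := ball (ψ (g y₀)) ρ) (A := ψ.symm ⁻¹' A) isOpen_ball
    ⟨⟨ψ (g y₀), mem_ball_self hρ⟩, (convex_ball (ψ (g y₀)) ρ).isPreconnected⟩ hthin hopen
  set B := ball (ψ (g y₀)) ρ \ ψ.symm ⁻¹' A with hB
  have hBA : ∀ v ∈ B, ψ.symm v ∉ A := fun v hv => hv.2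
  have hσc : ContinuousOn (fun v => s (ψ.symm v)) B := by
    have h3 : ContinuousOn s Aᶜ := hsd.continuousOn
    exact h3.comp (ψ.continuousOn_symm.mono (sdiff_subset.trans hbs)) hBA
  have himg : IsPreconnected ((fun v => s (ψ.symm v)) '' B) := hconn.isPreconnected.image _ hσc
  have hnT : ∀ v ∈ B, s (ψ.symm v) ∉ T := by
    intro v hv h
    apply (hρs hv.1).2
    exact ⟨_, h, hgs _ (hBA v hv)⟩
  have hcover : (fun v => s (ψ.symm v)) '' B ⊆ Wb ∪ Kbᶜ := by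
    rintro _ ⟨v, hv, rfl⟩
    by_cases h : s (ψ.symm v) ∈ Kb
    · exact Or.inl (hKT _ h (hnT v hv))
    · exact Or.inr h
  have hmeet : ((fun v => s (ψ.symm v)) '' B ∩ Wb).Nonempty := by
    have h3 : ∀ᶠ y in 𝓝 y₀, g y ∈ ψ.source ∧ ψ (g y) ∈ ball (ψ (g y₀)) ρ ∧ y ∈ Wb := by
      have h4 : ∀ᶠ e in 𝓝 (g y₀), e ∈ ψ.source ∧ ψ e ∈ ball (ψ (g y₀)) ρ := by
        have h5 : ∀ᶠ e in 𝓝 (g y₀), e ∈ ψ.source := ψ.open_source.mem_nhds heψ
        have h6 : ∀ᶠ e in 𝓝 (g y₀), ψ e ∈ ball (ψ (g y₀)) ρ :=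
          (ψ.continuousAt heψ).preimage_mem_nhds (ball_mem_nhds _ hρ)
        exact h5.and h6
      have h7 : ∀ᶠ y in 𝓝 y₀, g y ∈ ψ.source ∧ ψ (g y) ∈ ball (ψ (g y₀)) ρ :=
        (hgc.tendsto y₀).eventually h4
      filter_upwards [h7, hWbo.mem_nhds hy₀Wb] with y h8 h9 using ⟨h8.1, h8.2, h9⟩
    obtain ⟨y, hyd, hy1, hy2, hy3⟩ := hd.inter_nhds_nonempty h3
    have hyA : g y ∉ A := hyd
    refine ⟨y, ⟨ψ (g y), ⟨hy2, ?_⟩, ?_⟩, hy3⟩
    · show ψ.symm (ψ (g y)) ∉ A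
      rw [ψ.left_inv hy1]
      exact hyA
    · show s (ψ.symm (ψ (g y))) = y
      rw [ψ.left_inv hy1]
      exact ((hs _ hyA _).1 rfl).symm
  have hsub : (fun v => s (ψ.symm v)) '' B ⊆ Wb := by
    refine himg.subset_left_of_subset_union hWbo hKbc.isClosed.isOpen_compl ?_ hcover hmeet
    refine disjoint_compl_right.mono_left ?_
    rintro _ ⟨v, hv, rfl⟩
    exact ⟨v, ball_subset_closedBall hv, rfl⟩
  -- extension in the chart
  have hσs : ∀ v ∈ B, s (ψ.symm v) ∈ φ.source := by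
    intro v hv
    obtain ⟨w, hw, hw2⟩ := hsub ⟨v, hv, rfl⟩
    have hw2' : φ.symm w = s (ψ.symm v) := hw2
    rw [← hw2']
    exact φ.map_target (hbt' hw)
  have hσb : ∀ v ∈ B, φ (s (ψ.symm v)) ∈ ball (φ y₀) r := by
    intro v hv
    obtain ⟨w, hw, hw2⟩ := hsub ⟨v, hv, rfl⟩
    have hw2' : φ.symm w = s (ψ.symm v) := hw2
    rw [← hw2', φ.right_inv (hbt' hw)]
    exact hw
  obtain ⟨σ, hσd, hσe⟩ := riemann_ext_vec isOpen_ball hthin hopen
    (f := fun v => φ (s (ψ.symm v))) (M := ‖φ y₀‖ + r) (by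
      intro v hv
      apply DifferentiableAt.differentiableWithinAt
      exact diff_chart (hbs hv.1) (hσs v hv)
        ((hsd _ (hBA v hv)).mdifferentiableAt (hA.1.isOpen_compl.mem_nhds (hBA v hv)))) (by
      intro v hv
      have h3 := hσb v hv
      rw [mem_ball, dist_eq_norm] at h3
      have h4 := norm_le_norm_add_norm_sub' (φ (s (ψ.symm v))) (φ y₀)
      linarith)
  have hσcb : ∀ v ∈ ball (ψ (g y₀)) ρ, σ v ∈ closedBall (φ y₀) r := by
    intro v hv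
    have h3 : v ∈ closure B := hdense hv
    have h4 : ContinuousAt σ v := hσd.continuousOn.continuousAt (isOpen_ball.mem_nhds hv)
    have h5 := h4.continuousWithinAt.mem_closure h3 (t := ball (φ y₀) r) (by
      intro w hw
      rw [hσe w hw]
      exact hσb w hw)
    exact closure_ball_subset_closedBall h5
  have hgσ : ∀ v ∈ ball (ψ (g y₀)) ρ, g (φ.symm (σ v)) = ψ.symm v := by
    intro v hv
    have h3 : v ∈ closure B := hdense hv
    have c1 : ContinuousAt (fun v => g (φ.symm (σ v))) v := by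
      have c2 : ContinuousAt σ v := hσd.continuousOn.continuousAt (isOpen_ball.mem_nhds hv)
      have c3 : ContinuousAt φ.symm (σ v) := φ.symm.continuousAt (hbt (hσcb v hv))
      have c4 : ContinuousAt (fun v => φ.symm (σ v)) v := ContinuousAt.comp (f := σ) c3 c2
      exact hgc.continuousAt.comp c4
    have c5 : ContinuousAt (fun v => ψ.symm v) v := ψ.symm.continuousAt (hbs hv)
    have hcl : IsClosed {p : E × E | p.1 = p.2} := isClosed_eq continuous_fst continuous_snd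
    have h6 := (c1.prodMk c5).continuousWithinAt.mem_closure h3 (t := {p : E × E | p.1 = p.2}) (by
      intro w hw
      show g (φ.symm (σ w)) = ψ.symm w
      rw [hσe w hw, φ.left_inv (hσs w hw)]
      exact hgs _ (hBA w hw))
    rw [hcl.closure_eq] at h6
    exact h6
  refine ⟨ψ.symm '' ball (ψ (g y₀)) ρ, ψ.isOpen_image_symm_of_subset_target isOpen_ball hbs,
    ⟨ψ (g y₀), mem_ball_self hρ, ψ.left_inv heψ⟩, fun e => φ.symm (σ (ψ e)), ?_, ?_, ?_⟩
  · have hmaps : ∀ e ∈ ψ.symm '' ball (ψ (g y₀)) ρ, e ∈ ψ.source ∧ ψ e ∈ ball (ψ (g y₀)) ρ := by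
      rintro _ ⟨v, hv, rfl⟩
      refine ⟨ψ.map_target (hbs hv), ?_⟩
      rw [ψ.right_inv (hbs hv)]
      exact hv
    intro e he
    apply ContinuousAt.continuousWithinAt
    obtain ⟨he1, he2⟩ := hmaps e he
    have c2 : ContinuousAt σ (ψ e) := hσd.continuousOn.continuousAt (isOpen_ball.mem_nhds he2)
    have c3 : ContinuousAt (fun e => σ (ψ e)) e := ContinuousAt.comp (f := ψ) c2 (ψ.continuousAt he1)
    have c4 : ContinuousAt φ.symm (σ (ψ e)) := φ.symm.continuousAt (hbt (hσcb _ he2))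
    exact ContinuousAt.comp (f := fun e => σ (ψ e)) c4 c3
  · rintro _ ⟨v, hv, rfl⟩
    beta_reduce
    rw [ψ.right_inv (hbs hv)]
    exact hgσ v hv
  · beta_reduce
    have h3 := hgσ (ψ (g y₀)) (mem_ball_self hρ)
    rw [ψ.left_inv heψ] at h3
    have h4 := hiso _ (hσcb _ (mem_ball_self hρ)) h3
    rw [h4, φ.left_inv hyφ]

end Pool.Agent.Y189.UD
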