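import Mathlib
import Pool.Agent.Y189.UD.Mod2

/-! Proper modifications of surfaces: only countably many points are modified. -/

set_option autoImplicit false
set_option linter.unusedSectionVars false
open Set Metric Filter Topology
open scoped Manifold ContDiff

namespace Pool.Agent.Y189.UD

variable {V W : Type} [NormedAddCommGroup V] [NormedSpace ℂ V] [FiniteDimensional ℂ V]
  [NormedAddCommGroup W] [NormedSpace ℂ W] [FiniteDimensional ℂ W]
  {Y E : Type*} [TopologicalSpace Y] [ChartedSpace W Y] [IsManifold 𝓘(ℂ, W) 1 Y]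
  [TopologicalSpace E] [ChartedSpace V E] [IsManifold 𝓘(ℂ, V) 1 E]

/-- off the modified set the derivative is invertible in charts -/
theorem chart_inv {g : Y → E} (hg : MDifferentiable 𝓘(ℂ, W) 𝓘(ℂ, V) g) {A : Set E}
    (hA : IsClosed A) {s : E → Y} (hsd : MDifferentiableOn 𝓘(ℂ, V) 𝓘(ℂ, W) s Aᶜ)
    (hs : ∀ e ∉ A, ∀ y, g y = e ↔ y = s e) {y₀ y : Y} {e₀ : E} (hy : y ∈ (chartAt W y₀).source)
    (hgy : g y ∈ (chartAt V e₀).source) (hyA : g y ∉ A) :
    ∃ S : V →L[ℂ] W, S.comp (fderiv ℂ (fun v => chartAt V e₀ (g ((chartAt W y₀).symm v)))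
        (chartAt W y₀ y)) = ContinuousLinearMap.id ℂ W ∧
      (fderiv ℂ (fun v => chartAt V e₀ (g ((chartAt W y₀).symm v)))
        (chartAt W y₀ y)).comp S = ContinuousLinearMap.id ℂ V := by
  have hgc : Continuous g := hg.continuous
  set φ := chartAt W y₀ with hφ
  set ψ := chartAt V e₀ with hψ
  have hsy : s (g y) = y := ((hs _ hyA _).1 rfl).symm
  have hsA : MDifferentiableAt 𝓘(ℂ, V) 𝓘(ℂ, W) s (g y) :=
    (hsd _ hyA).mdifferentiableAt (hA.isOpen_compl.mem_nhds hyA)
  set G : W → V := fun v => ψ (g (φ.symm v)) with hG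
  set S : V → W := fun v => φ (s (ψ.symm v)) with hS
  have h1 : φ.symm (φ y) = y := φ.left_inv hy
  have h2 : ψ.symm (ψ (g y)) = g y := ψ.left_inv hgy
  have hGd : DifferentiableAt ℂ G (φ y) := by
    apply diff_chart (φ.map_source hy)
    · rw [h1]
      exact hgy
    · rw [h1]
      exact hg y
  have hSd : DifferentiableAt ℂ S (ψ (g y)) := by
    apply diff_chart (ψ.map_source hgy)
    · rw [h2, hsy]
      exact hy
    · rw [h2]
      exact hsA
  have hGy : G (φ y) = ψ (g y) := by simp only [hG, h1]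
  have hSy : S (ψ (g y)) = φ y := by simp only [hS, h2, hsy]
  have hSG : (fun v => S (G v)) =ᶠ[𝓝 (φ y)] fun v => v := by
    have e1 : ∀ᶠ v in 𝓝 (φ y), v ∈ φ.target := φ.open_target.mem_nhds (φ.map_source hy)
    have e2 : ∀ᶠ v in 𝓝 (φ y), g (φ.symm v) ∈ ψ.source ∧ g (φ.symm v) ∉ A := by
      have c1 : ContinuousAt (fun v => g (φ.symm v)) (φ y) :=
        hgc.continuousAt.comp (φ.symm.continuousAt (φ.map_source hy))
      have c2 : Tendsto (fun v => g (φ.symm v)) (𝓝 (φ y)) (𝓝 (g y)) := by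
        have := c1.tendsto
        rwa [h1] at this
      have c3 : ∀ᶠ e in 𝓝 (g y), e ∈ ψ.source := ψ.open_source.mem_nhds hgy
      have c4 : ∀ᶠ e in 𝓝 (g y), e ∉ A := hA.isOpen_compl.mem_nhds hyA
      exact c2.eventually (c3.and c4)
    filter_upwards [e1, e2] with v hv1 hv2
    simp only [hS, hG]
    rw [ψ.left_inv hv2.1, ← (hs _ hv2.2 _).1 rfl, φ.right_inv hv1]
  have hGS : (fun v => G (S v)) =ᶠ[𝓝 (ψ (g y))] fun v => v := by
    have e1 : ∀ᶠ v in 𝓝 (ψ (g y)), v ∈ ψ.target := ψ.open_target.mem_nhds (ψ.map_source hgy)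
    have e2 : ∀ᶠ v in 𝓝 (ψ (g y)), s (ψ.symm v) ∈ φ.source ∧ ψ.symm v ∉ A := by
      have c0 : Tendsto (fun v => ψ.symm v) (𝓝 (ψ (g y))) (𝓝 (g y)) := by
        have := (ψ.symm.continuousAt (ψ.map_source hgy)).tendsto
        rwa [h2] at this
      have c3 : ∀ᶠ e in 𝓝 (g y), s e ∈ φ.source := by
        have c5 := hsA.continuousAt.tendsto
        rw [hsy] at c5
        exact c5.eventually (φ.open_source.mem_nhds hy)
      have c4 : ∀ᶠ e in 𝓝 (g y), e ∉ A := hA.isOpen_compl.mem_nhds hyA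
      exact c0.eventually (c3.and c4)
    filter_upwards [e1, e2] with v hv1 hv2
    simp only [hS, hG]
    rw [φ.left_inv hv2.1, (hs _ hv2.2 _).2 rfl, ψ.right_inv hv1]
  refine ⟨fderiv ℂ S (ψ (g y)), ?_, ?_⟩
  · have h3 : HasFDerivAt (fun v => S (G v)) ((fderiv ℂ S (ψ (g y))).comp (fderiv ℂ G (φ y)))
        (φ y) := by
      have h4 : HasFDerivAt S (fderiv ℂ S (ψ (g y))) (G (φ y)) := by
        rw [hGy]
        exact hSd.hasFDerivAt
      exact h4.comp (φ y) hGd.hasFDerivAt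
    have h5 : HasFDerivAt (fun v => S (G v)) (ContinuousLinearMap.id ℂ W) (φ y) :=
      (hasFDerivAt_id (φ y)).congr_of_eventuallyEq hSG
    exact h3.unique h5
  · have h3 : HasFDerivAt (fun v => G (S v)) ((fderiv ℂ G (φ y)).comp (fderiv ℂ S (ψ (g y))))
        (ψ (g y)) := by
      have h4 : HasFDerivAt G (fderiv ℂ G (φ y)) (S (ψ (g y))) := by
        rw [hSy]
        exact hGd.hasFDerivAt
      exact h4.comp (ψ (g y)) hSd.hasFDerivAt
    have h5 : HasFDerivAt (fun v => G (S v)) (ContinuousLinearMap.id ℂ V) (ψ (g y)) :=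
      (hasFDerivAt_id (ψ (g y))).congr_of_eventuallyEq hGS
    exact h3.unique h5

/-- a point where the derivative is injective is regular -/
theorem reg_of_inj (hVW : Module.finrank ℂ W = Module.finrank ℂ V) {g : Y → E}
    (hg : MDifferentiable 𝓘(ℂ, W) 𝓘(ℂ, V) g) {y₀ : Y} {e₀ : E} {z : W}
    (hz : z ∈ (chartAt W y₀).target) (hgz : g ((chartAt W y₀).symm z) ∈ (chartAt V e₀).source)
    (hinj : Function.Injective
      (fderiv ℂ (fun v => chartAt V e₀ (g ((chartAt W y₀).symm v))) z)) :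
    Reg g ((chartAt W y₀).symm z) := by
  have hgc : Continuous g := hg.continuous
  set φ := chartAt W y₀ with hφ
  set ψ := chartAt V e₀ with hψ
  set G : W → V := fun v => ψ (g (φ.symm v)) with hG
  set O : Set W := φ.target ∩ φ.symm ⁻¹' (g ⁻¹' ψ.source) with hO
  have hOo : IsOpen O := φ.isOpen_inter_preimage_symm (ψ.open_source.preimage hgc)
  have hzO : z ∈ O := ⟨hz, hgz⟩
  have hGd : DifferentiableOn ℂ G O := by
    intro v hv
    exact (diff_chart hv.1 hv.2 (hg _)).differentiableWithinAt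
  have hGc : ContDiffAt ℂ 1 G z :=
    (Pool.Agent.Helper417.Mer.Hartogs673.contDiffOn_of_differentiableOn hOo hGd 1).contDiffAt
      (hOo.mem_nhds hzO)
  let Le : W ≃L[ℂ] V :=
    (LinearEquiv.ofInjectiveOfFinrankEq ((fderiv ℂ G z : W →L[ℂ] V) : W →ₗ[ℂ] V) hinj
      hVW).toContinuousLinearEquiv
  have hLe : (Le : W →L[ℂ] V) = fderiv ℂ G z := by
    ext w
    rfl
  have hGs : HasStrictFDerivAt G (Le : W →L[ℂ] V) z := by
    rw [hLe]
    exact hGc.hasStrictFDerivAt (by norm_num)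
  set ε := hGs.toOpenPartialHomeomorph G with hε
  have hεc : (ε : W → V) = G := rfl
  have hzs : z ∈ ε.source := hGs.mem_toOpenPartialHomeomorph_source
  have hεz : ε.symm (G z) = z := by
    rw [← hεc]
    exact ε.left_inv hzs
  set T : Set V := ε.target ∩ ε.symm ⁻¹' O with hT
  have hTo : IsOpen T := ε.isOpen_inter_preimage_symm hOo
  have hGzT : G z ∈ T := by
    refine ⟨ε.map_source hzs, ?_⟩
    show ε.symm (G z) ∈ O
    rw [hεz]
    exact hzO
  refine ⟨ψ.source ∩ ψ ⁻¹' T, ψ.isOpen_inter_preimage hTo, ⟨hgz, hGzT⟩,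
    fun e => φ.symm (ε.symm (ψ e)), ?_, ?_, ?_⟩
  · intro e he
    apply ContinuousAt.continuousWithinAt
    have c1 : ContinuousAt ε.symm (ψ e) := ε.symm.continuousAt he.2.1
    have c2 : ContinuousAt (fun e => ε.symm (ψ e)) e :=
      ContinuousAt.comp (f := ψ) c1 (ψ.continuousAt he.1)
    have c3 : ContinuousAt φ.symm (ε.symm (ψ e)) := φ.symm.continuousAt he.2.2.1
    exact ContinuousAt.comp (f := fun e => ε.symm (ψ e)) c3 c2
  · intro e he
    have h1 : G (ε.symm (ψ e)) = ψ e := ε.right_inv he.2.1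
    have h2 : ψ (g (φ.symm (ε.symm (ψ e)))) = ψ e := h1
    exact ψ.injOn he.2.2.2 he.1 h2
  · show φ.symm (ε.symm (G z)) = φ.symm z
    rw [hεz]

theorem modification [T2Space Y] [T2Space E] [PreconnectedSpace Y] [SecondCountableTopology Y]
    [LocallyCompactSpace E] [Nonempty E] (hV : Module.finrank ℂ V = 2) {g : Y → E}
    (hg : MDifferentiable 𝓘(ℂ, W) 𝓘(ℂ, V) g) (hproper : ∀ K, IsCompact K → IsCompact (g ⁻¹' K))
    {A : Set E} (hA : IsAnalyticSet 𝓘(ℂ, V) A) (hAi : interior A = ∅) {s : E → Y}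
    (hsd : MDifferentiableOn 𝓘(ℂ, V) 𝓘(ℂ, W) s Aᶜ) (hs : ∀ e ∉ A, ∀ y, g y = e ↔ y = s e) :
    ∃ D : Set E, D.Countable ∧ ∃ s' : E → Y, ContinuousOn s' Dᶜ ∧ ∀ e ∉ D, g (s' e) = e := by
  classical
  have hgc : Continuous g := hg.continuous
  have hAt : Thin V A := hA.thin hAi
  obtain ⟨e₁, he₁⟩ : ∃ e₁, e₁ ∉ A := by
    obtain ⟨e⟩ := ‹Nonempty E›
    obtain ⟨z, hz⟩ := (hAt.dense).nonempty_iff.2 ⟨e⟩
    exact ⟨z, hz⟩
  have hg₁ : g (s e₁) = e₁ := (hs _ he₁ _).2 rfl
  have hd : Dense (g ⁻¹' A)ᶜ := dense_preimage hg hA (y₀ := s e₁) (by rw [hg₁]; exact he₁)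
  -- dimension
  have hVW : Module.finrank ℂ W = Module.finrank ℂ V := by
    obtain ⟨S, h1, h2⟩ := chart_inv hg hAt.1 hsd hs (y₀ := s e₁) (y := s e₁) (e₀ := g (s e₁))
      (mem_chart_source W _) (mem_chart_source V _) (by rw [hg₁]; exact he₁)
    set L := fderiv ℂ (fun v => chartAt V (g (s e₁)) (g ((chartAt W (s e₁)).symm v)))
        (chartAt W (s e₁) (s e₁)) with hL
    have h3 : (S : V →ₗ[ℂ] W).comp (L : W →ₗ[ℂ] V) = LinearMap.id := by
      ext w
      exact congrArg (fun f : W →L[ℂ] W => f w) h1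
    have h4 : (L : W →ₗ[ℂ] V).comp (S : V →ₗ[ℂ] W) = LinearMap.id := by
      ext w
      exact congrArg (fun f : V →L[ℂ] V => f w) h2
    exact (LinearEquiv.ofLinear (L : W →ₗ[ℂ] V) (S : V →ₗ[ℂ] W) h4 h3).finrank_eq
  have hW : Module.finrank ℂ W = 2 := hVW.trans hV
  have huniq : ∀ {y y' : Y}, Reg g y → g y' = g y → y' = y := fun hy h =>
    hy.unique hgc hd (fun e he y h => (hs e he y).1 h) h
  -- surjectivity
  have hsurj : ∀ e, ∃ y, g y = e := by
    intro e
    obtain ⟨K, hKe, -, hKc⟩ := local_compact_nhds (x := e) univ_mem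
    have h1 : IsCompact (g '' (g ⁻¹' K)) := (hproper K hKc).image hgc
    have h2 : interior K \ A ⊆ g '' (g ⁻¹' K) := by
      intro z hz
      have h3 : g (s z) = z := (hs z hz.2 _).2 rfl
      refine ⟨s z, ?_, h3⟩
      show g (s z) ∈ K
      rw [h3]
      exact interior_subset hz.1
    have h3 : e ∈ closure (interior K \ A) := by
      have h4 := (hAt.dense).open_subset_closure_inter (isOpen_interior (s := K))
      exact h4 (mem_interior_iff_mem_nhds.2 hKe)
    have h4 := closure_minimal h2 h1.isClosed h3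
    obtain ⟨y, -, hy⟩ := h4
    exact ⟨y, hy⟩
  -- local countability
  have hloc : ∀ y₀ : Y, ∃ N ∈ 𝓝 y₀, (g '' ({y | ¬ Reg g y} ∩ N)).Countable := by
    intro y₀
    set φ := chartAt W y₀ with hφ
    set ψ := chartAt V (g y₀) with hψ
    have hyφ : y₀ ∈ φ.source := mem_chart_source W y₀
    have heψ : g y₀ ∈ ψ.source := mem_chart_source V (g y₀)
    set G : W → V := fun v => ψ (g (φ.symm v)) with hG
    set O : Set W := φ.target ∩ φ.symm ⁻¹' (g ⁻¹' ψ.source) with hO
    have hOo : IsOpen O := φ.isOpen_inter_preimage_symm (ψ.open_source.preimage hgc)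
    have hz₀ : φ y₀ ∈ O := by
      refine ⟨φ.map_source hyφ, ?_⟩
      show g (φ.symm (φ y₀)) ∈ ψ.source
      rw [φ.left_inv hyφ]
      exact heψ
    have hGd : DifferentiableOn ℂ G O := by
      intro v hv
      exact (diff_chart hv.1 hv.2 (hg _)).differentiableWithinAt
    obtain ⟨J, hJd, hJ⟩ := exists_jac hW hV hOo hGd
    have hJ0 : ¬ ∀ᶠ z in 𝓝 (φ y₀), J z = 0 := by
      intro h
      have e1 : ∀ᶠ y in 𝓝 y₀, J (φ y) = 0 := (φ.continuousAt hyφ).tendsto.eventually h
      have e2 : ∀ᶠ y in 𝓝 y₀, y ∈ φ.source := φ.open_source.mem_nhds hyφ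
      have e3 : ∀ᶠ y in 𝓝 y₀, g y ∈ ψ.source :=
        hgc.continuousAt.preimage_mem_nhds (ψ.open_source.mem_nhds heψ)
      obtain ⟨y, hyd, hy1, hy2, hy3⟩ := hd.inter_nhds_nonempty (e1.and (e2.and e3))
      have hyA : g y ∉ A := hyd
      obtain ⟨S, h1, -⟩ := chart_inv hg hAt.1 hsd hs (y₀ := y₀) (y := y) (e₀ := g y₀) hy2 hy3 hyA
      have hyO : φ y ∈ O := by
        refine ⟨φ.map_source hy2, ?_⟩
        show g (φ.symm (φ y)) ∈ ψ.source
        rw [φ.left_inv hy2]
        exact hy3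
      refine (hJ (φ y) hyO).2 ?_ hy1
      intro w w' hww
      have h2 : ∀ w, S (fderiv ℂ G (φ y) w) = w := fun w =>
        congrArg (fun f : W →L[ℂ] W => f w) h1
      rw [← h2 w, ← h2 w', hww]
    set C : Set W := {z | ¬ Reg g (φ.symm z)} with hC
    have hGeq : ∀ z ∈ O, ∀ z' ∈ O, G z' = G z → g (φ.symm z') = g (φ.symm z) := fun z hz z' hz' h =>
      ψ.injOn hz'.2 hz.2 h
    obtain ⟨O₁, hO₁, hcount⟩ := local_countable hW (G := G) (J := J) (O := O) (C := C) hOo hz₀
      hGd hJd hJ0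
      (by
        rintro z ⟨hz1, hz2⟩
        by_contra hne
        exact hz1 (reg_of_inj hVW hg hz2.1 hz2.2 ((hJ z hz2).1 hne)))
      (by
        rintro z ⟨hz1, hz2⟩ z' hz' hGz hreg
        have h1 := hGeq z hz2 z' hz' hGz
        have h2 := huniq hreg h1.symm
        apply hz1
        rw [h2]
        exact hreg)
      (by
        rintro z ⟨hz1, hz2⟩
        have h1 : ∃ᶠ y in 𝓝[≠] (φ.symm z), g y = g (φ.symm z) := by
          by_contra hcon
          exact hz1 (isolated_reg hg hAt hd hsd hs hcon)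
        intro hcon
        apply h1
        rw [eventually_nhdsWithin_iff] at hcon ⊢
        have hzs : φ.symm z ∈ φ.source := φ.map_target hz2.1
        have h2 : Tendsto φ (𝓝 (φ.symm z)) (𝓝 z) := by
          have := (φ.continuousAt hzs).tendsto
          rwa [φ.right_inv hz2.1] at this
        filter_upwards [h2.eventually hcon, φ.open_source.mem_nhds hzs] with y hy hys hyne hgy
        refine hy ?_ ?_
        · intro h3
          apply hyne
          have h4 : φ y = z := h3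
          show y = φ.symm z
          rw [← h4, φ.left_inv hys]
        · show ψ (g (φ.symm (φ y))) = ψ (g (φ.symm z))
          rw [φ.left_inv hys, hgy])
    refine ⟨φ.source ∩ (φ ⁻¹' O₁ ∩ g ⁻¹' ψ.source), ?_, ?_⟩
    · refine inter_mem (φ.open_source.mem_nhds hyφ) (inter_mem ?_ ?_)
      · exact (φ.continuousAt hyφ).preimage_mem_nhds hO₁
      · exact hgc.continuousAt.preimage_mem_nhds (ψ.open_source.mem_nhds heψ)
    · refine (hcount.image ψ.symm).mono ?_
      rintro _ ⟨y, ⟨hy1, hy2, hy3, hy4⟩, rfl⟩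
      refine ⟨G (φ y), ⟨φ y, ⟨?_, hy3⟩, rfl⟩, ?_⟩
      · show ¬ Reg g (φ.symm (φ y))
        rw [φ.left_inv hy2]
        exact hy1
      · show ψ.symm (ψ (g (φ.symm (φ y)))) = g y
        rw [φ.left_inv hy2, ψ.left_inv hy4]
  -- global countability
  choose N hN hNc using hloc
  obtain ⟨t, htc, htu⟩ := TopologicalSpace.countable_cover_nhds hN
  set D : Set E := g '' {y | ¬ Reg g y} with hD
  have hDc : D.Countable := by
    have h1 : D ⊆ ⋃ y₀ ∈ t, g '' ({y | ¬ Reg g y} ∩ N y₀) := by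
      rintro _ ⟨y, hy, rfl⟩
      have h2 : y ∈ ⋃ x ∈ t, N x := by
        rw [htu]
        trivial
      simp only [mem_iUnion] at h2 ⊢
      obtain ⟨x, hx, hyx⟩ := h2
      exact ⟨x, hx, y, ⟨hy, hyx⟩, rfl⟩
    exact (htc.biUnion fun y _ => hNc y).mono h1
  refine ⟨D, hDc, fun e => if h : ∃ y, Reg g y ∧ g y = e then h.choose else s e₁, ?_, ?_⟩
  · have hchoose : ∀ e ∉ D, ∀ y, g y = e → ((fun e => if h : ∃ y, Reg g y ∧ g y = e then h.choose
        else s e₁) e) = y := by
      intro e he y hy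
      have hreg : Reg g y := by
        by_contra hne
        exact he ⟨y, hne, hy⟩
      have hex : ∃ y, Reg g y ∧ g y = e := ⟨y, hreg, hy⟩
      beta_reduce
      rw [dif_pos hex]
      exact huniq hreg (hex.choose_spec.2.trans hy.symm)
    intro e he
    obtain ⟨y, hy⟩ := hsurj e
    have hreg : Reg g y := by
      by_contra hne
      exact he ⟨y, hne, hy⟩
    obtain ⟨U, hU, hyU, t', ht'c, ht', hty⟩ := hreg
    rw [hy] at hyU hty
    have c1 : ContinuousAt t' e := ht'c.continuousAt (hU.mem_nhds hyU)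
    refine c1.continuousWithinAt.congr_of_eventuallyEq ?_ ?_
    · filter_upwards [self_mem_nhdsWithin, nhdsWithin_le_nhds (hU.mem_nhds hyU)] with e' h1 h2
      exact hchoose e' h1 (t' e') (ht' e' h2)
    · exact hchoose e he (t' e) (ht' e hyU)
  · intro e he
    obtain ⟨y, hy⟩ := hsurj e
    have hreg : Reg g y := by
      by_contra hne
      exact he ⟨y, hne, hy⟩
    have hex : ∃ y, Reg g y ∧ g y = e := ⟨y, hreg, hy⟩
    beta_reduce
    rw [dif_pos hex]
    exact hex.choose_spec.2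

end Pool.Agent.Y189.UD
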