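import Mathlib

/-! Gluing functions which are given locally up to locally constant functions, on a simply
connected space. -/

set_option autoImplicit false
open Set Filter Topology

namespace Pool.Agent.Y189.UD

/-- the complex numbers with the discrete topology -/
def Cd : Type := ℂ

instance : TopologicalSpace Cd := ⊥
instance : DiscreteTopology Cd := ⟨rfl⟩

variable {X : Type*} [TopologicalSpace X]

/-- the covering space of local functions -/
noncomputable def glueCore (U : X → Set X) (hU : ∀ x, IsOpen (U x)) (hxU : ∀ x, x ∈ U x)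
    (f : X → X → ℂ)
    (h : ∀ x y, ∀ z ∈ U x ∩ U y, ∀ᶠ w in 𝓝 z, f x w - f y w = f x z - f y z) :
    FiberBundleCore X X Cd where
  baseSet := U
  isOpen_baseSet := hU
  indexAt := id
  mem_baseSet_at := hxU
  coordChange i j x c := ((show ℂ from c) + (f i x - f j x) : ℂ)
  coordChange_self i x _ v := by
    show (show ℂ from v) + (f i x - f i x) = v
    rw [sub_self, add_zero]
  continuousOn_coordChange i j := by
    rintro ⟨x, c⟩ ⟨hx, -⟩
    apply ContinuousAt.continuousWithinAt
    have h1 : ∀ᶠ p : X × Cd in 𝓝 (x, c), f i p.1 - f j p.1 = f i x - f j x :=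
      (continuous_fst.tendsto (x, c)).eventually (h i j x hx)
    have h2 : ∀ᶠ p : X × Cd in 𝓝 (x, c), p.2 = c :=
      (continuous_snd.tendsto (x, c)).eventually (by
        have : ({c} : Set Cd) ∈ 𝓝 c := by simp
        exact this)
    have h3 : ContinuousAt (fun _ : X × Cd => (show Cd from
        ((show ℂ from c) + (f i x - f j x) : ℂ))) (x, c) := continuousAt_const
    refine h3.congr ?_
    filter_upwards [h1, h2] with p hp1 hp2
    show ((show ℂ from c) + (f i x - f j x) : ℂ) = (show ℂ from p.2) + (f i p.1 - f j p.1)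
    rw [hp1, hp2]
  coordChange_comp i j k x _ v := by
    show ((show ℂ from v) + (f i x - f j x)) + (f j x - f k x) = (show ℂ from v) + (f i x - f k x)
    ring

theorem glue [SimplyConnectedSpace X] [LocallyPathConnectedSpace X] (U : X → Set X)
    (hU : ∀ x, IsOpen (U x)) (hxU : ∀ x, x ∈ U x) (f : X → X → ℂ)
    (h : ∀ x y, ∀ z ∈ U x ∩ U y, ∀ᶠ w in 𝓝 z, f x w - f y w = f x z - f y z) :
    ∃ F : X → ℂ, ∀ x, ∀ z ∈ U x, ∀ᶠ w in 𝓝 z, F w - f x w = F z - f x z := by
  set Z := glueCore U hU hxU f h with hZ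
  have hcov : IsCoveringMap (Bundle.TotalSpace.proj : Bundle.TotalSpace Cd Z.Fiber → X) :=
    FiberBundle.isCoveringMap
  obtain ⟨x₀⟩ : Nonempty X := inferInstance
  obtain ⟨s, ⟨-, hs⟩, -⟩ := hcov.existsUnique_continuousMap_lifts (ContinuousMap.id X) x₀
    (⟨x₀, (0 : ℂ)⟩ : Bundle.TotalSpace Cd Z.Fiber) rfl
  have hs' : ∀ x, (s x).proj = x := fun x => congrFun hs x
  refine ⟨fun x => f x x + (show ℂ from (s x).snd), ?_⟩
  intro x z hz
  have h1 : ContinuousAt (fun w => (Z.localTriv x) (s w)) z := by
    have h2 : s z ∈ (Z.localTriv x).source := by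
      rw [FiberBundleCore.mem_localTriv_source]
      show (s z).proj ∈ U x
      rw [hs']
      exact hz
    exact ((Z.localTriv x).continuousAt h2).comp s.continuous.continuousAt
  have h3 : ContinuousAt (fun w => ((Z.localTriv x) (s w)).2) z :=
    continuous_snd.continuousAt.comp h1
  have h4 : ∀ᶠ w in 𝓝 z, ((Z.localTriv x) (s w)).2 = ((Z.localTriv x) (s z)).2 := by
    have : ({((Z.localTriv x) (s z)).2} : Set Cd) ∈ 𝓝 ((Z.localTriv x) (s z)).2 := by simp
    exact h3 this
  have h5 : ∀ w, ((Z.localTriv x) (s w)).2 = ((show ℂ from (s w).snd) + (f w w - f x w) : ℂ) := by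
    intro w
    have h6 : ((Z.localTriv x) (s w)).2 =
        ((show ℂ from (s w).snd) + (f (s w).proj (s w).proj - f x (s w).proj) : ℂ) := rfl
    rw [h6, hs']
  filter_upwards [h4] with w hw
  rw [h5, h5] at hw
  have hw' : ((show ℂ from (s w).snd) + (f w w - f x w) : ℂ) =
    ((show ℂ from (s z).snd) + (f z z - f x z) : ℂ) := hw
  linear_combination hw'

end Pool.Agent.Y189.UD
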