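import Mathlib
import Pool.Agent.Helper10.UC.Base

/-! Local primitives of the invariant differential of the elliptic curve `EC`. -/

set_option autoImplicit false
open Set Filter Topology Metric
open Pool.Agent.Helper10.UC (EC)

namespace Pool.Agent.Y189.UD

variable {V : Type*} [NormedAddCommGroup V] [NormedSpace ℂ V]

theorem eventually_eq_of_sq {X : Type*} [TopologicalSpace X] {m n : X → ℂ} {z₀ : X}
    (hm : ContinuousAt m z₀) (hn : ContinuousAt n z₀) (h0 : m z₀ = n z₀) (hne : m z₀ ≠ 0) :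
    ∀ᶠ z in 𝓝 z₀, m z ^ 2 = n z ^ 2 → m z = n z := by
  have h1 : ContinuousAt (fun z => m z + n z) z₀ := hm.add hn
  have h2 : m z₀ + n z₀ ≠ 0 := by
    rw [← h0]
    intro h
    apply hne
    linear_combination h / 2
  filter_upwards [h1.eventually_ne h2] with z hz h
  have : (m z - n z) * (m z + n z) = 0 := by linear_combination h
  rcases mul_eq_zero.1 this with h | h
  · exact sub_eq_zero.1 h
  · exact absurd h hz

/-- primitive of `dt/m` -/
theorem prim_one {t m : V → ℂ} {z₀ : V} {R : ℂ → ℂ} (hR : Differentiable ℂ R)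
    (ht : ∀ᶠ z in 𝓝 z₀, DifferentiableAt ℂ t z) (hm : ContinuousAt m z₀) (hm0 : m z₀ ≠ 0)
    (hmR : ∀ᶠ z in 𝓝 z₀, m z ^ 2 = R (t z)) :
    ∃ f : V → ℂ, (∀ᶠ z in 𝓝 z₀, HasFDerivAt f ((m z)⁻¹ • fderiv ℂ t z) z) ∧
      ∀ᶠ z in 𝓝 z₀, f z = f z₀ → t z = t z₀ := by
  have hR0 : R (t z₀) = m z₀ ^ 2 := hmR.self_of_nhds.symm
  have hRne : R (t z₀) ≠ 0 := by rw [hR0]; exact pow_ne_zero 2 hm0
  have htc : ContinuousAt t z₀ := ht.self_of_nhds.continuousAt
  set q : ℂ → ℂ := fun s => R s / R (t z₀) with hq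
  have hqd : Differentiable ℂ q := hR.div_const _
  have hslit : ∀ᶠ s in 𝓝 (t z₀), q s ∈ Complex.slitPlane := by
    apply hqd.continuous.continuousAt.eventually_mem
    apply Complex.isOpen_slitPlane.mem_nhds
    simp only [hq]
    rw [div_self hRne]
    exact Complex.one_mem_slitPlane
  obtain ⟨r, hr, hball⟩ := Metric.eventually_nhds_iff_ball.1 hslit
  set μ : ℂ → ℂ := fun s => m z₀ * Complex.exp (Complex.log (q s) / 2) with hμ
  have hμne : ∀ s, μ s ≠ 0 := fun s => mul_ne_zero hm0 (Complex.exp_ne_zero _)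
  have hμd : DifferentiableOn ℂ μ (ball (t z₀) r) := by
    intro s hs
    apply DifferentiableAt.differentiableWithinAt
    exact ((((hqd s).clog (hball s hs)).div_const 2).cexp).const_mul _
  have hμsq : ∀ s ∈ ball (t z₀) r, μ s ^ 2 = R s := by
    intro s hs
    have hqs : q s ≠ 0 := Complex.slitPlane_ne_zero (hball s hs)
    simp only [hμ]
    rw [mul_pow, ← Complex.exp_nat_mul]
    have : ((2 : ℕ) : ℂ) * (Complex.log (q s) / 2) = Complex.log (q s) := by push_cast; ring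
    rw [this, Complex.exp_log hqs, ← hR0]
    simp only [hq]
    field_simp
  have hμ0 : μ (t z₀) = m z₀ := by
    simp only [hμ, hq]
    rw [div_self hRne]
    simp
  obtain ⟨Λ, hΛ⟩ := DifferentiableOn.isExactOn_ball (f := fun s => (μ s)⁻¹)
    (hμd.inv (fun s _ => hμne s))
  refine ⟨fun z => Λ (t z), ?_, ?_⟩
  · have h1 : ∀ᶠ z in 𝓝 z₀, t z ∈ ball (t z₀) r :=
      htc.eventually_mem (ball_mem_nhds _ hr)
    have hμc : ContinuousAt (fun z => μ (t z)) z₀ :=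
      ContinuousAt.comp (g := μ)
        ((hμd.continuousOn).continuousAt (ball_mem_nhds _ hr)) htc
    have h2 := eventually_eq_of_sq hm hμc hμ0.symm hm0
    filter_upwards [ht, h1, h2, hmR] with z hz1 hz2 hz3 hz4
    have h5 : m z = μ (t z) := hz3 (by rw [hz4, hμsq _ hz2])
    rw [h5]
    exact (hΛ (t z) hz2).comp_hasFDerivAt z hz1.hasFDerivAt
  · have h1 := (hΛ (t z₀) (mem_ball_self hr)).eventually_ne (c := Λ (t z₀)) (inv_ne_zero (hμne _))
    rw [eventually_nhdsWithin_iff] at h1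
    have h2 := htc.eventually h1
    filter_upwards [h2] with z hz h
    by_contra hne
    exact hz hne h

theorem hasFDerivAt_quot {x y : V → ℂ} {z : V} (hx : DifferentiableAt ℂ x z)
    (hy : DifferentiableAt ℂ y z) (hyne : y z ≠ 0) :
    HasFDerivAt (fun z => x z / y z)
        ((y z ^ 2)⁻¹ • (y z • fderiv ℂ x z - x z • fderiv ℂ y z)) z := by
  have h1 : HasFDerivAt (fun z => (y z)⁻¹) ((-(y z ^ 2)⁻¹) • fderiv ℂ y z) z :=
    (hasDerivAt_inv hyne).comp_hasFDerivAt z hy.hasFDerivAt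
  have h2 := hx.hasFDerivAt.mul h1
  have h3 : (fun z => x z / y z) = x * fun z => (y z)⁻¹ := by
    funext z
    simp [div_eq_mul_inv]
  rw [h3]
  have h4 : (y z ^ 2)⁻¹ • (y z • fderiv ℂ x z - x z • fderiv ℂ y z) =
      x z • ((-(y z ^ 2)⁻¹) • fderiv ℂ y z) + (y z)⁻¹ • fderiv ℂ x z := by
    ext v
    show (y z ^ 2)⁻¹ * (y z * fderiv ℂ x z v - x z * fderiv ℂ y z v) =
      x z * (-(y z ^ 2)⁻¹ * fderiv ℂ y z v) + (y z)⁻¹ * fderiv ℂ x z v
    field_simp
    ring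
  rw [h4]
  exact h2

theorem prim_gen {x y k l : V → ℂ} {z₀ : V} {α β γ δ c : ℂ} (hc : c ≠ 0)
    (hx : ∀ᶠ z in 𝓝 z₀, DifferentiableAt ℂ x z) (hy : ∀ᶠ z in 𝓝 z₀, DifferentiableAt ℂ y z)
    (hk : ContinuousAt k z₀) (hl : ContinuousAt l z₀)
    (hy0 : y z₀ ≠ 0) (hk0 : k z₀ ≠ 0) (hl0 : l z₀ ≠ 0)
    (h1 : ∀ᶠ z in 𝓝 z₀, k z ^ 2 = α * x z ^ 2 + β * y z ^ 2)
    (h2 : ∀ᶠ z in 𝓝 z₀, l z ^ 2 = γ * x z ^ 2 + δ * y z ^ 2) :
    ∃ f : V → ℂ, (∀ᶠ z in 𝓝 z₀, DifferentiableAt ℂ f z ∧ ∀ v, k z * l z * fderiv ℂ f z v =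
        c * (y z * fderiv ℂ x z v - x z * fderiv ℂ y z v)) ∧
      ∀ᶠ z in 𝓝 z₀, f z = f z₀ → ∃ d : ℂ, d ≠ 0 ∧ x z = d * x z₀ ∧ y z = d * y z₀ ∧
        k z = d * k z₀ ∧ l z = d * l z₀ := by
  have hyc : ContinuousAt y z₀ := hy.self_of_nhds.continuousAt
  have hxc : ContinuousAt x z₀ := hx.self_of_nhds.continuousAt
  have hyne : ∀ᶠ z in 𝓝 z₀, y z ≠ 0 := hyc.eventually_ne hy0
  have hkne : ∀ᶠ z in 𝓝 z₀, k z ≠ 0 := hk.eventually_ne hk0
  have hlne : ∀ᶠ z in 𝓝 z₀, l z ≠ 0 := hl.eventually_ne hl0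
  obtain ⟨f, hf1, hf2⟩ := prim_one (t := fun z => x z / y z)
    (m := fun z => k z * l z / (c * y z ^ 2)) (z₀ := z₀)
    (R := fun s => (α * s ^ 2 + β) * (γ * s ^ 2 + δ) / c ^ 2) (by fun_prop)
    (by
      filter_upwards [hx, hy, hyne] with z hx hy hyne
      exact (hasFDerivAt_quot hx hy hyne).differentiableAt)
    ((hk.mul hl).div (continuousAt_const.mul (hyc.pow 2)) (mul_ne_zero hc (pow_ne_zero 2 hy0)))
    (div_ne_zero (mul_ne_zero hk0 hl0) (mul_ne_zero hc (pow_ne_zero 2 hy0)))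
    (by
      filter_upwards [h1, h2, hyne] with z h1 h2 hyne
      have : (k z * l z / (c * y z ^ 2)) ^ 2 = (k z ^ 2) * (l z ^ 2) / (c ^ 2 * y z ^ 4) := by ring
      rw [this, h1, h2]
      field_simp)
  refine ⟨f, ?_, ?_⟩
  · filter_upwards [hf1, hx, hy, hyne, hkne, hlne] with z hf hx hy hyne hkne hlne
    refine ⟨hf.differentiableAt, fun v => ?_⟩
    rw [hf.fderiv]
    rw [(hasFDerivAt_quot hx hy hyne).fderiv]
    show k z * l z * ((k z * l z / (c * y z ^ 2))⁻¹ *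
      ((y z ^ 2)⁻¹ * (y z * fderiv ℂ x z v - x z * fderiv ℂ y z v))) = _
    field_simp
  · have hcont : ContinuousAt (fun z => y z / y z₀) z₀ := hyc.div_const _
    have e1 := eventually_eq_of_sq hk (hcont.mul (continuousAt_const (y := k z₀)))
      (by simp [div_self hy0]) hk0
    have e2 := eventually_eq_of_sq hl (hcont.mul (continuousAt_const (y := l z₀)))
      (by simp [div_self hy0]) hl0
    filter_upwards [hf2, hyne, e1, e2, h1, h2] with z hf hyne e1 e2 h1z h2z hfz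
    have ht := hf hfz
    have hx' : x z = y z / y z₀ * x z₀ := by
      field_simp at ht ⊢
      linear_combination ht
    refine ⟨y z / y z₀, div_ne_zero hyne hy0, hx', by field_simp, e1 ?_, e2 ?_⟩
    · have h0 := h1.self_of_nhds
      show k z ^ 2 = (y z / y z₀ * k z₀) ^ 2
      rw [h1z, hx']
      have : (y z / y z₀ * k z₀) ^ 2 = (y z / y z₀) ^ 2 * k z₀ ^ 2 := by ring
      rw [this, h0]
      field_simp
    · have h0 := h2.self_of_nhds
      show l z ^ 2 = (y z / y z₀ * l z₀) ^ 2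
      rw [h2z, hx']
      have : (y z / y z₀ * l z₀) ^ 2 = (y z / y z₀) ^ 2 * l z₀ ^ 2 := by ring
      rw [this, h0]
      field_simp

end Pool.Agent.Y189.UD
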