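import Mathlib
import Pool.Agent.Y189.UD.Prim1

/-! Local primitives of the invariant differential of the elliptic curve `EC`, continued. -/

set_option autoImplicit false
open Set Filter Topology Metric
open Pool.Agent.Helper10.UC (EC)

namespace Pool.Agent.Y189.UD

variable {V : Type*} [NormedAddCommGroup V] [NormedSpace ℂ V]

/-- derivative of the `i`-th coordinate in the direction `v` -/
noncomputable def dc (α : V → Fin 4 → ℂ) (i : Fin 4) (z v : V) : ℂ := fderiv ℂ (fun y => α y i) z v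

/-- `f` is a primitive of the invariant differential pulled back by `α`, at `z` -/
structure Rel (f : V → ℂ) (α : V → Fin 4 → ℂ) (z : V) : Prop where
  df : DifferentiableAt ℂ f z
  dα : DifferentiableAt ℂ α z
  r1 : ∀ v, α z 2 * α z 3 * fderiv ℂ f z v = α z 1 * dc α 0 z v - α z 0 * dc α 1 z v
  r2 : ∀ v, 2 * α z 0 * α z 3 * fderiv ℂ f z v = α z 1 * dc α 2 z v - α z 2 * dc α 1 z v
  r3 : ∀ v, 3 * α z 0 * α z 2 * fderiv ℂ f z v = α z 1 * dc α 3 z v - α z 3 * dc α 1 z v

theorem dc_has {α : V → Fin 4 → ℂ} {z : V} (hα : DifferentiableAt ℂ α z) (i : Fin 4) :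
    HasFDerivAt (fun y => α y i) (fderiv ℂ (fun y => α y i) z) z :=
  (differentiableAt_pi.1 hα i).hasFDerivAt

theorem ec_diff {α : V → Fin 4 → ℂ} {z : V} (hα : DifferentiableAt ℂ α z)
    (hE : ∀ᶠ y in 𝓝 z, EC (α y)) (v : V) :
    α z 2 * dc α 2 z v = 2 * α z 0 * dc α 0 z v + α z 1 * dc α 1 z v ∧
    α z 3 * dc α 3 z v = 3 * α z 0 * dc α 0 z v + α z 1 * dc α 1 z v := by
  have key : ∀ (i : Fin 4) (c : ℂ), (∀ᶠ y in 𝓝 z, α y i ^ 2 = c * α y 0 ^ 2 + α y 1 ^ 2) →
      α z i * dc α i z v = c * α z 0 * dc α 0 z v + α z 1 * dc α 1 z v := by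
    intro i c h
    have h1 : (fun y => α y i * α y i - (c * (α y 0 * α y 0) + α y 1 * α y 1)) =ᶠ[𝓝 z]
        fun _ => (0 : ℂ) := by
      filter_upwards [h] with y hy
      linear_combination hy
    have h2 : HasFDerivAt (fun y => α y i * α y i - (c * (α y 0 * α y 0) + α y 1 * α y 1)) 
        ((α z i • fderiv ℂ (fun y => α y i) z + α z i • fderiv ℂ (fun y => α y i) z) -
          (c • (α z 0 • fderiv ℂ (fun y => α y 0) z + α z 0 • fderiv ℂ (fun y => α y 0) z) +
          (α z 1 • fderiv ℂ (fun y => α y 1) z + α z 1 • fderiv ℂ (fun y => α y 1) z))) z := by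
      exact ((dc_has hα i).mul (dc_has hα i)).sub
        ((((dc_has hα 0).mul (dc_has hα 0)).const_mul c).add ((dc_has hα 1).mul (dc_has hα 1)))
    have h3 := h2.unique ((hasFDerivAt_const (0 : ℂ) z).congr_of_eventuallyEq h1)
    have h4 : (α z i * dc α i z v + α z i * dc α i z v) -
        (c * (α z 0 * dc α 0 z v + α z 0 * dc α 0 z v) +
          (α z 1 * dc α 1 z v + α z 1 * dc α 1 z v)) = 0 := by
      have := DFunLike.congr_fun h3 v
      exact this
    linear_combination h4 / 2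
  exact ⟨key 2 2 (hE.mono fun y hy => hy.1), key 3 3 (hE.mono fun y hy => hy.2)⟩

theorem ec_ne {a : Fin 4 → ℂ} (h : EC a) (h0 : a ≠ 0) :
    (a 1 = 0 ∧ a 0 ≠ 0 ∧ a 2 ≠ 0 ∧ a 3 ≠ 0) ∨ (a 1 ≠ 0 ∧ a 0 ≠ 0 ∧ a 2 = 0 ∧ a 3 ≠ 0) ∨
    (a 1 ≠ 0 ∧ a 0 ≠ 0 ∧ a 2 ≠ 0 ∧ a 3 = 0) ∨ (a 1 ≠ 0 ∧ a 2 ≠ 0 ∧ a 3 ≠ 0) := by
  obtain ⟨h2, h3⟩ := h
  by_cases h1 : a 1 = 0
  · left
    have ha0 : a 0 ≠ 0 := by
      intro ha
      apply h0
      have h22 : a 2 = 0 := by
        rw [ha, h1] at h2
        simpa using h2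
      have h33 : a 3 = 0 := by
        rw [ha, h1] at h3
        simpa using h3
      funext i
      fin_cases i
      · exact ha
      · exact h1
      · exact h22
      · exact h33
    refine ⟨h1, ha0, ?_, ?_⟩
    · intro ha
      rw [ha, h1] at h2
      apply ha0
      have : a 0 ^ 2 = 0 := by linear_combination (-1 / 2 : ℂ) * h2
      exact pow_eq_zero_iff (two_ne_zero) |>.1 this
    · intro ha
      rw [ha, h1] at h3
      apply ha0
      have : a 0 ^ 2 = 0 := by linear_combination (-1 / 3 : ℂ) * h3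
      exact pow_eq_zero_iff (two_ne_zero) |>.1 this
  · right
    by_cases ha2 : a 2 = 0
    · left
      rw [ha2] at h2
      refine ⟨h1, ?_, ha2, ?_⟩
      · intro ha
        rw [ha] at h2
        apply h1
        have : a 1 ^ 2 = 0 := by linear_combination - h2
        exact pow_eq_zero_iff (two_ne_zero) |>.1 this
      · intro ha
        rw [ha] at h3
        apply h1
        have : a 1 ^ 2 = 0 := by linear_combination 2 * h3 - 3 * h2
        exact pow_eq_zero_iff (two_ne_zero) |>.1 this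
    · right
      by_cases ha3 : a 3 = 0
      · left
        rw [ha3] at h3
        refine ⟨h1, ?_, ha2, ha3⟩
        intro ha
        rw [ha] at h3
        apply h1
        have : a 1 ^ 2 = 0 := by linear_combination - h3
        exact pow_eq_zero_iff (two_ne_zero) |>.1 this
      · right
        exact ⟨h1, ha2, ha3⟩

theorem exists_rel {α : V → Fin 4 → ℂ} {z₀ : V}
    (hα : ∀ᶠ z in 𝓝 z₀, DifferentiableAt ℂ α z) (hE : ∀ᶠ z in 𝓝 z₀, EC (α z))
    (h0 : α z₀ ≠ 0) :
    ∃ f : V → ℂ, (∀ᶠ z in 𝓝 z₀, Rel f α z) ∧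
      ∀ᶠ z in 𝓝 z₀, f z = f z₀ → ∃ d : ℂ, d ≠ 0 ∧ α z = d • α z₀ := by
  have hi : ∀ i, ∀ᶠ z in 𝓝 z₀, DifferentiableAt ℂ (fun y => α y i) z := fun i => by
    filter_upwards [hα] with z hz
    exact differentiableAt_pi.1 hz i
  have hc : ∀ i, ContinuousAt (fun y => α y i) z₀ := fun i => (hi i).self_of_nhds.continuousAt
  have hne : ∀ i, α z₀ i ≠ 0 → ∀ᶠ z in 𝓝 z₀, α z i ≠ 0 := fun i h => (hc i).eventually_ne h
  have hEE := hE.eventually_nhds
  rcases ec_ne hE.self_of_nhds h0 with ⟨-, n0, n2, n3⟩ | ⟨n1, n0, -, n3⟩ | ⟨n1, n0, n2, -⟩ |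
    ⟨n1, n2, n3⟩
  · obtain ⟨f, hf1, hf2⟩ := prim_gen (x := fun z => α z 1) (y := fun z => α z 0)
      (k := fun z => α z 2) (l := fun z => α z 3) (α := 1) (β := 2) (γ := 1) (δ := 3) (c := -1)
      (by norm_num) (hi 1) (hi 0) (hc 2) (hc 3) n0 n2 n3
      (hE.mono fun z hz => by linear_combination hz.1)
      (hE.mono fun z hz => by linear_combination hz.2)
    refine ⟨f, ?_, ?_⟩
    · filter_upwards [hf1, hα, hEE, hne 0 n0, hne 2 n2, hne 3 n3] with z hf hα hE m0 m2 m3
      have r1 : ∀ v, α z 2 * α z 3 * fderiv ℂ f z v =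
          α z 1 * dc α 0 z v - α z 0 * dc α 1 z v := fun v => by
        have := hf.2 v
        unfold dc
        linear_combination this
      refine ⟨hf.1, hα, r1, fun v => ?_, fun v => ?_⟩
      · have h := (ec_diff hα hE v).1
        have e := hE.self_of_nhds
        apply mul_left_cancel₀ m2
        linear_combination 2 * α z 0 * r1 v - α z 1 * h + dc α 1 z v * e.1
      · have h := (ec_diff hα hE v).2
        have e := hE.self_of_nhds
        apply mul_left_cancel₀ m3
        linear_combination 3 * α z 0 * r1 v - α z 1 * h + dc α 1 z v * e.2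
    · filter_upwards [hf2] with z hz h
      obtain ⟨d, hd, h1, h0, h2, h3⟩ := hz h
      refine ⟨d, hd, ?_⟩
      funext i
      fin_cases i
      · exact h0
      · exact h1
      · exact h2
      · exact h3
  · obtain ⟨f, hf1, hf2⟩ := prim_gen (x := fun z => α z 2) (y := fun z => α z 1)
      (k := fun z => α z 0) (l := fun z => α z 3) (α := 1 / 2) (β := - 1 / 2) (γ := 3 / 2)
      (δ := - 1 / 2) (c := 1 / 2)
      (by norm_num) (hi 2) (hi 1) (hc 0) (hc 3) n1 n0 n3
      (hE.mono fun z hz => by linear_combination (- 1 / 2 : ℂ) * hz.1)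
      (hE.mono fun z hz => by linear_combination hz.2 - (3 / 2 : ℂ) * hz.1)
    refine ⟨f, ?_, ?_⟩
    · filter_upwards [hf1, hα, hEE, hne 0 n0, hne 1 n1, hne 3 n3] with z hf hα hE m0 m1 m3
      have r2 : ∀ v, 2 * α z 0 * α z 3 * fderiv ℂ f z v =
          α z 1 * dc α 2 z v - α z 2 * dc α 1 z v := fun v => by
        have := hf.2 v
        unfold dc
        linear_combination 2 * this
      have r1 : ∀ v, α z 2 * α z 3 * fderiv ℂ f z v =
          α z 1 * dc α 0 z v - α z 0 * dc α 1 z v := fun v => by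
        have h := (ec_diff hα hE v).1
        have e := hE.self_of_nhds
        apply mul_left_cancel₀ (mul_ne_zero two_ne_zero m0)
        linear_combination α z 2 * r2 v + α z 1 * h - dc α 1 z v * e.1
      refine ⟨hf.1, hα, r1, r2, fun v => ?_⟩
      have h := (ec_diff hα hE v).2
      have e := hE.self_of_nhds
      apply mul_left_cancel₀ m3
      linear_combination 3 * α z 0 * r1 v - α z 1 * h + dc α 1 z v * e.2
    · filter_upwards [hf2] with z hz h
      obtain ⟨d, hd, h2, h1, h0, h3⟩ := hz h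
      refine ⟨d, hd, ?_⟩
      funext i
      fin_cases i
      · exact h0
      · exact h1
      · exact h2
      · exact h3
  · obtain ⟨f, hf1, hf2⟩ := prim_gen (x := fun z => α z 3) (y := fun z => α z 1)
      (k := fun z => α z 0) (l := fun z => α z 2) (α := 1 / 3) (β := - 1 / 3) (γ := 2 / 3)
      (δ := 1 / 3) (c := 1 / 3)
      (by norm_num) (hi 3) (hi 1) (hc 0) (hc 2) n1 n0 n2
      (hE.mono fun z hz => by linear_combination (- 1 / 3 : ℂ) * hz.2)
      (hE.mono fun z hz => by linear_combination hz.1 - (2 / 3 : ℂ) * hz.2)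
    refine ⟨f, ?_, ?_⟩
    · filter_upwards [hf1, hα, hEE, hne 0 n0, hne 1 n1, hne 2 n2] with z hf hα hE m0 m1 m2
      have r3 : ∀ v, 3 * α z 0 * α z 2 * fderiv ℂ f z v =
          α z 1 * dc α 3 z v - α z 3 * dc α 1 z v := fun v => by
        have := hf.2 v
        unfold dc
        linear_combination 3 * this
      have r1 : ∀ v, α z 2 * α z 3 * fderiv ℂ f z v =
          α z 1 * dc α 0 z v - α z 0 * dc α 1 z v := fun v => by
        have h := (ec_diff hα hE v).2
        have e := hE.self_of_nhds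
        apply mul_left_cancel₀ (mul_ne_zero three_ne_zero m0)
        linear_combination α z 3 * r3 v + α z 1 * h - dc α 1 z v * e.2
      refine ⟨hf.1, hα, r1, fun v => ?_, r3⟩
      have h := (ec_diff hα hE v).1
      have e := hE.self_of_nhds
      apply mul_left_cancel₀ m2
      linear_combination 2 * α z 0 * r1 v - α z 1 * h + dc α 1 z v * e.1
    · filter_upwards [hf2] with z hz h
      obtain ⟨d, hd, h3, h1, h0, h2⟩ := hz h
      refine ⟨d, hd, ?_⟩
      funext i
      fin_cases i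
      · exact h0
      · exact h1
      · exact h2
      · exact h3
  · obtain ⟨f, hf1, hf2⟩ := prim_gen (x := fun z => α z 0) (y := fun z => α z 1)
      (k := fun z => α z 2) (l := fun z => α z 3) (α := 2) (β := 1) (γ := 3) (δ := 1) (c := 1)
      (by norm_num) (hi 0) (hi 1) (hc 2) (hc 3) n1 n2 n3
      (hE.mono fun z hz => by linear_combination hz.1)
      (hE.mono fun z hz => by linear_combination hz.2)
    refine ⟨f, ?_, ?_⟩
    · filter_upwards [hf1, hα, hEE, hne 1 n1, hne 2 n2, hne 3 n3] with z hf hα hE m0 m2 m3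
      have r1 : ∀ v, α z 2 * α z 3 * fderiv ℂ f z v =
          α z 1 * dc α 0 z v - α z 0 * dc α 1 z v := fun v => by
        have := hf.2 v
        unfold dc
        linear_combination this
      refine ⟨hf.1, hα, r1, fun v => ?_, fun v => ?_⟩
      · have h := (ec_diff hα hE v).1
        have e := hE.self_of_nhds
        apply mul_left_cancel₀ m2
        linear_combination 2 * α z 0 * r1 v - α z 1 * h + dc α 1 z v * e.1
      · have h := (ec_diff hα hE v).2
        have e := hE.self_of_nhds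
        apply mul_left_cancel₀ m3
        linear_combination 3 * α z 0 * r1 v - α z 1 * h + dc α 1 z v * e.2
    · filter_upwards [hf2] with z hz h
      obtain ⟨d, hd, h0, h1, h2, h3⟩ := hz h
      refine ⟨d, hd, ?_⟩
      funext i
      fin_cases i
      · exact h0
      · exact h1
      · exact h2
      · exact h3

theorem rel_unique {f f' : V → ℂ} {α α' : V → Fin 4 → ℂ} {z₀ : V}
    (hf : ∀ᶠ z in 𝓝 z₀, Rel f α z) (hf' : ∀ᶠ z in 𝓝 z₀, Rel f' α' z)
    (hE : ∀ᶠ z in 𝓝 z₀, EC (α z)) (h0 : α z₀ ≠ 0)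
    (hp : ∀ᶠ z in 𝓝 z₀, ∃ c : ℂ, c ≠ 0 ∧ α' z = c • α z) :
    ∀ᶠ z in 𝓝 z₀, f z - f' z = f z₀ - f' z₀ := by
  obtain ⟨i, hi⟩ : ∃ i, α z₀ i ≠ 0 := by
    by_contra hcon
    push Not at hcon
    exact h0 (funext hcon)
  have hc : ContinuousAt (fun y => α y i) z₀ :=
    (differentiableAt_pi.1 hf.self_of_nhds.dα i).continuousAt
  have hine : ∀ᶠ z in 𝓝 z₀, α z i ≠ 0 := hc.eventually_ne hi
  have hmu : ∀ᶠ z in 𝓝 z₀, α' z i / α z i ≠ 0 ∧ α' z = (α' z i / α z i) • α z := by
    filter_upwards [hp, hine] with z hz hne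
    obtain ⟨c, hc, h⟩ := hz
    have : α' z i / α z i = c := by
      rw [h, Pi.smul_apply, smul_eq_mul, mul_div_assoc, div_self hne, mul_one]
    rw [this]
    exact ⟨hc, h⟩
  have hD : ∀ᶠ z in 𝓝 z₀, fderiv ℂ f z = fderiv ℂ f' z := by
    filter_upwards [hf, hf', hE, hine, hmu.eventually_nhds] with z h1 h2 hE hne hmu
    ext v
    have hμd : HasFDerivAt (fun y => α' y i / α y i)
        ((α z i ^ 2)⁻¹ • (α z i • fderiv ℂ (fun y => α' y i) z -
          α' z i • fderiv ℂ (fun y => α y i) z)) z :=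
      hasFDerivAt_quot (differentiableAt_pi.1 h2.dα i) (differentiableAt_pi.1 h1.dα i) hne
    set μ : V → ℂ := fun y => α' y i / α y i with hμ
    set L := ((α z i ^ 2)⁻¹ • (α z i • fderiv ℂ (fun y => α' y i) z -
          α' z i • fderiv ℂ (fun y => α y i) z))
    have hμz : μ z ≠ 0 := hmu.self_of_nhds.1
    have hval : ∀ j, α' z j = μ z * α z j := fun j => by
      have := congrFun hmu.self_of_nhds.2 j
      exact this
    have hder : ∀ j, dc α' j z v = μ z * dc α j z v + L v * α z j := by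
      intro j
      have e1 : (fun y => α' y j) =ᶠ[𝓝 z] fun y => μ y * α y j := by
        filter_upwards [hmu] with y hy
        exact congrFun hy.2 j
      have e2 : HasFDerivAt (fun y => μ y * α y j)
          (μ z • fderiv ℂ (fun y => α y j) z + α z j • L) z := hμd.mul (dc_has h1.dα j)
      have e3 := (e2.congr_of_eventuallyEq e1).fderiv
      unfold dc
      rw [e3]
      show μ z * fderiv ℂ (fun y => α y j) z v + α z j * L v = _
      ring
    have s1 := h1.r1 v
    have s2 := h1.r2 v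
    have s3 := h1.r3 v
    have t1 := h2.r1 v
    have t2 := h2.r2 v
    have t3 := h2.r3 v
    rw [hder, hder, hval, hval, hval, hval] at t1
    rw [hder, hder, hval, hval, hval, hval] at t2
    rw [hder, hder, hval, hval, hval, hval] at t3
    have u1 : α z 2 * α z 3 * (fderiv ℂ f z v - fderiv ℂ f' z v) = 0 := by
      apply mul_left_cancel₀ (pow_ne_zero 2 hμz)
      linear_combination μ z ^ 2 * s1 - t1
    have u2 : α z 0 * α z 3 * (fderiv ℂ f z v - fderiv ℂ f' z v) = 0 := by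
      apply mul_left_cancel₀ (pow_ne_zero 2 hμz)
      linear_combination (μ z ^ 2 * s2 - t2) / 2
    have u3 : α z 0 * α z 2 * (fderiv ℂ f z v - fderiv ℂ f' z v) = 0 := by
      apply mul_left_cancel₀ (pow_ne_zero 2 hμz)
      linear_combination (μ z ^ 2 * s3 - t3) / 3
    have hz0 : α z ≠ 0 := fun h => hne (congrFun h i)
    apply sub_eq_zero.1
    rcases ec_ne hE hz0 with ⟨-, n0, n2, n3⟩ | ⟨n1, n0, -, n3⟩ | ⟨n1, n0, n2, -⟩ |
      ⟨n1, n2, n3⟩
    · exact (mul_eq_zero.1 u1).resolve_left (mul_ne_zero n2 n3)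
    · exact (mul_eq_zero.1 u2).resolve_left (mul_ne_zero n0 n3)
    · exact (mul_eq_zero.1 u3).resolve_left (mul_ne_zero n0 n2)
    · exact (mul_eq_zero.1 u1).resolve_left (mul_ne_zero n2 n3)
  obtain ⟨r, hr, hb⟩ := Metric.eventually_nhds_iff_ball.1 (hf.and (hf'.and hD))
  refine Metric.eventually_nhds_iff_ball.2 ⟨r, hr, fun z hz => ?_⟩
  refine isOpen_ball.is_const_of_fderiv_eq_zero (𝕜 := ℂ) (f := fun z => f z - f' z) (s := ball z₀ r)
    (convex_ball z₀ r).isPreconnected
    (fun y hy => ((hb y hy).1.df.sub (hb y hy).2.1.df).differentiableWithinAt) ?_ hz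
    (mem_ball_self hr)
  intro y hy
  rw [fderiv_fun_sub (hb y hy).1.df (hb y hy).2.1.df, (hb y hy).2.2, sub_self]
  rfl

theorem Rel.comp {W : Type*} [NormedAddCommGroup W] [NormedSpace ℂ W] {f : V → ℂ}
    {α : V → Fin 4 → ℂ} {ψ : W → V} {w : W} (h : Rel f α (ψ w)) (hψ : DifferentiableAt ℂ ψ w) :
    Rel (f ∘ ψ) (α ∘ ψ) w := by
  have hf : fderiv ℂ (f ∘ ψ) w = (fderiv ℂ f (ψ w)).comp (fderiv ℂ ψ w) :=
    fderiv_comp w h.df hψ
  have hd : ∀ i v, dc (α ∘ ψ) i w v = dc α i (ψ w) (fderiv ℂ ψ w v) := fun i v => by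
    unfold dc
    have : fderiv ℂ ((fun y => α y i) ∘ ψ) w = (fderiv ℂ (fun y => α y i) (ψ w)).comp
        (fderiv ℂ ψ w) := fderiv_comp w (differentiableAt_pi.1 h.dα i) hψ
    exact DFunLike.congr_fun this v
  refine ⟨h.df.comp w hψ, h.dα.comp w hψ, fun v => ?_, fun v => ?_, fun v => ?_⟩
  · rw [hf, hd, hd]
    exact h.r1 _
  · rw [hf, hd, hd]
    exact h.r2 _
  · rw [hf, hd, hd]
    exact h.r3 _

theorem Rel.congr {f f' : V → ℂ} {α α' : V → Fin 4 → ℂ} {z : V} (h : Rel f α z)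
    (hf : f' =ᶠ[𝓝 z] f) (hα : α' =ᶠ[𝓝 z] α) : Rel f' α' z := by
  have h1 : ∀ i, dc α' i z = dc α i z := fun i => by
    funext v
    unfold dc
    have : (fun y => α' y i) =ᶠ[𝓝 z] fun y => α y i := hα.mono fun y hy => congrFun hy i
    rw [this.fderiv_eq]
  refine ⟨h.df.congr_of_eventuallyEq hf, h.dα.congr_of_eventuallyEq hα, fun v => ?_, fun v => ?_,
    fun v => ?_⟩
  · rw [hf.fderiv_eq, h1, h1, hα.eq_of_nhds]
    exact h.r1 v
  · rw [hf.fderiv_eq, h1, h1, hα.eq_of_nhds]
    exact h.r2 v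
  · rw [hf.fderiv_eq, h1, h1, hα.eq_of_nhds]
    exact h.r3 v

end Pool.Agent.Y189.UD
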