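import Mathlib
import Pool.Agent.Y189.UD.Prim2
import Pool.Agent.Y189.UD.Mfd
import Pool.Agent.Y189.UD.Glue

/-! Global primitives on a simply connected complex manifold. -/

set_option autoImplicit false
set_option linter.unusedSectionVars false
open Set Filter Topology Metric
open Pool.Agent.Helper10.UC (EC)
open scoped Manifold ContDiff

namespace Pool.Agent.Y189.UD

variable {V : Type} [NormedAddCommGroup V] [NormedSpace ℂ V] {E : Type*} [TopologicalSpace E]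
  [ChartedSpace V E] [IsManifold 𝓘(ℂ, V) 1 E]

/-- local data -/
theorem prim_local (cls : E → Set (Fin 4 → ℂ)) (h1 : ∀ e, ∀ a ∈ cls e, a ≠ 0 ∧ EC a)
    (h3 : ∀ e : E, ∃ U : Set E, IsOpen U ∧ e ∈ U ∧ ∃ a : E → (Fin 4 → ℂ),
      MDifferentiableOn 𝓘(ℂ, V) 𝓘(ℂ, Fin 4 → ℂ) a U ∧ ∀ e' ∈ U, a e' ∈ cls e') (x : E) :
    ∃ (U : Set E) (a : E → Fin 4 → ℂ) (F : E → ℂ), IsOpen U ∧ x ∈ U ∧ (∀ e ∈ U, a e ∈ cls e) ∧
      (∀ e ∈ U, ∀ᶠ z in 𝓝 (chartAt V e e), Rel (F ∘ (chartAt V e).symm)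
        (a ∘ (chartAt V e).symm) z) ∧
      ∀ᶠ e' in 𝓝 x, F e' = F x → ∃ d : ℂ, d ≠ 0 ∧ a e' = d • a x := by
  obtain ⟨U, hU, hxU, a, ha, hacls⟩ := h3 x
  set φ := chartAt V x with hφ
  have hxs : x ∈ φ.source := mem_chart_source V x
  have htend : Tendsto φ.symm (𝓝 (φ x)) (𝓝 x) := by
    have := φ.symm.continuousAt (φ.map_source hxs)
    rwa [ContinuousAt, φ.left_inv hxs] at this
  have hev : ∀ᶠ z in 𝓝 (φ x), φ.symm z ∈ U ∧ z ∈ φ.target :=
    (htend.eventually_mem (hU.mem_nhds hxU)).and (φ.open_target.mem_nhds (φ.map_source hxs))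
  obtain ⟨f, hf1, hf2⟩ := exists_rel (α := fun z => a (φ.symm z)) (z₀ := φ x)
    (by
      filter_upwards [hev] with z hz
      exact diff_fun_chart (V := V) hz.2 ((ha _ hz.1).mdifferentiableAt (hU.mem_nhds hz.1)))
    (by
      filter_upwards [hev] with z hz
      exact (h1 _ _ (hacls _ hz.1)).2)
    (by
      show a (φ.symm (φ x)) ≠ 0
      rw [φ.left_inv hxs]
      exact (h1 _ _ (hacls _ hxU)).1)
  set S : Set V := {z | ∀ᶠ z' in 𝓝 z, Rel f (fun z => a (φ.symm z)) z'} with hS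
  have hSo : IsOpen S := isOpen_setOf_eventually_nhds
  refine ⟨U ∩ (φ.source ∩ φ ⁻¹' S), a, fun e => f (φ e),
    hU.inter (φ.isOpen_inter_preimage hSo), ⟨hxU, hxs, hf1⟩, fun e he => hacls e he.1, ?_, ?_⟩
  · rintro e ⟨heU, hes, heS⟩
    set θ := chartAt V e with hθ
    have hee : e ∈ θ.source := mem_chart_source V e
    have htend' : Tendsto θ.symm (𝓝 (θ e)) (𝓝 e) := by
      have := θ.symm.continuousAt (θ.map_source hee)
      rwa [ContinuousAt, θ.left_inv hee] at this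
    have hsrc : ∀ᶠ z in 𝓝 (θ e), θ.symm z ∈ φ.source ∧ z ∈ θ.target :=
      (htend'.eventually_mem (φ.open_source.mem_nhds hes)).and
        (θ.open_target.mem_nhds (θ.map_source hee))
    have hSev : ∀ᶠ z in 𝓝 (θ e), Rel f (fun z => a (φ.symm z)) (φ (θ.symm z)) := by
      have : Tendsto (fun z => φ (θ.symm z)) (𝓝 (θ e)) (𝓝 (φ e)) :=
        (φ.continuousAt hes).tendsto.comp htend'
      exact this.eventually heS
    filter_upwards [hsrc.eventually_nhds, hSev] with z hz hRel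
    have hψ : DifferentiableAt ℂ (fun v => φ (θ.symm v)) z := by
      have := diff_chart (V := V) (W := V) (f := (id : E → E)) (x₀ := e) (y₀ := x)
        hz.self_of_nhds.2 hz.self_of_nhds.1 mdifferentiableAt_id
      exact this
    refine (Rel.comp (ψ := fun v => φ (θ.symm v)) hRel hψ).congr ?_ ?_
    · exact Eventually.of_forall fun v => rfl
    · filter_upwards [hz] with v hv
      show a (θ.symm v) = a (φ.symm (φ (θ.symm v)))
      rw [φ.left_inv hv.1]
  · have h4 := (φ.continuousAt hxs).eventually hf2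
    filter_upwards [h4, φ.open_source.mem_nhds hxs] with e' he' hs' hFe
    obtain ⟨d, hd, h⟩ := he' hFe
    refine ⟨d, hd, ?_⟩
    rwa [φ.left_inv hs', φ.left_inv hxs] at h

theorem prim [SimplyConnectedSpace E] [LocallyPathConnectedSpace E]
    (cls : E → Set (Fin 4 → ℂ)) (h1 : ∀ e, ∀ a ∈ cls e, a ≠ 0 ∧ EC a)
    (h2 : ∀ e, ∀ a ∈ cls e, ∀ a' ∈ cls e, ∃ c : ℂ, c ≠ 0 ∧ a' = c • a)
    (h3 : ∀ e : E, ∃ U : Set E, IsOpen U ∧ e ∈ U ∧ ∃ a : E → (Fin 4 → ℂ),
      MDifferentiableOn 𝓘(ℂ, V) 𝓘(ℂ, Fin 4 → ℂ) a U ∧ ∀ e' ∈ U, a e' ∈ cls e') :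
    ∃ F : E → ℂ, MDifferentiable 𝓘(ℂ, V) 𝓘(ℂ, ℂ) F ∧
      ∀ e, ∀ᶠ e' in 𝓝 e, F e' = F e → ∀ a ∈ cls e, ∀ a' ∈ cls e', ∃ c : ℂ, c ≠ 0 ∧ a' = c • a := by
  choose U a f hU hxU hcls hrel hloc using prim_local (V := V) cls h1 h3
  obtain ⟨F, hF⟩ := glue U hU hxU f (by
    rintro x y z ⟨hzx, hzy⟩
    set φ := chartAt V z with hφ
    have hzs : z ∈ φ.source := mem_chart_source V z
    have htend : Tendsto φ.symm (𝓝 (φ z)) (𝓝 z) := by
      have := φ.symm.continuousAt (φ.map_source hzs)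
      rwa [ContinuousAt, φ.left_inv hzs] at this
    have hev : ∀ᶠ v in 𝓝 (φ z), φ.symm v ∈ U x ∩ U y :=
      htend.eventually_mem (((hU x).inter (hU y)).mem_nhds ⟨hzx, hzy⟩)
    have h5 := rel_unique (hrel x z hzx) (hrel y z hzy)
      (by
        filter_upwards [hev] with v hv
        exact (h1 _ _ (hcls x _ hv.1)).2)
      (by
        show a x (φ.symm (φ z)) ≠ 0
        rw [φ.left_inv hzs]
        exact (h1 _ _ (hcls x z hzx)).1)
      (by
        filter_upwards [hev] with v hv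
        exact h2 _ _ (hcls x _ hv.1) _ (hcls y _ hv.2))
    have h6 := (φ.continuousAt hzs).eventually h5
    filter_upwards [h6, φ.open_source.mem_nhds hzs] with w hw hws
    have hw' : f x (φ.symm (φ w)) - f y (φ.symm (φ w)) =
      f x (φ.symm (φ z)) - f y (φ.symm (φ z)) := hw
    rwa [φ.left_inv hws, φ.left_inv hzs] at hw')
  refine ⟨F, ?_, ?_⟩
  · intro z
    set φ := chartAt V z with hφ
    have hzs : z ∈ φ.source := mem_chart_source V z
    have hd : DifferentiableAt ℂ (f z ∘ φ.symm) (φ z) := (hrel z z (hxU z)).self_of_nhds.df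
    have hcont : ContinuousAt (f z) z := by
      have h5 : ContinuousAt ((f z ∘ φ.symm) ∘ φ) z :=
        ContinuousAt.comp hd.continuousAt (φ.continuousAt hzs)
      refine h5.congr ?_
      filter_upwards [φ.open_source.mem_nhds hzs] with w hw
      show f z (φ.symm (φ w)) = f z w
      rw [φ.left_inv hw]
    have h6 : MDifferentiableAt 𝓘(ℂ, V) 𝓘(ℂ, ℂ) (f z) z :=
      (mdiff_fun_chart_iff (V := V) (x₀ := z) hzs).2 ⟨hcont, hd⟩
    have h7 : MDifferentiableAt 𝓘(ℂ, V) 𝓘(ℂ, ℂ) (fun w => f z w + (F z - f z z)) z := by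
      rw [mdiff_fun_chart_iff (V := V) (x₀ := z) hzs]
      refine ⟨hcont.add continuousAt_const, ?_⟩
      exact hd.add_const _
    refine h7.congr_of_eventuallyEq ?_
    filter_upwards [hF z z (hxU z)] with w hw
    linear_combination hw
  · intro e
    filter_upwards [hF e e (hxU e), hloc e, (hU e).mem_nhds (hxU e)] with e' h4 h5 h6 hFe b hb b' hb'
    obtain ⟨d, hd, h7⟩ := h5 (by linear_combination hFe - h4)
    obtain ⟨c, hc, h8⟩ := h2 e b hb (a e e) (hcls e e (hxU e))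
    obtain ⟨c', hc', h9⟩ := h2 e' (a e e') (hcls e e' h6) b' hb'
    refine ⟨c' * d * c, mul_ne_zero (mul_ne_zero hc' hd) hc, ?_⟩
    rw [h9, h7, h8, smul_smul, smul_smul]

end Pool.Agent.Y189.UD
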