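import Mathlib
import Pool.Agent.Y189.UD.Prim3
import Pool.Agent.Y189.UD.Defs
import Pool.Agent.Helper10.UC.J_mem_MM_iff
import Pool.Agent.Helper10.UC.J_isOpenMap_mk

/-! The two holomorphic functions on the universal covering of `MM`. -/

set_option autoImplicit false
set_option linter.unusedSectionVars false
open Set Filter Topology Metric
open Pool.Agent.Helper10.UC
open scoped Manifold ContDiff LinearAlgebra.Projectivization

namespace Pool.Agent.Y189.UD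

theorem continuous_mk {ι : Type} :
    Continuous (fun v : {v : ι → ℂ // v ≠ 0} => Projectivization.mk ℂ v.1 v.2) :=
  continuous_coinduced_rng

theorem t2_PP {ι : Type} : T2Space (PP ι) := by
  have hq : IsOpenQuotientMap (fun v : {v : ι → ℂ // v ≠ 0} => Projectivization.mk ℂ v.1 v.2) := by
    refine ⟨fun x => ⟨⟨x.rep, x.rep_nonzero⟩, x.mk_rep⟩, continuous_mk, isOpenMap_mk⟩
  rw [t2Space_iff_of_isOpenQuotientMap hq]
  have : {q : {v : ι → ℂ // v ≠ 0} × {v : ι → ℂ // v ≠ 0} |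
      Projectivization.mk ℂ q.1.1 q.1.2 = Projectivization.mk ℂ q.2.1 q.2.2} =
      ⋂ i : ι, ⋂ j : ι, {q | q.1.1 i * q.2.1 j = q.1.1 j * q.2.1 i} := by
    ext ⟨⟨v, hv⟩, ⟨u, hu⟩⟩
    simp only [Set.mem_ofPred_eq, mem_iInter]
    constructor
    · intro h i j
      obtain ⟨c, hc⟩ := (Projectivization.mk_eq_mk_iff ℂ _ _ _ _).1 h
      have hc' : ∀ i, v i = c * u i := fun i => by rw [← hc]; rfl
      rw [hc', hc']
      ring
    · intro h
      obtain ⟨i, hi⟩ : ∃ i, v i ≠ 0 := by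
        by_contra hcon
        push Not at hcon
        exact hv (funext hcon)
      have hui : u i ≠ 0 := by
        intro hui
        apply hu
        funext j
        have := h i j
        rw [hui, mul_zero] at this
        exact (mul_eq_zero.1 this).resolve_left hi
      refine (Projectivization.mk_eq_mk_iff' ℂ _ _ _ _).2 ⟨v i / u i, ?_⟩
      funext j
      have := h i j
      simp only [Pi.smul_apply, smul_eq_mul]
      field_simp
      linear_combination this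
  rw [this]
  have hc : ∀ i : ι, Continuous (fun u : {v : ι → ℂ // v ≠ 0} => u.1 i) := fun i =>
    (continuous_apply i).comp continuous_subtype_val
  refine isClosed_iInter fun i => isClosed_iInter fun j => isClosed_eq ?_ ?_
  · exact ((hc i).comp continuous_fst).mul ((hc j).comp continuous_snd)
  · exact ((hc j).comp continuous_fst).mul ((hc i).comp continuous_snd)

theorem t2_of_covering {E B : Type*} [TopologicalSpace E] [TopologicalSpace B] [T2Space B]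
    {p : E → B} (hp : IsCoveringMap p) : T2Space E := by
  refine ⟨fun x y hxy => ?_⟩
  by_cases h : p x = p y
  · exact hp.isSeparatedMap x y h hxy
  · obtain ⟨u, v, hu, hv, hxu, hyv, huv⟩ := t2_separation h
    exact ⟨p ⁻¹' u, p ⁻¹' v, hu.preimage hp.continuous, hv.preimage hp.continuous, hxu, hyv,
      huv.preimage p⟩

theorem mm_rep (x : MM) : ∃ (a b : Fin 4 → ℂ) (w : ℂ) (h : seg a b w ≠ 0), a ≠ 0 ∧ b ≠ 0 ∧ EC a ∧
    EC b ∧ w ^ 2 = GG a b ∧ (x : PP Ix) = Projectivization.mk ℂ (seg a b w) h := by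
  have h1 : Projectivization.mk ℂ x.1.rep x.1.rep_nonzero ∈ MM := by
    rw [x.1.mk_rep]
    exact x.2
  obtain ⟨a, b, w, ha, hb, hEa, hEb, hw, h⟩ := (mem_MM_iff _).1 h1
  have hne : seg a b w ≠ 0 := h ▸ x.1.rep_nonzero
  refine ⟨a, b, w, hne, ha, hb, hEa, hEb, hw, ?_⟩
  rw [← x.1.mk_rep]
  congr 1

theorem seg_ratio {a b a' b' : Fin 4 → ℂ} {w w' : ℂ} (h : seg a b w ≠ 0) (h' : seg a' b' w' ≠ 0)
    (ha' : a' ≠ 0) (hb' : b' ≠ 0)
    (he : Projectivization.mk ℂ (seg a b w) h = Projectivization.mk ℂ (seg a' b' w') h') :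
    (∃ c : ℂ, c ≠ 0 ∧ a' = c • a) ∧ ∃ c : ℂ, c ≠ 0 ∧ b' = c • b := by
  obtain ⟨c, hc⟩ := (Projectivization.mk_eq_mk_iff ℂ _ _ _ _).1 he.symm
  have hc' : ∀ i j, a' i * b' j = c * (a i * b j) := fun i j => by
    have := congrFun hc (some (i, j))
    exact this.symm
  obtain ⟨j, hj⟩ : ∃ j, b' j ≠ 0 := by
    by_contra hcon
    push Not at hcon
    exact hb' (funext hcon)
  obtain ⟨i, hi⟩ : ∃ i, a' i ≠ 0 := by
    by_contra hcon
    push Not at hcon
    exact ha' (funext hcon)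
  have e1 : a' = (c * b j / b' j) • a := by
    funext k
    have := hc' k j
    simp only [Pi.smul_apply, smul_eq_mul]
    field_simp
    linear_combination this
  have e2 : b' = (c * a i / a' i) • b := by
    funext k
    have := hc' i k
    simp only [Pi.smul_apply, smul_eq_mul]
    field_simp
    linear_combination this
  refine ⟨⟨_, ?_, e1⟩, ⟨_, ?_, e2⟩⟩
  · intro h0
    rw [h0, zero_smul] at e1
    exact ha' e1
  · intro h0
    rw [h0, zero_smul] at e2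
    exact hb' e2

theorem GG_smul (l m : ℂ) (a b : Fin 4 → ℂ) : GG (l • a) (m • b) = (l * m) ^ 2 * GG a b := by
  unfold GG
  simp only [Pi.smul_apply, smul_eq_mul]
  ring

theorem EC.smul {a : Fin 4 → ℂ} (h : EC a) (c : ℂ) : EC (c • a) := by
  constructor
  · simp only [Pi.smul_apply, smul_eq_mul]
    linear_combination c ^ 2 * h.1
  · simp only [Pi.smul_apply, smul_eq_mul]
    linear_combination c ^ 2 * h.2

section

variable {V : Type} [NormedAddCommGroup V] [NormedSpace ℂ V] {E : Type*} [TopologicalSpace E]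
  [ChartedSpace V E] [IsManifold 𝓘(ℂ, V) 1 E]

/-- the homogeneous coordinates of the first component of `p e` -/
def cls₁ (p : E → MM) (e : E) : Set (Fin 4 → ℂ) :=
  {a | ∃ (b : Fin 4 → ℂ) (w : ℂ) (h : seg a b w ≠ 0), a ≠ 0 ∧ b ≠ 0 ∧ EC a ∧ EC b ∧
    w ^ 2 = GG a b ∧ (p e : PP Ix) = Projectivization.mk ℂ (seg a b w) h}

/-- the homogeneous coordinates of the second component of `p e` -/
def cls₂ (p : E → MM) (e : E) : Set (Fin 4 → ℂ) :=
  {b | ∃ (a : Fin 4 → ℂ) (w : ℂ) (h : seg a b w ≠ 0), a ≠ 0 ∧ b ≠ 0 ∧ EC a ∧ EC b ∧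
    w ^ 2 = GG a b ∧ (p e : PP Ix) = Projectivization.mk ℂ (seg a b w) h}

theorem seg_smul_inv {a b : Fin 4 → ℂ} {w c : ℂ} (hc : c ≠ 0) :
    seg (c • a) (c⁻¹ • b) w = seg a b w := by
  funext x
  rcases x with _ | ⟨i, j⟩
  · rfl
  · show c * a i * (c⁻¹ * b j) = a i * b j
    field_simp

theorem cls₁_smul {p : E → MM} {e : E} {a : Fin 4 → ℂ} (h : a ∈ cls₁ p e) {c : ℂ} (hc : c ≠ 0) :
    c • a ∈ cls₁ p e := by
  obtain ⟨b, w, h, ha, hb, hEa, hEb, hw, hp⟩ := h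
  refine ⟨c⁻¹ • b, w, ?_, smul_ne_zero hc ha, smul_ne_zero (inv_ne_zero hc) hb, EC.smul hEa c,
    EC.smul hEb _, ?_, ?_⟩
  · rw [seg_smul_inv hc]
    exact h
  · rw [hw, GG_smul, mul_inv_cancel₀ hc]
    ring
  · rw [hp]
    congr 1
    exact (seg_smul_inv hc).symm

theorem cls₂_smul {p : E → MM} {e : E} {b : Fin 4 → ℂ} (h : b ∈ cls₂ p e) {c : ℂ} (hc : c ≠ 0) :
    c • b ∈ cls₂ p e := by
  obtain ⟨a, w, h, ha, hb, hEa, hEb, hw, hp⟩ := h
  have e1 : seg (c⁻¹ • a) (c • b) w = seg a b w := by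
    have := seg_smul_inv (a := a) (b := b) (w := w) (inv_ne_zero hc)
    rwa [inv_inv] at this
  refine ⟨c⁻¹ • a, w, ?_, smul_ne_zero (inv_ne_zero hc) ha, smul_ne_zero hc hb, EC.smul hEa _,
    EC.smul hEb _, ?_, ?_⟩
  · rw [e1]
    exact h
  · rw [hw, GG_smul, inv_mul_cancel₀ hc]
    ring
  · rw [hp]
    congr 1
    exact e1.symm

theorem cls_local {p : E → MM} (hp : IsHolomorphicInto V p) (e₀ : E) :
    (∃ U : Set E, IsOpen U ∧ e₀ ∈ U ∧ ∃ a : E → (Fin 4 → ℂ),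
      MDifferentiableOn 𝓘(ℂ, V) 𝓘(ℂ, Fin 4 → ℂ) a U ∧ ∀ e' ∈ U, a e' ∈ cls₁ p e') ∧
    ∃ U : Set E, IsOpen U ∧ e₀ ∈ U ∧ ∃ b : E → (Fin 4 → ℂ),
      MDifferentiableOn 𝓘(ℂ, V) 𝓘(ℂ, Fin 4 → ℂ) b U ∧ ∀ e' ∈ U, b e' ∈ cls₂ p e' := by
  obtain ⟨U, hU, heU, v, hv, hpv⟩ := hp e₀
  have hrep : ∀ e ∈ U, ∃ (a b : Fin 4 → ℂ) (w : ℂ), a ≠ 0 ∧ b ≠ 0 ∧ EC a ∧ EC b ∧
      w ^ 2 = GG a b ∧ v e = seg a b w := by
    intro e he
    obtain ⟨hve, hpe⟩ := hpv e he
    have : Projectivization.mk ℂ (v e) hve ∈ MM := by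
      rw [← hpe]
      exact (p e).2
    exact (mem_MM_iff _).1 this
  have hcoord : ∀ i, MDifferentiableOn 𝓘(ℂ, V) 𝓘(ℂ, ℂ) (fun e => v e i) U := by
    intro i e he
    have h1 : MDifferentiableAt 𝓘(ℂ, Ix → ℂ) 𝓘(ℂ, ℂ) (fun u : Ix → ℂ => u i) (v e) :=
      (differentiableAt_apply i (v e)).mdifferentiableAt
    exact h1.comp_mdifferentiableWithinAt e (hv e he)
  obtain ⟨a₀, b₀, w₀, ha₀, hb₀, -, -, -, hv₀⟩ := hrep e₀ heU
  obtain ⟨i₀, hi₀⟩ : ∃ i, a₀ i ≠ 0 := by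
    by_contra hcon
    push Not at hcon
    exact ha₀ (funext hcon)
  obtain ⟨j₀, hj₀⟩ : ∃ j, b₀ j ≠ 0 := by
    by_contra hcon
    push Not at hcon
    exact hb₀ (funext hcon)
  have hne : v e₀ (some (i₀, j₀)) ≠ 0 := by
    rw [hv₀]
    exact mul_ne_zero hi₀ hj₀
  set U' : Set E := U ∩ (fun e => v e (some (i₀, j₀))) ⁻¹' {0}ᶜ with hU'
  have hU'o : IsOpen U' := (hcoord _).continuousOn.isOpen_inter_preimage hU isOpen_compl_singleton
  have hpi : ∀ (g : Fin 4 → Ix), MDifferentiableOn 𝓘(ℂ, V) 𝓘(ℂ, Fin 4 → ℂ)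
      (fun e k => v e (g k)) U' := by
    intro g e he
    have h1 : MDifferentiableAt 𝓘(ℂ, Ix → ℂ) 𝓘(ℂ, Fin 4 → ℂ)
        (fun (u : Ix → ℂ) (k : Fin 4) => u (g k)) (v e) := by
      apply DifferentiableAt.mdifferentiableAt
      fun_prop
    exact h1.comp_mdifferentiableWithinAt e ((hv e he.1).mono inter_subset_left)
  refine ⟨⟨U', hU'o, ⟨heU, hne⟩, fun e i => v e (some (i, j₀)), hpi fun i => some (i, j₀), ?_⟩,
    ⟨U', hU'o, ⟨heU, hne⟩, fun e j => v e (some (i₀, j)), hpi fun j => some (i₀, j), ?_⟩⟩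
  · rintro e ⟨heU, hee⟩
    obtain ⟨a, b, w, ha, hb, hEa, hEb, hw, hve⟩ := hrep e heU
    have hee' : a i₀ * b j₀ ≠ 0 := by
      have h3 : v e (some (i₀, j₀)) ≠ 0 := hee
      rw [hve] at h3
      exact h3
    have hseg : seg a b w ≠ 0 := by
      rw [← hve]
      exact (hpv e heU).1
    have h2 : (fun i => v e (some (i, j₀))) = b j₀ • a := by
      funext i
      rw [hve]
      show a i * b j₀ = b j₀ * a i
      ring
    show (fun i => v e (some (i, j₀))) ∈ cls₁ p e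
    rw [h2]
    refine cls₁_smul ⟨b, w, hseg, ha, hb, hEa, hEb, hw, ?_⟩ (right_ne_zero_of_mul hee')
    rw [(hpv e heU).2]
    congr 1
  · rintro e ⟨heU, hee⟩
    obtain ⟨a, b, w, ha, hb, hEa, hEb, hw, hve⟩ := hrep e heU
    have hee' : a i₀ * b j₀ ≠ 0 := by
      have h3 : v e (some (i₀, j₀)) ≠ 0 := hee
      rw [hve] at h3
      exact h3
    have hseg : seg a b w ≠ 0 := by
      rw [← hve]
      exact (hpv e heU).1
    have h2 : (fun j => v e (some (i₀, j))) = a i₀ • b := by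
      funext i
      rw [hve]
      rfl
    show (fun j => v e (some (i₀, j))) ∈ cls₂ p e
    rw [h2]
    refine cls₂_smul ⟨a, w, hseg, ha, hb, hEa, hEb, hw, ?_⟩ (left_ne_zero_of_mul hee')
    rw [(hpv e heU).2]
    congr 1

theorem primitives [SimplyConnectedSpace E] {p : E → MM} (hp : IsCoveringMap p)
    (hph : IsHolomorphicInto V p) :
    ∃ F₁ F₂ : E → ℂ, MDifferentiable 𝓘(ℂ, V) 𝓘(ℂ, ℂ) F₁ ∧ MDifferentiable 𝓘(ℂ, V) 𝓘(ℂ, ℂ) F₂ ∧
      ∀ e, ∀ᶠ e' in 𝓝 e, F₁ e' = F₁ e → F₂ e' = F₂ e → e' = e := by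
  letI : NormedSpace ℝ V := NormedSpace.restrictScalars ℝ ℂ V
  haveI : LocallyPathConnectedSpace V := inferInstance
  haveI : LocallyPathConnectedSpace E := ChartedSpace.locallyPathConnectedSpace V E
  haveI : T2Space (PP Ix) := t2_PP
  obtain ⟨F₁, hF₁, hF₁'⟩ := prim (V := V) (cls₁ p)
    (by
      rintro e a ⟨b, w, h, ha, hb, hEa, -⟩
      exact ⟨ha, hEa⟩)
    (by
      rintro e a ⟨b, w, h, ha, hb, hEa, hEb, hw, hpe⟩ a' ⟨b', w', h', ha', hb', hEa', hEb', hw', hpe'⟩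
      exact (seg_ratio h h' ha' hb' (hpe.symm.trans hpe')).1)
    (fun e => (cls_local hph e).1)
  obtain ⟨F₂, hF₂, hF₂'⟩ := prim (V := V) (cls₂ p)
    (by
      rintro e b ⟨a, w, h, ha, hb, hEa, hEb, -⟩
      exact ⟨hb, hEb⟩)
    (by
      rintro e b ⟨a, w, h, ha, hb, hEa, hEb, hw, hpe⟩ b' ⟨a', w', h', ha', hb', hEa', hEb', hw', hpe'⟩
      exact (seg_ratio h h' ha' hb' (hpe.symm.trans hpe')).2)
    (fun e => (cls_local hph e).2)
  refine ⟨F₁, F₂, hF₁, hF₂, fun e => ?_⟩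
  obtain ⟨a, b, w, hseg, ha, hb, hEa, hEb, hw, hpe⟩ := mm_rep (p e)
  have hwm : (-w) ^ 2 = GG a b := by rw [neg_sq]; exact hw
  obtain ⟨i₀, hi₀⟩ : ∃ i, a i ≠ 0 := by
    by_contra hcon
    push Not at hcon
    exact ha (funext hcon)
  obtain ⟨j₀, hj₀⟩ : ∃ j, b j ≠ 0 := by
    by_contra hcon
    push Not at hcon
    exact hb (funext hcon)
  have hsegm : seg a b (-w) ≠ 0 := by
    intro h
    exact mul_ne_zero hi₀ hj₀ (congrFun h (some (i₀, j₀)))
  have hq : Projectivization.mk ℂ (seg a b (-w)) hsegm ∈ MM :=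
    (mem_MM_iff hsegm).2 ⟨a, b, -w, ha, hb, hEa, hEb, hwm, rfl⟩
  have hev : ∀ᶠ e' in 𝓝 e, (p e' : PP Ix) = Projectivization.mk ℂ (seg a b (-w)) hsegm →
      p e' = p e := by
    by_cases hqe : (p e : PP Ix) = Projectivization.mk ℂ (seg a b (-w)) hsegm
    · exact Eventually.of_forall fun e' he' => Subtype.ext (he'.trans hqe.symm)
    · have hc : Continuous fun e' => (p e' : PP Ix) := continuous_subtype_val.comp hp.continuous
      filter_upwards [hc.continuousAt.eventually_ne hqe] with e' he' h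
      exact absurd h he'
  obtain ⟨φ, heφ, hφ⟩ := hp.isLocalHomeomorph e
  filter_upwards [hF₁' e, hF₂' e, hev, φ.open_source.mem_nhds heφ] with e' h1 h2 h3 h4 g1 g2
  obtain ⟨a', b', w', hseg', ha', hb', hEa', hEb', hw', hpe'⟩ := mm_rep (p e')
  obtain ⟨c, hc, hac⟩ := h1 g1 a ⟨b, w, hseg, ha, hb, hEa, hEb, hw, hpe⟩ a'
    ⟨b', w', hseg', ha', hb', hEa', hEb', hw', hpe'⟩
  obtain ⟨d, hd, hbd⟩ := h2 g2 b ⟨a, w, hseg, ha, hb, hEa, hEb, hw, hpe⟩ b'
    ⟨a', w', hseg', ha', hb', hEa', hEb', hw', hpe'⟩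
  have hww : (w' - c * d * w) * (w' + c * d * w) = 0 := by
    rw [hac, hbd, GG_smul, ← hw] at hw'
    linear_combination hw'
  have hpp : p e' = p e := by
    rcases mul_eq_zero.1 hww with h5 | h5
    · apply Subtype.ext
      rw [hpe', hpe]
      refine (Projectivization.mk_eq_mk_iff' ℂ _ _ _ _).2 ⟨c * d, ?_⟩
      funext x
      rcases x with _ | ⟨i, j⟩
      · show c * d * w = w'
        linear_combination -h5
      · show c * d * (a i * b j) = a' i * b' j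
        rw [hac, hbd]
        show c * d * (a i * b j) = c * a i * (d * b j)
        ring
    · apply h3
      rw [hpe']
      refine (Projectivization.mk_eq_mk_iff' ℂ _ _ _ _).2 ⟨c * d, ?_⟩
      funext x
      rcases x with _ | ⟨i, j⟩
      · show c * d * -w = w'
        linear_combination -h5
      · show c * d * (a i * b j) = a' i * b' j
        rw [hac, hbd]
        show c * d * (a i * b j) = c * a i * (d * b j)
        ring
  apply φ.injOn h4 heφ
  rw [← hφ]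
  exact hpp

end

end Pool.Agent.Y189.UD
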