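import Mathlib
import Pool.Agent.Y189.UD.Ana
import Pool.Agent.Y189.UD.Mod3
import Pool.Agent.Y189.UD.Prim4

/-! From a bimeromorphic map to a proper holomorphic modification. -/

set_option autoImplicit false
set_option linter.unusedSectionVars false
open Set Metric Filter Topology
open scoped Manifold ContDiff

namespace Pool.Agent.Y189.UD

variable {V W : Type} [NormedAddCommGroup V] [NormedSpace ℂ V] [FiniteDimensional ℂ V]
  [NormedAddCommGroup W] [NormedSpace ℂ W] [FiniteDimensional ℂ W]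
  {Y E : Type*} [TopologicalSpace Y] [ChartedSpace W Y] [IsManifold 𝓘(ℂ, W) 1 Y]
  [TopologicalSpace E] [ChartedSpace V E] [IsManifold 𝓘(ℂ, V) 1 E]

theorem bimero_map [T2Space Y] [T2Space E] [PreconnectedSpace Y] [SecondCountableTopology Y]
    [LocallyCompactSpace E] [LocallyCompactSpace Y] [Nonempty E] [Nonempty Y]
    (hV : Module.finrank ℂ V = 2) {F₁ F₂ : E → ℂ}
    (hF₁ : MDifferentiable 𝓘(ℂ, V) 𝓘(ℂ, ℂ) F₁) (hF₂ : MDifferentiable 𝓘(ℂ, V) 𝓘(ℂ, ℂ) F₂)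
    (hF : ∀ e, ∀ᶠ e' in 𝓝 e, F₁ e' = F₁ e → F₂ e' = F₂ e → e' = e)
    (h : Bimeromorphic V W E Y) :
    ∃ g : Y → E, Continuous g ∧ (∀ K, IsCompact K → IsCompact (g ⁻¹' K)) ∧
      ∃ D : Set E, D.Countable ∧ ∃ s : E → Y, ContinuousOn s Dᶜ ∧ ∀ e ∉ D, g (s e) = e := by
  obtain ⟨Γ, h1, h2⟩ := h
  obtain ⟨B, hB, hBi, k, hk, hkΓ⟩ := h2.generic
  have hBt : Thin W B := hB.thin hBi
  obtain ⟨g, hg, hgk⟩ := extend_map hBt hk hF₁ hF₂ hF (by
    intro y
    obtain ⟨K, hKc, hKy⟩ := exists_compact_mem_nhds y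
    refine ⟨K, hKy, Prod.snd '' {p | p ∈ Prod.swap ⁻¹' Γ ∧ p.1 ∈ K},
      (h2.proper K hKc).image continuous_snd, ?_⟩
    rintro z ⟨hzK, hzB⟩
    exact ⟨(z, k z), ⟨(hkΓ z hzB _).2 rfl, hzK⟩, rfl⟩)
  have hΓ : (Prod.swap ⁻¹' Γ : Set (Y × E)) = {p : Y × E | p.2 = g p.1} :=
    graph_of_ext h2.analytic h2.irreducible hB hBi hkΓ hg hgk
  have hmem : ∀ y e, (e, y) ∈ Γ ↔ g y = e := by
    intro y e
    have : (y, e) ∈ (Prod.swap ⁻¹' Γ : Set (Y × E)) ↔ (y, e) ∈ {p : Y × E | p.2 = g p.1} := by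
      rw [hΓ]
    constructor
    · intro h3
      exact (this.1 h3).symm
    · intro h3
      exact this.2 h3.symm
  have hproper : ∀ K, IsCompact K → IsCompact (g ⁻¹' K) := by
    intro K hK
    have h3 : g ⁻¹' K = Prod.snd '' {p : E × Y | p ∈ Γ ∧ p.1 ∈ K} := by
      ext y
      constructor
      · intro hy
        exact ⟨(g y, y), ⟨(hmem _ _).2 rfl, hy⟩, rfl⟩
      · rintro ⟨⟨e, y'⟩, ⟨h4, h5⟩, rfl⟩
        have := (hmem _ _).1 h4
        show g y' ∈ K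
        rw [this]
        exact h5
    rw [h3]
    exact (h1.proper K hK).image continuous_snd
  obtain ⟨A, hA, hAi, s, hs, hsΓ⟩ := h1.generic
  obtain ⟨D, hD, s', hs', hgs⟩ := modification hV hg hproper hA hAi hs (by
    intro e he y
    rw [← hmem]
    exact hsΓ e he y)
  exact ⟨g, hg.continuous, hproper, D, hD, s', hs', hgs⟩

end Pool.Agent.Y189.UD
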