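import Mathlib
import Pool.Agent.Helper10.UC.Base
import Pool.Agent.Helper10.UC.J_thom
import Pool.Agent.Y189.UD.Count

/-! Rotations of the sphere close to the identity avoiding a countable set. -/

set_option autoImplicit false
open Set Filter Topology Metric
open Pool.Agent.Helper10.UC
open Pool.Agent.Helper10.UC.J_thom

namespace Pool.Agent.Y189.UD

/-- rotation around the `x`-axis -/
noncomputable def rotx (t : ℝ) (p : V3) : V3 :=
  (p.1, Real.cos t * p.2.1 - Real.sin t * p.2.2, Real.sin t * p.2.1 + Real.cos t * p.2.2)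

/-- rotation around the `z`-axis -/
noncomputable def rotz (t : ℝ) (p : V3) : V3 :=
  (Real.cos t * p.1 - Real.sin t * p.2.1, Real.sin t * p.1 + Real.cos t * p.2.1, p.2.2)

theorem rotx_dot (t : ℝ) (p q : V3) : dot (rotx t p) (rotx t q) = dot p q := by
  unfold rotx dot
  linear_combination (p.2.1 * q.2.1 + p.2.2 * q.2.2) * Real.sin_sq_add_cos_sq t

theorem rotz_dot (t : ℝ) (p q : V3) : dot (rotz t p) (rotz t q) = dot p q := by
  unfold rotz dot
  linear_combination (p.1 * q.1 + p.2.1 * q.2.1) * Real.sin_sq_add_cos_sq t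

theorem rotx_det (t : ℝ) (p q r : V3) :
    dot (rotx t p) (crs (rotx t q) (rotx t r)) = dot p (crs q r) := by
  unfold rotx dot crs
  linear_combination (p.1 * (q.2.1 * r.2.2 - q.2.2 * r.2.1) +
    p.2.1 * (q.2.2 * r.1 - q.1 * r.2.2) + p.2.2 * (q.1 * r.2.1 - q.2.1 * r.1)) *
    Real.sin_sq_add_cos_sq t

theorem rotz_det (t : ℝ) (p q r : V3) :
    dot (rotz t p) (crs (rotz t q) (rotz t r)) = dot p (crs q r) := by
  unfold rotz dot crs
  linear_combination (p.1 * (q.2.1 * r.2.2 - q.2.2 * r.2.1) +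
    p.2.1 * (q.2.2 * r.1 - q.1 * r.2.2) + p.2.2 * (q.1 * r.2.1 - q.2.1 * r.1)) *
    Real.sin_sq_add_cos_sq t

/-- the rotation `R_t` -/
noncomputable def rot (t : ℝ) (p : S2) : S2 :=
  ⟨rotz t (rotx t p.1), by rw [rotz_dot, rotx_dot]; exact p.2⟩

theorem rot_TT (t : ℝ) (p q r : S2) :
    TT (rot t p).1 (rot t q).1 (rot t r).1 = TT p.1 q.1 r.1 := by
  unfold TT rot
  simp only [rotz_dot, rotx_dot, rotz_det, rotx_det]

theorem continuous_rot : Continuous (fun q : ℝ × S2 => rot q.1 q.2) := by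
  unfold rot rotz rotx
  fun_prop

theorem rot_zero (p : S2) : rot 0 p = p := by
  apply Subtype.ext
  show rotz 0 (rotx 0 p.1) = p.1
  unfold rotz rotx
  simp

theorem trig_countable {A B C : ℝ} (h : A ≠ 0 ∨ B ≠ 0) :
    {t : ℝ | t ∈ Ioo (-1 : ℝ) 1 ∧ A * Real.cos t + B * Real.sin t = C}.Countable := by
  set f : ℂ → ℂ := fun z => A * Complex.cos z + B * Complex.sin z - C with hf
  have hfd : Differentiable ℂ f := by
    simp only [hf]
    fun_prop
  have hex : ∃ y₁ ∈ ball (0 : ℂ) 2, f y₁ ≠ 0 := by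
    by_contra hcon
    push Not at hcon
    have h0 := hcon 0 (by simp)
    have h1 := hcon 1 (by simp)
    have h2 := hcon (-1) (by simp)
    simp only [hf, Complex.cos_neg, Complex.sin_neg, Complex.cos_zero, Complex.sin_zero] at h0 h1 h2
    have e0 : (A : ℂ) = C := by linear_combination h0
    have hsin : Real.sin 1 ≠ 0 := by
      have := Real.sin_pos_of_pos_of_lt_pi one_pos (by linarith [Real.pi_gt_three])
      exact this.ne'
    have hcos : Real.cos 1 ≠ 1 := by
      intro hc
      have h3 := Real.sin_sq_add_cos_sq 1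
      rw [hc] at h3
      apply hsin
      have h4 : Real.sin 1 ^ 2 = 0 := by linarith
      exact pow_eq_zero_iff (two_ne_zero) |>.1 h4
    have c1 : Complex.cos 1 = ((Real.cos 1 : ℝ) : ℂ) := by simp
    have s1 : Complex.sin 1 = ((Real.sin 1 : ℝ) : ℂ) := by simp
    have e1 : (A : ℂ) * (Complex.cos 1 - 1) = 0 := by linear_combination (h1 + h2) / 2 - h0
    have e2 : (B : ℂ) * Complex.sin 1 = 0 := by linear_combination (h1 - h2) / 2
    rw [c1] at e1
    rw [s1] at e2
    have a0 : A = 0 := by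
      have : A * (Real.cos 1 - 1) = 0 := by exact_mod_cast e1
      exact (mul_eq_zero.1 this).resolve_right (sub_ne_zero.2 hcos)
    have b0 : B = 0 := by
      have : B * Real.sin 1 = 0 := by exact_mod_cast e2
      exact (mul_eq_zero.1 this).resolve_right hsin
    rcases h with h | h
    · exact h a0
    · exact h b0
  obtain ⟨y₁, hy₁, hfy⟩ := hex
  have hc := zeros_countable (hfd.differentiableOn (s := ball 0 2)) hy₁ hfy
  refine (hc.preimage_of_injOn (f := fun t : ℝ => (t : ℂ)) Complex.ofReal_injective.injOn).mono ?_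
  rintro t ⟨⟨ht1, ht2⟩, ht⟩
  constructor
  · show (t : ℂ) ∈ ball (0 : ℂ) 2
    rw [mem_ball_zero_iff, Complex.norm_real, Real.norm_eq_abs, abs_lt]
    constructor <;> linarith
  · show f t = 0
    simp only [hf]
    rw [← Complex.ofReal_cos, ← Complex.ofReal_sin]
    exact_mod_cast sub_eq_zero.2 ht

theorem rot_countable (a b : S2) : {t : ℝ | t ∈ Ioo (-1 : ℝ) 1 ∧ rot t a = b}.Countable := by
  have key : ∀ t : ℝ, rot t a = b → b.1.1 * Real.cos t + b.1.2.1 * Real.sin t = a.1.1 ∧
      a.1.2.2 * Real.cos t + a.1.2.1 * Real.sin t = b.1.2.2 := by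
    intro t h
    have h1 : rotz t (rotx t a.1) = b.1 := congrArg Subtype.val h
    rw [← h1]
    unfold rotz rotx
    constructor
    · linear_combination a.1.1 * Real.sin_sq_add_cos_sq t
    · ring
  by_cases h1 : b.1.1 ≠ 0 ∨ b.1.2.1 ≠ 0
  · refine (trig_countable (C := a.1.1) h1).mono ?_
    rintro t ⟨h2, h3⟩
    exact ⟨h2, (key t h3).1⟩
  · by_cases h2 : a.1.2.2 ≠ 0 ∨ a.1.2.1 ≠ 0
    · refine (trig_countable (C := b.1.2.2) h2).mono ?_
      rintro t ⟨h3, h4⟩
      exact ⟨h3, (key t h4).2⟩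
    · push Not at h1 h2
      convert Set.countable_empty
      rw [Set.eq_empty_iff_forall_notMem]
      rintro t ⟨-, ht⟩
      have h3 := (key t ht).1
      rw [h1.1, h1.2] at h3
      have h4 := a.2
      unfold dot at h4
      rw [h2.1, h2.2, ← h3] at h4
      norm_num at h4

/-- there are arbitrarily small rotations such that no `(p, - R p)` lies in a given countable
set -/
theorem exists_rot {D : Set (S2 × S2)} (hD : D.Countable) {c : ℝ} (hc : -1 < c) :
    ∃ t : ℝ, (∀ p : S2, (p, tm_neg (rot t p)) ∉ D) ∧ ∀ p : S2, dot p.1 (tm_neg (rot t p)).1 < c := by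
  have hS2 : CompactSpace S2 := tm_compactS2
  have hcont : Continuous fun q : ℝ × S2 => dot q.2.1 (tm_neg (rot q.1 q.2)).1 := by
    have h1 : Continuous fun q : ℝ × S2 => (tm_neg (rot q.1 q.2)).1 := by
      unfold tm_neg
      exact (continuous_subtype_val.comp continuous_rot).neg
    exact continuous_dot.comp ((continuous_subtype_val.comp continuous_snd).prodMk h1)
  have h1 : ∀ᶠ t in 𝓝 (0 : ℝ), ∀ p ∈ (univ : Set S2), dot p.1 (tm_neg (rot t p)).1 < c := by
    apply isCompact_univ.eventually_forall_of_forall_eventually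
    intro p _
    apply hcont.continuousAt.eventually_lt continuousAt_const
    show dot p.1 (tm_neg (rot 0 p)).1 < c
    rw [rot_zero, tm_dot_neg]
    exact hc
  obtain ⟨ε, hε, hball⟩ := Metric.eventually_nhds_iff_ball.1 h1
  have hbad : (⋃ q ∈ D, {t : ℝ | t ∈ Ioo (-1 : ℝ) 1 ∧ rot t q.1 = tm_neg q.2}).Countable :=
    hD.biUnion fun q _ => rot_countable _ _
  obtain ⟨t, ht1, ht2⟩ := (hbad.dense_compl ℝ).exists_mem_open
    (isOpen_Ioo (a := -(min ε 1)) (b := min ε 1))
    ⟨0, by
      constructor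
      · rw [neg_lt_zero]; positivity
      · positivity⟩
  refine ⟨t, ?_, ?_⟩
  · intro p hp
    apply ht1
    simp only [mem_iUnion]
    refine ⟨_, hp, ⟨?_, ?_⟩, ?_⟩
    · exact lt_of_le_of_lt (neg_le_neg (min_le_right _ _)) ht2.1
    · exact lt_of_lt_of_le ht2.2 (min_le_right _ _)
    · show rot t p = tm_neg (tm_neg (rot t p))
      apply Subtype.ext
      show (rot t p).1 = - - (rot t p).1
      rw [neg_neg]
  · intro p
    refine hball t ?_ p (mem_univ _)
    rw [mem_ball_zero_iff, Real.norm_eq_abs, abs_lt]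
    exact ⟨lt_of_le_of_lt (neg_le_neg (min_le_left _ _)) ht2.1,
      lt_of_lt_of_le ht2.2 (min_le_left _ _)⟩

end Pool.Agent.Y189.UD
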