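import Mathlib
import Pool.Agent.Helper10.UC.Base
import Pool.Agent.Helper10.UC.J_thom
import Pool.Agent.Helper10.UC.J_unif

/-! The cocycle of a space which dominates a neighbourhood of the antidiagonal of `S² × S²`. -/

set_option autoImplicit false
open Set Filter Topology Metric
open Pool.Agent.Helper10.UC
open Pool.Agent.Helper10.UC.J_thom

namespace Pool.Agent.Y189.UD

theorem unif2 {N M : Type*} [MetricSpace N] [MetricSpace M] {Q K : Set N} (hQ : IsOpen Q)
    (hK : IsCompact K) (hKQ : K ⊆ Q) {G : N → M} (hG : ContinuousOn G Q) {δ : ℝ} (hδ : 0 < δ) :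
    ∃ μ > 0, ∀ x ∈ K, ∀ y, dist x y < μ → y ∈ Q ∧ dist (G x) (G y) < δ := by
  have h1 : ∀ i : Q, IsOpen (Q ∩ G ⁻¹' ball (G i) (δ / 2)) := fun i =>
    hG.isOpen_inter_preimage hQ isOpen_ball
  obtain ⟨μ, hμ, h⟩ := lebesgue_number_lemma_of_metric
    (c := fun i : Q => Q ∩ G ⁻¹' ball (G i) (δ / 2)) hK h1 (by
      intro x hx
      exact mem_iUnion.2 ⟨⟨x, hKQ hx⟩, hKQ hx, mem_ball_self (half_pos hδ)⟩)
  refine ⟨μ, hμ, fun x hx y hy => ?_⟩
  obtain ⟨i, hi⟩ := h x hx
  have hy' := hi (show y ∈ ball x μ by rw [mem_ball, dist_comm]; exact hy)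
  have hx' := hi (mem_ball_self hμ)
  refine ⟨hy'.1, ?_⟩
  calc dist (G x) (G y) ≤ dist (G x) (G i) + dist (G y) (G i) := dist_triangle_right _ _ _
    _ < δ / 2 + δ / 2 := add_lt_add hx'.2 hy'.2
    _ = δ := add_halves δ

theorem thom2 {N : Type*} [MetricSpace N] {c : ℝ} (hc : -1 < c) {Q : Set N} (hQ : IsOpen Q)
    {g : N → S2 × S2} (hg : ContinuousOn g Q)
    (hK : ∀ c' < c, IsCompact {x | x ∈ Q ∧ tm_d (g x) ≤ c'})
    (hu : ∀ c' > (-1 : ℝ), ∃ (R : S2 → S2) (u : S2 → N),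
      (∀ p q r, TT (R p).1 (R q).1 (R r).1 = TT p.1 q.1 r.1) ∧
      (∀ p, dot p.1 (tm_neg (R p)).1 < c') ∧ Continuous u ∧
      ∀ p, u p ∈ Q ∧ g (u p) = (p, tm_neg (R p))) : ∃ z : List N → ℝ,
      (∃ μ0 > 0, ∀ w ∈ FC 4 (univ : Set N) μ0, pair z (bd w) = 0) ∧
      (∀ l : List N, (∃ x ∈ l, x ∉ Q) → z l = 0) ∧
      ∀ μ > 0, ∃ w ∈ FC 3 Q μ, bd w = 0 ∧ pair z w = 4 * Real.pi := by
  classical
  have hcpt := tm_compactS2
  obtain ⟨c₂, hc₂⟩ : ∃ c₂, c₂ = (c - 1) / 2 := ⟨_, rfl⟩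
  obtain ⟨c₁, hc₁⟩ : ∃ c₁, c₁ = (c₂ - 1) / 2 := ⟨_, rfl⟩
  have h1 : -1 < c₁ := by linarith
  have h2 : c₁ < c₂ := by linarith
  have h3 : c₂ < c := by linarith
  have huc : UniformContinuous tm_d := CompactSpace.uniformContinuous_of_continuous tm_d_cont
  rw [Metric.uniformContinuous_iff] at huc
  obtain ⟨δ1, hδ1, hprism⟩ := prism_sa h1
  obtain ⟨δ2, hδ2, hcoc⟩ := sa_cocycle
  obtain ⟨δ3, hδ3, hlip⟩ := huc (c₂ - c₁) (by linarith)
  obtain ⟨δ, hδ⟩ : ∃ δ, δ = min δ1 (min δ2 δ3) := ⟨_, rfl⟩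
  have hδ0 : 0 < δ := by
    rw [hδ]
    exact lt_min hδ1 (lt_min hδ2 hδ3)
  have hδa : δ ≤ δ1 := by rw [hδ]; exact min_le_left _ _
  have hδb : δ ≤ δ2 := by rw [hδ]; exact (min_le_right _ _).trans (min_le_left _ _)
  have hδc : δ ≤ δ3 := by rw [hδ]; exact (min_le_right _ _).trans (min_le_right _ _)
  obtain ⟨μ0, hμ0, hunif⟩ := unif2 hQ (hK c₂ h3) (fun x hx => hx.1) hg hδ0
  obtain ⟨U, hU⟩ : ∃ U : Set N, U = {x | x ∈ Q ∧ tm_d (g x) < c₂} := ⟨_, rfl⟩
  have hUr : U ⊆ Q := by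
    rw [hU]
    exact fun x hx => hx.1
  -- closeness
  have hclose : ∀ x y : N, x ∈ U → dist x y < μ0 → dist (g x) (g y) < δ := by
    intro x y hx hxy
    rw [hU] at hx
    exact (hunif x ⟨hx.1, hx.2.le⟩ y hxy).2
  have hnear : ∀ y0 y1 y2 : N, (∀ y ∈ [y0, y1, y2], ∀ y' ∈ [y0, y1, y2], dist y y' < μ0) →
      (∀ y ∈ [y0, y1, y2], y ∉ {x | x ∈ Q ∧ tm_d (g x) ≤ c₁}) → tm_z3 c₁ U g y0 y1 y2 = 0 := by
    intro y0 y1 y2 hy hy1
    unfold tm_z3
    split_ifs with h
    · obtain ⟨hy0, hy1', hy2⟩ := h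
      have hq : ∀ i : Fin 3, ∃ q : N, (![y0, y1, y2] i) = q ∧ q ∈ U ∧ c₁ < tm_d (g q) ∧
          q ∈ [y0, y1, y2] := by
        intro i
        fin_cases i
        · exact ⟨y0, rfl, hy0, not_le.1 (fun h => hy1 y0 (by simp) ⟨hUr hy0, h⟩), by simp⟩
        · exact ⟨y1, rfl, hy1', not_le.1 (fun h => hy1 y1 (by simp) ⟨hUr hy1', h⟩), by simp⟩
        · exact ⟨y2, rfl, hy2, not_le.1 (fun h => hy1 y2 (by simp) ⟨hUr hy2, h⟩), by simp⟩
      have := tm_zz_near (c₁ := c₁) (δ := δ1) hprism (fun i => g (![y0, y1, y2] i)) (by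
        intro i j
        obtain ⟨qi, hqi, hi1, hi2, hi3⟩ := hq i
        obtain ⟨qj, hqj, hj1, hj2, hj3⟩ := hq j
        beta_reduce
        rw [hqi, hqj]
        exact (hclose qi qj hi1 (hy _ hi3 _ hj3)).trans_le hδa) (by
        intro i
        obtain ⟨qi, hqi, hi1, hi2, hi3⟩ := hq i
        beta_reduce
        rw [hqi]
        exact hi2)
      exact this
    · rfl
  refine ⟨coch (tm_z3 c₁ U g), ⟨μ0, hμ0, ?_⟩, ?_, ?_⟩
  · intro w hw
    rw [tm_pair_bd]
    rw [← tm_pair_zero w]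
    refine tm_pair_congr hw (fun l hl => ?_)
    obtain ⟨hlen, -, hdist⟩ := hl
    obtain ⟨x0, x1, x2, x3, rfl⟩ : ∃ x0 x1 x2 x3, l = [x0, x1, x2, x3] := by
      match l, hlen with
      | [x0, x1, x2, x3], _ => exact ⟨x0, x1, x2, x3, rfl⟩
    rw [tm_bdl4]
    show tm_z3 c₁ U g x1 x2 x3 - tm_z3 c₁ U g x0 x2 x3 + tm_z3 c₁ U g x0 x1 x3
      - tm_z3 c₁ U g x0 x1 x2 = 0
    by_cases hA : ∃ x ∈ [x0, x1, x2, x3], x ∈ {x | x ∈ Q ∧ tm_d (g x) ≤ c₁}
    · obtain ⟨x, hx, hxQ, hq⟩ := hA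
      have hall : ∀ y ∈ [x0, x1, x2, x3], y ∈ U := by
        intro y hy
        obtain ⟨hyQ, hqd⟩ := hunif x ⟨hxQ, hq.trans h2.le⟩ y (hdist _ hx _ hy)
        rw [hU]
        refine ⟨hyQ, ?_⟩
        have h5 := hlip (hqd.trans_le hδc)
        rw [Real.dist_eq, abs_lt] at h5
        linarith [h5.1]
      have m0 := hall x0 (by simp)
      have m1 := hall x1 (by simp)
      have m2 := hall x2 (by simp)
      have m3 := hall x3 (by simp)
      unfold tm_z3
      rw [if_pos ⟨m1, m2, m3⟩, if_pos ⟨m0, m2, m3⟩, if_pos ⟨m0, m1, m3⟩, if_pos ⟨m0, m1, m2⟩]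
      have hqq : ∀ i : Fin 4, ∃ q : N, (![x0, x1, x2, x3] i) = q ∧ q ∈ U ∧
          q ∈ [x0, x1, x2, x3] := by
        intro i
        fin_cases i
        · exact ⟨x0, rfl, m0, by simp⟩
        · exact ⟨x1, rfl, m1, by simp⟩
        · exact ⟨x2, rfl, m2, by simp⟩
        · exact ⟨x3, rfl, m3, by simp⟩
      have := tm_zz_cocycle (c₁ := c₁) (δ := δ2) hcoc (fun i => g (![x0, x1, x2, x3] i)) (by
        intro i j
        obtain ⟨qi, hqi, hi1, hi3⟩ := hqq i
        obtain ⟨qj, hqj, hj1, hj3⟩ := hqq j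
        beta_reduce
        rw [hqi, hqj]
        exact (hclose qi qj hi1 (hdist _ hi3 _ hj3)).trans_le hδb)
      exact this
    · push Not at hA
      have e : ∀ y0 y1 y2, y0 ∈ [x0, x1, x2, x3] → y1 ∈ [x0, x1, x2, x3] →
          y2 ∈ [x0, x1, x2, x3] → tm_z3 c₁ U g y0 y1 y2 = 0 := by
        intro y0 y1 y2 m0 m1 m2
        have hsub : ∀ y ∈ [y0, y1, y2], y ∈ [x0, x1, x2, x3] := by
          intro y hy
          simp only [List.mem_cons, List.not_mem_nil, or_false] at hy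
          rcases hy with rfl | rfl | rfl
          · exact m0
          · exact m1
          · exact m2
        exact hnear y0 y1 y2 (fun y hy y' hy' => hdist _ (hsub y hy) _ (hsub y' hy'))
          (fun y hy => hA y (hsub y hy))
      rw [e x1 x2 x3 (by simp) (by simp) (by simp), e x0 x2 x3 (by simp) (by simp) (by simp),
        e x0 x1 x3 (by simp) (by simp) (by simp), e x0 x1 x2 (by simp) (by simp) (by simp)]
      norm_num
  · rintro l ⟨x, hx, hxF⟩
    unfold coch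
    split
    · rename_i x0 x1 x2
      unfold tm_z3
      rw [if_neg]
      rintro ⟨m0, m1, m2⟩
      simp only [List.mem_cons, List.not_mem_nil, or_false] at hx
      rcases hx with rfl | rfl | rfl
      · exact hxF (hUr m0)
      · exact hxF (hUr m1)
      · exact hxF (hUr m2)
    · rfl
  · intro μ hμ
    obtain ⟨R, u, hRT, hRd, hucont, huQ⟩ := hu c₁ h1
    have huu : UniformContinuous u := CompactSpace.uniformContinuous_of_continuous hucont
    rw [Metric.uniformContinuous_iff] at huu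
    obtain ⟨μ1, hμ1, hμ1'⟩ := huu μ hμ
    obtain ⟨μ2, hμ2, hμ2'⟩ := huc 1 one_pos
    obtain ⟨w, hw, hbw, hpw⟩ := sphere_cycle (lt_min hμ1 hμ2)
    refine ⟨push u w, ?_, ?_, ?_⟩
    · have h5 : push u w ∈ Finsupp.supported ℝ ℝ
          (List.map u '' (Sml 3 (univ : Set S2) (min μ1 μ2))) := by
        rw [← Finsupp.lmapDomain_supported]
        exact Submodule.mem_map_of_mem hw
      refine Finsupp.supported_mono ?_ h5
      rintro _ ⟨l, ⟨hl1, -, hl3⟩, rfl⟩
      refine ⟨by rw [List.length_map]; exact hl1, ?_, ?_⟩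
      · intro x hx
        obtain ⟨p, -, rfl⟩ := List.mem_map.1 hx
        exact (huQ p).1
      · intro x hx y hy
        obtain ⟨p, hp, rfl⟩ := List.mem_map.1 hx
        obtain ⟨q, hq, rfl⟩ := List.mem_map.1 hy
        exact hμ1' ((hl3 p hp q hq).trans_le (min_le_left _ _))
    · rw [← push_bd, hbw, map_zero]
    · rw [tm_pair_push]
      have h6 : pair (fun l => coch (tm_z3 c₁ U g) (List.map u l)) w =
          pair (fun l => 2 * coch (fun p q r : S2 => sa p.1 q.1 r.1) l) w := by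
        refine tm_pair_congr hw (fun l hl => ?_)
        obtain ⟨hlen, -, hdist⟩ := hl
        obtain ⟨p, q, r, rfl⟩ : ∃ p q r, l = [p, q, r] := by
          match l, hlen with
          | [p, q, r], _ => exact ⟨p, q, r, rfl⟩
        show tm_z3 c₁ U g (u p) (u q) (u r) = 2 * sa p.1 q.1 r.1
        have hmU : ∀ p, u p ∈ U := by
          intro p
          rw [hU]
          refine ⟨(huQ p).1, ?_⟩
          rw [(huQ p).2]
          exact (hRd p).trans h2
        unfold tm_z3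
        rw [if_pos ⟨hmU p, hmU q, hmU r⟩, (huQ p).2, (huQ q).2, (huQ r).2]
        unfold tm_zz
        have hbt : ∀ p q : S2, tm_bt c₁ (p, tm_neg (R p)) (q, tm_neg (R q)) = 0 := by
          intro p q
          unfold tm_bt
          rw [if_neg]
          rintro ⟨h7, -⟩
          have h8 : tm_d (p, tm_neg (R p)) < c₁ := hRd p
          exact absurd h7 (not_lt.2 h8.le)
        rw [hbt, hbt, hbt]
        have hdot : ∀ p q : S2, dist p q < min μ1 μ2 → 0 < dot p.1 q.1 := by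
          intro p q hpq
          have h7 : dist (p, q) (p, p) < μ2 := by
            rw [Prod.dist_eq]
            simp only [dist_self]
            refine max_lt hμ2 ?_
            rw [dist_comm]
            exact hpq.trans_le (min_le_right _ _)
          have h8 := hμ2' h7
          have h9 : tm_d (p, p) = 1 := p.2
          rw [h9, Real.dist_eq, abs_lt] at h8
          have h10 : tm_d (p, q) = dot p.1 q.1 := rfl
          rw [h10] at h8
          linarith [h8.1]
        have hre : 0 < (TT p.1 q.1 r.1).re := by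
          show 0 < 1 + dot p.1 q.1 + dot q.1 r.1 + dot r.1 p.1
          have e1 := hdot p q (hdist p (by simp) q (by simp))
          have e2 := hdot q r (hdist q (by simp) r (by simp))
          have e3 := hdot r p (hdist r (by simp) p (by simp))
          linarith
        have hre' : 0 < (TT (R p).1 (R q).1 (R r).1).re := by rw [hRT]; exact hre
        have h11 := tm_sa_neg (R p).1 (R q).1 (R r).1 hre'
        have h12 : sa (R p).1 (R q).1 (R r).1 = sa p.1 q.1 r.1 := by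
          unfold sa
          rw [hRT]
        show sa p.1 q.1 r.1 - sa (-(R p).1) (-(R q).1) (-(R r).1) - (0 - 0 + 0) =
          2 * sa p.1 q.1 r.1
        rw [h11, h12]
        ring
      rw [h6, tm_pair_two, hpw]
      ring

end Pool.Agent.Y189.UD
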