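import Mathlib
import Pool.Agent.Helper10.UC.Fin
import Pool.Agent.Y189.UD.Rot
import Pool.Agent.Y189.UD.Thom2

/-! No open subset of a compact manifold dominates the universal covering of `MM`. -/

set_option autoImplicit false
open Set Filter Topology Metric
open Pool.Agent.Helper10.UC
open Pool.Agent.Helper10.UC.J_thom

namespace Pool.Agent.Y189.UD

universe u v

/-- one open piece -/
theorem piece {E : Type u} {N : Type v} [TopologicalSpace E] [MetricSpace N] {c : ℝ}
    (hc : -1 < c) {Ω : Set N} (hΩ : IsOpen Ω) {g : Ω → E} (hg : Continuous g)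
    (hproper : ∀ K, IsCompact K → IsCompact (g ⁻¹' K)) {D : Set E} (hD : D.Countable)
    {s : E → Ω} (hs : ContinuousOn s Dᶜ) (hgs : ∀ e ∉ D, g (s e) = e)
    {F : DD c → E} (hF : IsOpenEmbedding F) : ∃ z : List N → ℝ,
      (∃ μ0 > 0, ∀ w ∈ FC 4 (univ : Set N) μ0, pair z (bd w) = 0) ∧
      (∀ l : List N, (∃ x ∈ l, x ∉ Subtype.val '' (g ⁻¹' range F)) → z l = 0) ∧
      ∀ μ > 0, ∃ w ∈ FC 3 (Subtype.val '' (g ⁻¹' range F)) μ, bd w = 0 ∧
        pair z w = 4 * Real.pi := by
  classical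
  have p0 : S2 := ⟨(1, 0, 0), by unfold dot; norm_num⟩
  obtain ⟨F', hF'⟩ : ∃ F' : E → S2 × S2, ∀ q : DD c, F' (F q) = q.1 := by
    refine ⟨fun y => if h : ∃ q : DD c, F q = y then h.choose.1 else (p0, p0), fun q => ?_⟩
    beta_reduce
    have hex : ∃ q' : DD c, F q' = F q := ⟨q, rfl⟩
    rw [dif_pos hex, hF.injective hex.choose_spec]
  have hF'c : ∀ e ∈ range F, ContinuousAt F' e := by
    rintro _ ⟨q, rfl⟩
    rw [← hF.continuousAt_iff]
    have : F' ∘ F = Subtype.val := funext hF'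
    rw [this]
    exact continuous_subtype_val.continuousAt
  obtain ⟨G, hG⟩ : ∃ G : N → S2 × S2, ∀ y : Ω, G y.1 = F' (g y) := by
    refine ⟨fun x => if h : x ∈ Ω then F' (g ⟨x, h⟩) else (p0, p0), fun y => ?_⟩
    beta_reduce
    rw [dif_pos y.2]
  have hQ : IsOpen (Subtype.val '' (g ⁻¹' range F)) :=
    hΩ.isOpenMap_subtype_val _ (hF.isOpen_range.preimage hg)
  refine thom2 hc hQ (g := G) ?_ ?_ ?_
  · rintro _ ⟨y, hy, rfl⟩
    apply ContinuousAt.continuousWithinAt
    rw [← hΩ.isOpenEmbedding_subtypeVal.continuousAt_iff]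
    have : G ∘ (Subtype.val : Ω → N) = F' ∘ g := funext hG
    rw [this]
    exact ContinuousAt.comp (hF'c _ hy) hg.continuousAt
  · intro c' hc'
    have h1 : {x | x ∈ Subtype.val '' (g ⁻¹' range F) ∧ tm_d (G x) ≤ c'} =
        Subtype.val '' (g ⁻¹' (F '' {q : DD c | dot q.1.1.1 q.1.2.1 ≤ c'})) := by
      ext x
      constructor
      · rintro ⟨⟨y, ⟨q, hq⟩, rfl⟩, hx⟩
        rw [hG, ← hq, hF'] at hx
        exact ⟨y, ⟨q, hx, hq⟩, rfl⟩
      · rintro ⟨y, ⟨q, hq, hqy⟩, rfl⟩
        refine ⟨⟨y, ⟨q, hqy⟩, rfl⟩, ?_⟩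
        rw [hG, ← hqy, hF']
        exact hq
    rw [h1]
    exact (hproper _ ((J_unif.unif_compact hc').image hF.continuous)).image continuous_subtype_val
  · intro c' hc'
    have hD' : (Subtype.val '' (F ⁻¹' D) : Set (S2 × S2)).Countable :=
      (hD.preimage_of_injOn hF.injective.injOn).image _
    obtain ⟨t, ht1, ht2⟩ := exists_rot hD' (lt_min hc hc')
    have hcc : ∀ p : S2, dot p.1 (tm_neg (rot t p)).1 < c := fun p =>
      (ht2 p).trans_le (min_le_left _ _)
    have hnot : ∀ p : S2, F ⟨(p, tm_neg (rot t p)), hcc p⟩ ∉ D := by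
      intro p hp
      exact ht1 p ⟨⟨(p, tm_neg (rot t p)), hcc p⟩, hp, rfl⟩
    refine ⟨rot t, fun p => (s (F ⟨(p, tm_neg (rot t p)), hcc p⟩)).1, rot_TT t,
      fun p => (ht2 p).trans_le (min_le_right _ _), ?_, ?_⟩
    · have h1 : Continuous fun p : S2 => F ⟨(p, tm_neg (rot t p)), hcc p⟩ := by
        refine hF.continuous.comp ?_
        refine Continuous.subtype_mk ?_ _
        refine continuous_id.prodMk ?_
        have h2 : Continuous fun p : S2 => rot t p :=
          continuous_rot.comp (continuous_const.prodMk continuous_id)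
        unfold tm_neg
        exact Continuous.subtype_mk (continuous_subtype_val.comp h2).neg _
      exact continuous_subtype_val.comp (hs.comp_continuous h1 hnot)
    · intro p
      have h1 := hgs _ (hnot p)
      constructor
      · exact ⟨s (F ⟨(p, tm_neg (rot t p)), hcc p⟩), ⟨⟨(p, tm_neg (rot t p)), hcc p⟩, h1.symm⟩, rfl⟩
      · rw [hG, h1, hF']

theorem no_modification {E : Type u} {N : Type v} [TopologicalSpace E] [SimplyConnectedSpace E]
    {p : E → MM} (hp : IsCoveringMap p) {k : ℕ} [TopologicalSpace N] [CompactSpace N] [T2Space N]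
    [ChartedSpace (EuclideanSpace ℝ (Fin k)) N] {Ω : Set N} (hΩ : IsOpen Ω) {g : Ω → E}
    (hg : Continuous g) (hproper : ∀ K, IsCompact K → IsCompact (g ⁻¹' K)) {D : Set E}
    (hD : D.Countable) {s : E → Ω} (hs : ContinuousOn s Dᶜ) (hgs : ∀ e ∉ D, g (s e) = e) :
    False := by
  have : SecondCountableTopology N :=
    ChartedSpace.secondCountable_of_sigmaCompact (EuclideanSpace ℝ (Fin k)) N
  let _ : MetricSpace N := TopologicalSpace.metrizableSpaceMetric N
  have hL : LFA N := lfa_of_charted (k := k)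
  obtain ⟨K, hK⟩ := local_piece
  have hc : (-1 : ℝ) < -1 / 3 := by norm_num
  have hc1 : (-1 / 3 : ℝ) ≤ 1 := by norm_num
  have := pre_DD hc hc1
  have : PathConnectedSpace MM := isPathConnected_iff_pathConnectedSpace.1 pathM
  have := infinite_fibre hp (K (q00 hc)) (infinite_piM _)
  let y := Infinite.natEmbedding (p ⁻¹' {K (q00 hc)})
  have hl := fun j : ℕ => lifts hp hc hc1 K hK.continuous (q00 hc) (y j).1 (y j).2
  choose F hFc hFp hF0 using hl
  have hFe : ∀ j, IsOpenEmbedding (F j) := fun j => (lift_emb hp hK).1 (F j) (hFc j) (hFp j)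
  have hdis : ∀ i j, i ≠ j → Disjoint (range (F i)) (range (F j)) := by
    intro i j hij
    refine (lift_emb hp hK).2 (F i) (F j) (hFc i) (hFc j) (hFp i) (hFp j) ⟨q00 hc, ?_⟩
    rw [hF0, hF0]
    intro h
    exact hij (y.injective (Subtype.ext h))
  have ht := fun j : ℕ => piece hc hΩ hg hproper hD hs hgs (hFe j)
  choose z hz1 hz2 hz3 using ht
  refine no_inf hL z hz1 (e := 4 * Real.pi) (by positivity) ?_
  intro j μ hμ
  obtain ⟨w, hw, hbd, hpair⟩ := hz3 j μ hμ
  have hmono : FC 3 (Subtype.val '' (g ⁻¹' range (F j))) μ ≤ FC 3 (univ : Set N) μ :=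
    Finsupp.supported_mono (fun l hl => ⟨hl.1, fun x _ => mem_univ x, hl.2.2⟩)
  refine ⟨w, hmono hw, hbd, ?_⟩
  intro i
  by_cases hij : i = j
  · subst hij
    simp [hpair]
  · rw [if_neg hij]
    unfold pair
    rw [Finsupp.linearCombination_apply, Finsupp.sum]
    refine Finset.sum_eq_zero (fun l hl => ?_)
    have hl' : l ∈ Sml 3 (Subtype.val '' (g ⁻¹' range (F j))) μ := hw hl
    have : z i l = 0 := by
      apply hz2 i
      obtain ⟨h3, hr, _⟩ := hl'
      match l, h3, hr with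
      | a :: l', _, hr =>
        refine ⟨a, by simp, ?_⟩
        have ha := hr a (by simp)
        rintro ⟨y, hy, hya⟩
        obtain ⟨y', hy', hya'⟩ := ha
        have h5 : y = y' := Subtype.ext (hya.trans hya'.symm)
        subst h5
        exact (Set.disjoint_left.1 (hdis i j hij)) hy hy'
    rw [this]; simp

end Pool.Agent.Y189.UD
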