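import Mathlib
import Pool.Agent.Y189.UD.Asm
import Pool.Agent.Y189.UD.Top

/-! The universal covering of `MM` is not bimeromorphic to a domain. -/

set_option autoImplicit false
open Set Filter Topology Metric
open Pool.Agent.Helper10.UC
open scoped Manifold ContDiff

namespace Pool.Agent.Y189.UD

universe u v

/-- a complex manifold is a real topological manifold -/
theorem real_charts (V : Type) [NormedAddCommGroup V] [NormedSpace ℂ V] [FiniteDimensional ℂ V]
    (N : Type v) [TopologicalSpace N] [ChartedSpace V N] :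
    ∃ k : ℕ, Nonempty (ChartedSpace (EuclideanSpace ℝ (Fin k)) N) := by
  let _ : NormedSpace ℝ V := NormedSpace.restrictScalars ℝ ℂ V
  have : IsScalarTower ℝ ℂ V := ⟨fun x y z => by
    show (((x • y : ℂ)) • z) = ((x : ℂ) • (y • z))
    rw [smul_smul]
    rfl⟩
  have : FiniteDimensional ℝ V := FiniteDimensional.trans ℝ ℂ V
  let e : V ≃ₜ EuclideanSpace ℝ (Fin (Module.finrank ℝ V)) := toEuclidean.toHomeomorph
  let _ : ChartedSpace (EuclideanSpace ℝ (Fin (Module.finrank ℝ V))) V :=
    e.toOpenPartialHomeomorph.singletonChartedSpace rfl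
  exact ⟨_, ⟨ChartedSpace.comp (EuclideanSpace ℝ (Fin (Module.finrank ℝ V))) V N⟩⟩

theorem not_bimero (E : Type u) [TopologicalSpace E] [SimplyConnectedSpace E]
    [ChartedSpace (Fin 2 → ℂ) E] [IsManifold 𝓘(ℂ, Fin 2 → ℂ) ω E] (p : E → MM)
    (hp : IsCoveringMap p) (hph : IsHolomorphicInto (Fin 2 → ℂ) p)
    (V : Type) [NormedAddCommGroup V] [NormedSpace ℂ V] [FiniteDimensional ℂ V]
    (N : Type v) [TopologicalSpace N] [CompactSpace N] [T2Space N] [ChartedSpace V N]
    [IsManifold 𝓘(ℂ, V) ω N] (Ω : TopologicalSpace.Opens N) (hΩ : IsConnected (Ω : Set N)) :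
    ¬ Bimeromorphic (Fin 2 → ℂ) V E Ω := by
  intro h
  have : IsManifold 𝓘(ℂ, Fin 2 → ℂ) 1 E := IsManifold.of_le (n := ω) le_top
  have : IsManifold 𝓘(ℂ, V) 1 N := IsManifold.of_le (n := ω) le_top
  have : T2Space (PP Ix) := t2_PP
  have : T2Space E := t2_of_covering hp
  have : LocallyCompactSpace E := ChartedSpace.locallyCompactSpace (Fin 2 → ℂ) E
  have : ProperSpace V := FiniteDimensional.proper ℂ V
  have : SecondCountableTopology N := ChartedSpace.secondCountable_of_sigmaCompact V N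
  have : LocallyCompactSpace Ω := ChartedSpace.locallyCompactSpace V Ω
  have : PreconnectedSpace Ω := isPreconnected_iff_preconnectedSpace.1 hΩ.isPreconnected
  have : Nonempty Ω := hΩ.nonempty.to_subtype
  obtain ⟨F₁, F₂, hF₁, hF₂, hF⟩ := primitives (V := Fin 2 → ℂ) hp hph
  obtain ⟨g, hg, hproper, D, hD, s, hs, hgs⟩ := bimero_map (V := Fin 2 → ℂ) (W := V)
    (Y := Ω) (E := E) (by simp) hF₁ hF₂ hF h
  obtain ⟨k, ⟨hk⟩⟩ := real_charts V N
  exact no_modification hp (k := k) (N := N) (Ω := (Ω : Set N)) Ω.isOpen hg hproper hD hs hgs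

end Pool.Agent.Y189.UD
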